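import Pool.Agent.Lib.MP_0c15f2_nt.DF.Zero

/-! The Siegel step over the constants, and the passage from the polynomial relation to the
zero lemma. -/

namespace Pool.Agent.Drin

open Finset WithZero Polynomial

set_option linter.unusedSectionVars false

variable {F L : Type} [Field F] [Field L] [Algebra F L] {v : Valuation L ℤᵐ⁰}

namespace Ctx

variable {q c e D : ℕ} {θ δ : L} {U : ℕ → L →+ L} {H : ℕ → Submodule F L}
  (h : Ctx q c e D v θ δ U H)
include h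

/-- The `q ^ E`-th powers of the elements of `H M` lie in a space that is not larger. -/
theorem pow_space (E M : ℕ) : ∃ W : Submodule F L, FiniteDimensional F W ∧
    Module.finrank F W ≤ D * (M + c + 1) ∧ ∀ y ∈ H M, y ^ q ^ E ∈ W := by
  classical
  have := h.fin M
  let b := Module.finBasis F (H M)
  refine ⟨Submodule.span F (Set.range fun r => (b r : L) ^ q ^ E),
    FiniteDimensional.span_of_finite F (Set.finite_range _), ?_, fun y hy => ?_⟩
  · refine (finrank_range_le_card _).trans ?_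
    rw [Fintype.card_fin]
    exact h.dimhi M
  · have h1 := congrArg (Submodule.subtype _) (b.sum_repr ⟨y, hy⟩)
    simp only [map_sum, map_smul, Submodule.subtype_apply] at h1
    rw [← h1, h.fr_sum]
    refine sum_mem fun r _ => ?_
    rw [_root_.smul_pow]
    exact Submodule.smul_mem _ _ (Submodule.subset_span ⟨r, rfl⟩)

/-- Finitely many Cartier conditions have a common non-zero solution. -/
theorem sieg0 {J : Type} [Fintype J] (z : J → L) (E C k : ℕ) (hz : ∀ j, z j ∈ H (C * q ^ E))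
    (hc : Fintype.card J * (k + C + 3 * c + 1) ≤ k * q ^ E) :
    ∃ P : L, P ≠ 0 ∧ P ∈ H ((k + c) * q ^ E) ∧ ∀ j, U E (P * z j) = 0 := by
  obtain ⟨W, hW, hd, hm⟩ := h.pow_space E (k + c + C + c)
  have hle : k * q ^ E + c ≤ (k + c) * q ^ E := by
    have := h.qpos E
    rw [add_mul]
    exact Nat.add_le_add_left (Nat.le_mul_of_pos_right _ this) _
  have hmem : ∀ (P : H (k * q ^ E + c)) (j : J), (δ * U E (P.1 * z j)) ^ q ^ E ∈ W := by
    intro P j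
    refine hm _ (h.stab E _ _ ?_)
    rw [add_mul]
    exact h.mul (h.le P.2 hle) (hz j)
  let f : H (k * q ^ E + c) →ₗ[F] (J → W) :=
    { toFun := fun P j => ⟨_, hmem P j⟩
      map_add' := fun P P' => by
        funext j
        apply Subtype.ext
        simp only [Submodule.coe_add, add_mul, map_add, mul_add, h.fr_add, Pi.add_apply]
      map_smul' := fun a P => by
        funext j
        apply Subtype.ext
        obtain ⟨b, rfl⟩ := h.rootn E a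
        simp only [Submodule.coe_smul, RingHom.id_apply, Pi.smul_apply, Algebra.smul_def, map_pow]
        rw [mul_assoc, (h.car E).semi, mul_left_comm, mul_pow] }
  have := h.fin (k * q ^ E + c)
  have hlt : Module.finrank F (J → W) < Module.finrank F (H (k * q ^ E + c)) := by
    rw [Module.finrank_pi_fintype, sum_const, card_univ, smul_eq_mul]
    refine lt_of_lt_of_le ?_ (h.dimlo _)
    have h1 : Fintype.card J * Module.finrank F W ≤
        Fintype.card J * (D * (k + c + C + c + c + 1)) := Nat.mul_le_mul_left _ hd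
    have h2 : Fintype.card J * (D * (k + c + C + c + c + 1)) =
        D * (Fintype.card J * (k + C + 3 * c + 1)) := by ring
    have h3 := Nat.mul_le_mul_left D hc
    have h4 := h.hD
    rw [mul_add D, mul_one]
    omega
  obtain ⟨P, hP, h0⟩ := Submodule.exists_mem_ne_zero_of_ne_bot
    (LinearMap.ker_ne_bot_of_finrank_lt (f := f) hlt)
  refine ⟨P.1, fun h1 => h0 (Subtype.ext h1), h.le P.2 hle, fun j => ?_⟩
  have h1 : (δ * U E (P.1 * z j)) ^ q ^ E = 0 :=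
    congrArg Subtype.val (congrFun (LinearMap.mem_ker.1 hP) j)
  exact (mul_eq_zero.1 (pow_eq_zero_iff (h.qpos E).ne' |>.1 h1)).resolve_left h.del0

/-- Killing finitely many monomials kills the whole family. -/
theorem kill {E t : ℕ} (ht : t ≤ E) {z : L}
    (hz : ∀ n < q ^ (E - t), U E (z * θ ^ (q ^ t * n)) = 0) (y : L) :
    U E (z * y ^ q ^ t) = 0 := by
  rw [(h.car (E - t)).recon y, h.fr_sum, mul_sum, map_sum]
  refine sum_eq_zero fun n hn => ?_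
  have hn' := mem_range.1 hn
  rw [mul_pow, ← pow_mul, ← pow_add, Nat.sub_add_cancel ht, mul_left_comm, (h.car E).semi,
    ← pow_mul, mul_comm _ (q ^ t), hz _ (by omega), mul_zero]

theorem sieg {ι : Type} (I : Finset ι) (x : ι → L) (t : ι → ℕ) (E C₀ k : ℕ)
    (ht : ∀ i ∈ I, t i ≤ E) (hx : ∀ i ∈ I, x i ∈ H (C₀ * q ^ E))
    (hc : (∑ i ∈ I, q ^ (E - t i)) * (k + C₀ + 3 * c + 2) ≤ k * q ^ E) :
    ∃ P : L, P ≠ 0 ∧ P ∈ H ((k + c) * q ^ E) ∧
      ∀ i ∈ I, ∀ y : L, U E (P * x i * y ^ q ^ t i) = 0 := by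
  obtain ⟨P, h0, hP, hz⟩ := h.sieg0 (J := Σ i : I, Fin (q ^ (E - t i)))
    (fun j => x j.1 * θ ^ (q ^ t j.1 * j.2)) E (C₀ + 1) k (fun j => by
      rw [add_mul, one_mul]
      refine h.mul (hx _ j.1.2) (h.le (h.thp _) ?_)
      calc q ^ t j.1 * j.2 ≤ q ^ t j.1 * q ^ (E - t j.1) := Nat.mul_le_mul_left _ j.2.2.le
        _ = q ^ E := by rw [← pow_add, Nat.add_sub_cancel' (ht _ j.1.2)]) (by
      rw [Fintype.card_sigma]
      simp only [Fintype.card_fin]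
      rw [sum_coe_sort I fun i => q ^ (E - t i),
        show k + (C₀ + 1) + 3 * c + 1 = k + C₀ + 3 * c + 2 by ring]
      exact hc)
  refine ⟨P, h0, hP, fun i hi y => h.kill (ht i hi) (fun n hn => ?_) y⟩
  rw [mul_assoc]
  exact hz ⟨⟨i, hi⟩, ⟨n, hn⟩⟩

theorem eval_ht {s : L[X]} (hs : ∀ n, Int H (s.coeff n)) :
    ∃ C, ∀ i, s.eval (θ ^ q ^ i) ∈ H (C * q ^ i) := by
  choose B hB using hs
  refine ⟨(range (s.natDegree + 1)).sup B + s.natDegree, fun i => ?_⟩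
  rw [eval_eq_sum_range]
  refine sum_mem fun n hn => h.le (h.mul (hB n) (h.pow (h.thp _) n)) ?_
  have h1 : B n ≤ (range (s.natDegree + 1)).sup B := le_sup hn
  have h2 : n ≤ s.natDegree := by have := mem_range.1 hn; omega
  rw [add_mul]
  exact Nat.add_le_add (h1.trans (Nat.le_mul_of_pos_right _ (h.qpos i)))
    (Nat.mul_le_mul_right _ h2)

theorem dv_pow {x y : L} (hx : Int H x) (hy : Int H y) (n : ℕ) :
    Dv H (x - y) (x ^ n - y ^ n) := by
  induction n with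
  | zero => simpa using h.dv_zero _
  | succ n ih =>
    have := h.dv_add (h.dv_mul ih hx) (h.dv_self (P := x - y) (h.int_pow hy n))
    convert this using 1
    ring

theorem dv_eval {s : L[X]} (hs : ∀ n, Int H (s.coeff n)) {x y : L} (hx : Int H x)
    (hy : Int H y) : Dv H (x - y) (s.eval x - s.eval y) := by
  rw [eval_eq_sum_range, eval_eq_sum_range, ← sum_sub_distrib]
  refine h.dv_sum _ _ fun n _ => ?_
  rw [← mul_sub, mul_comm]
  exact h.dv_mul (h.dv_pow hx hy n) (hs n)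

theorem pow_ht {A : L} (hA : Int H A) : ∃ C, ∀ i, A ^ q ^ i ∈ H (C * q ^ i) := by
  obtain ⟨C, hC⟩ := hA
  exact ⟨C, fun i => by rw [mul_comm]; exact h.pow hC _⟩

theorem comb_ht {A₁ A₂ : L} (h₁ : Int H A₁) (h₂ : Int H A₂) {s₁ s₂ : L[X]}
    (hs₁ : ∀ n, Int H (s₁.coeff n)) (hs₂ : ∀ n, Int H (s₂.coeff n)) :
    ∃ C, ∀ i, A₁ ^ q ^ i * s₁.eval (θ ^ q ^ i) + A₂ ^ q ^ i * s₂.eval (θ ^ q ^ i) ∈
      H (C * q ^ i) := by
  obtain ⟨a₁, ha₁⟩ := h.pow_ht h₁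
  obtain ⟨a₂, ha₂⟩ := h.pow_ht h₂
  obtain ⟨c₁, hc₁⟩ := h.eval_ht hs₁
  obtain ⟨c₂, hc₂⟩ := h.eval_ht hs₂
  refine ⟨a₁ + c₁ + (a₂ + c₂), fun i => add_mem (h.le (h.mul (ha₁ i) (hc₁ i)) ?_)
    (h.le (h.mul (ha₂ i) (hc₂ i)) ?_)⟩
  · rw [← add_mul]; exact Nat.mul_le_mul_right _ (by omega)
  · rw [← add_mul]; exact Nat.mul_le_mul_right _ (by omega)

theorem rel_zero {g Δ b₁ b₂ A₁ A₂ : L} (hg : g ∈ H c) (hΔ : Δ ∈ H c) (h0 : Δ ≠ 0)
    (_hb₁ : Int H b₁) (_hb₂ : Int H b₂) (hA₁ : Int H A₁) (hA₂ : Int H A₂)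
    (hr : Rel q θ g Δ b₁ b₂ A₁ A₂ H) (hG : Good q θ H (yy q b₁ b₂ A₁ A₂)) : False := by
  obtain ⟨i₀, κ, s₁, t₁, s₂, t₂, hκ, iκ, hs₁, ht₁, hs₂, ht₂, e₁, f₁, e₂, f₂, hrel⟩ := hr
  obtain ⟨C₁, hC₁⟩ := h.comb_ht hA₁ hA₂ hs₁ hs₂
  obtain ⟨C₂, hC₂⟩ := h.comb_ht hA₁ hA₂ ht₁ ht₂
  refine zero F L q c e D v θ δ U H h g Δ hg hΔ h0 _ hG (C₁ + C₂ + c + 1) (i₀ + 1) (-Δ * κ)
    (mul_ne_zero (neg_ne_zero.2 h0) hκ) (h.int_mul (h.int_neg (h.int_of hΔ)) iκ) fun i hi => ?_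
  obtain ⟨i, rfl⟩ : ∃ j, i = j + 1 := ⟨i - 1, by omega⟩
  have hr := hrel i (by omega)
  have hrec := h.pre.vv_rec0 g Δ i
  have hY₁ := hC₁ (i + 1)
  have hY₂ := hC₂ (i + 1)
  have iy := h.int_x (q ^ (i + 1))
  have d₁ := h.dv_add (h.dv_mul (h.dv_eval hs₁ iy h.int_th) (h.int_pow hA₁ (q ^ (i + 1))))
    (h.dv_mul (h.dv_eval hs₂ iy h.int_th) (h.int_pow hA₂ (q ^ (i + 1))))
  have d₂ := h.dv_add (h.dv_mul (h.dv_eval ht₁ iy h.int_th) (h.int_pow hA₁ (q ^ (i + 1))))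
    (h.dv_mul (h.dv_eval ht₂ iy h.int_th) (h.int_pow hA₂ (q ^ (i + 1))))
  obtain ⟨o, io, ho⟩ := h.dv_sub (h.dv_mul d₂ (h.int_of hg)) (h.dv_mul d₁ (h.int_of hΔ))
  have hq := h.qpos (i + 1)
  have hcq : c ≤ c * q ^ (i + 1) := Nat.le_mul_of_pos_right _ hq
  set Y₁ := A₁ ^ q ^ (i + 1) * s₁.eval (θ ^ q ^ (i + 1)) +
    A₂ ^ q ^ (i + 1) * s₂.eval (θ ^ q ^ (i + 1)) with hY1
  set Y₂ := A₁ ^ q ^ (i + 1) * t₁.eval (θ ^ q ^ (i + 1)) +
    A₂ ^ q ^ (i + 1) * t₂.eval (θ ^ q ^ (i + 1)) with hY2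
  refine ⟨(θ ^ q ^ (i + 1) - θ) * -Y₂, g * Y₂ - Δ * Y₁, -Y₂, o, ?_, ?_,
    h.int_neg (h.int_of hY₂), io, ?_, rfl, ?_⟩
  · refine h.le (h.mul (h.br1 _) (neg_mem hY₂)) ?_
    simp only [add_mul, one_mul]
    omega
  · refine sub_mem (h.le (h.mul hg hY₂) ?_) (h.le (h.mul hΔ hY₁) ?_)
    · simp only [add_mul, one_mul]; omega
    · simp only [add_mul, one_mul]; omega
  · have h2 : (vv q θ g Δ (i + 1)).2 = (vv q θ g Δ i).1 ^ q := by rw [vv]
    rw [h2]
    simp only [pair] at hr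
    linear_combination (-Y₂) * hrec - Δ * hr
  · rw [← ho, e₁, e₂, f₁, f₂, yy]
    ring

end Ctx

end Pool.Agent.Drin
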