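import Pool.Agent.Lib.MP_0c15f2_nt.DF.Term
import Pool.Agent.Lib.MP_0c15f2_nt.DF.Sieg

/-! From the vanishing of the surviving terms to the polynomial relation of level one. -/

namespace Pool.Agent.Drin

open Finset WithZero Polynomial

set_option linter.unusedSectionVars false

variable {F L : Type} [Field F] [Field L] [Algebra F L] {v : Valuation L ℤᵐ⁰}

/-- All coefficients have finite height. -/
def IC (H : ℕ → Submodule F L) (s : L[X]) : Prop := ∀ n, Int H (s.coeff n)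

/-- `s(y) V₁ + t(y) V₂` at level `u`. -/
def pairU (q : ℕ) (θ g Δ : L) (s t : L[X]) (u j : ℕ) : L :=
  s.eval (θ ^ q ^ (j + u + 1)) * (vv q θ g Δ j).1 ^ q ^ (u + 1) +
    t.eval (θ ^ q ^ (j + u + 1)) * (vv q θ g Δ j).2 ^ q ^ (u + 1)

/-- The relation of level `u + 1`. -/
def RelU (q : ℕ) (θ g Δ b₁ b₂ A₁ A₂ : L) (H : ℕ → Submodule F L) (u : ℕ) : Prop :=
  ∃ (j₀ : ℕ) (κ : L) (s₁ t₁ s₂ t₂ : L[X]), κ ≠ 0 ∧ Int H κ ∧ IC H s₁ ∧ IC H t₁ ∧ IC H s₂ ∧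
    IC H t₂ ∧ s₁.eval θ = κ * (b₁ ^ q * (rho q θ g Δ u).1) ∧
    t₁.eval θ = κ * (b₁ ^ q * (rho q θ g Δ u).2) ∧ s₂.eval θ = κ * (b₂ ^ q * (rho q θ g Δ u).1) ∧
    t₂.eval θ = κ * (b₂ ^ q * (rho q θ g Δ u).2) ∧ ∀ j, j₀ ≤ j →
      A₁ ^ q ^ (j + u + 1) * pairU q θ g Δ s₁ t₁ u j +
        A₂ ^ q ^ (j + u + 1) * pairU q θ g Δ s₂ t₂ u j = 0

/-- The polynomial whose values are the `Q`-th powers of `δ * PP`. -/
noncomputable def SP (θ δ : L) (Q : ℕ) (U : L →+ L) (x : L) : L[X] :=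
  ∑ n ∈ range Q, C ((δ * U (x * θ ^ n)) ^ Q) * X ^ (Q - 1 - n)

namespace Ctx

variable {q c e D : ℕ} {θ δ : L} {U : ℕ → L →+ L} {H : ℕ → Submodule F L}
  (h : Ctx q c e D v θ δ U H)
include h

theorem ic_C {a : L} (ha : Int H a) : IC H (C a) := fun n => by
  rw [coeff_C]
  split_ifs
  exacts [ha, h.int_zero]

theorem ic_X (k : ℕ) : IC H (X ^ k : L[X]) := fun n => by
  rw [coeff_X_pow]
  split_ifs
  exacts [h.int_one, h.int_zero]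

theorem ic_sub {s t : L[X]} (hs : IC H s) (ht : IC H t) : IC H (s - t) := fun n => by
  rw [coeff_sub]
  exact h.int_sub (hs n) (ht n)

theorem ic_mul {s t : L[X]} (hs : IC H s) (ht : IC H t) : IC H (s * t) := fun n => by
  rw [coeff_mul]
  exact h.int_sum _ _ fun p _ => h.int_mul (hs _) (ht _)

theorem ic_SP (E : ℕ) {x : L} (hx : Int H x) : IC H (SP θ δ (q ^ E) (U E) x) := fun n => by
  rw [SP, finsetSum_coeff]
  refine h.int_sum _ _ fun k _ => h.ic_mul (h.ic_C (h.int_pow ?_ _)) (h.ic_X _) n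
  obtain ⟨N, hN⟩ := h.int_mul hx (h.int_x k)
  exact h.int_of (h.stab E N _ (h.le hN (Nat.le_mul_of_pos_right _ (h.qpos E))))

theorem SP_th (E : ℕ) (x : L) : (SP θ δ (q ^ E) (U E) x).eval θ = δ ^ q ^ E * x := by
  rw [SP, eval_finsetSum]
  conv_rhs => rw [(h.car E).recon x, mul_sum]
  refine sum_congr rfl fun n _ => ?_
  rw [eval_mul, eval_C, eval_pow, eval_X, mul_pow, mul_assoc]

theorem SP_pow (E : ℕ) (x y : L) : (SP θ δ (q ^ E) (U E) x).eval (y ^ q ^ E) =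
    δ ^ q ^ E * PP θ (q ^ E) (U E) x y ^ q ^ E := by
  rw [SP, eval_finsetSum, PP, h.fr_sum, mul_sum]
  refine sum_congr rfl fun n _ => ?_
  rw [eval_mul, eval_C, eval_pow, eval_X, mul_pow, mul_pow, pow_right_comm y, mul_assoc]

variable {g Δ b₁ b₂ A₁ A₂ : L}

theorem pairU_step (s t : L[X]) (u j : ℕ) :
    pairU q θ g Δ (t * (C (θ ^ q ^ (u + 1)) - X ^ 1))
      (C (g ^ q ^ (u + 1)) * t - C (Δ ^ q ^ (u + 1)) * s) u (j + 1) =
      -Δ ^ q ^ (u + 1) * pairU q θ g Δ s t (u + 1) j := by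
  have h1 := h.pre.vv_rec g Δ j (u + 1)
  have h2 := h.pre.vv_rec2 g Δ j (u + 1)
  simp only [pairU, eval_mul, eval_sub, eval_C, eval_X, pow_one]
  rw [show j + 1 + (u + 1) = j + 1 + u + 1 by ring] at h1
  rw [show j + (u + 1) + 1 = j + 1 + u + 1 by ring, h2]
  linear_combination (-t.eval (θ ^ q ^ (j + 1 + u + 1))) * h1

theorem relU_step (hg : g ∈ H c) (hΔ : Δ ∈ H c) (h0 : Δ ≠ 0) {u : ℕ}
    (hr : RelU q θ g Δ b₁ b₂ A₁ A₂ H (u + 1)) : RelU q θ g Δ b₁ b₂ A₁ A₂ H u := by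
  obtain ⟨j₀, κ, s₁, t₁, s₂, t₂, hκ, iκ, hs₁, ht₁, hs₂, ht₂, e₁, f₁, e₂, f₂, hrel⟩ := hr
  have ix := h.int_x (q ^ (u + 1))
  have ig := h.int_pow (h.int_of hg) (q ^ (u + 1))
  have iΔ := h.int_pow (h.int_of hΔ) (q ^ (u + 1))
  have a1 : ∀ {t : L[X]}, IC H t → IC H (t * (C (θ ^ q ^ (u + 1)) - X ^ 1)) := fun ht =>
    h.ic_mul ht (h.ic_sub (h.ic_C ix) (h.ic_X 1))
  have a2 : ∀ {s t : L[X]}, IC H s → IC H t →
      IC H (C (g ^ q ^ (u + 1)) * t - C (Δ ^ q ^ (u + 1)) * s) := fun hs ht =>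
    h.ic_sub (h.ic_mul (h.ic_C ig) ht) (h.ic_mul (h.ic_C iΔ) hs)
  refine ⟨j₀ + 1, Δ ^ q ^ (u + 1) * (θ ^ q ^ (u + 1) - θ) * κ, _, _, _, _,
    mul_ne_zero (mul_ne_zero (pow_ne_zero _ h0) (h.br1_ne u)) hκ,
    h.int_mul (h.int_mul iΔ (h.int_sub ix h.int_th)) iκ, a1 ht₁, a2 hs₁ ht₁, a1 ht₂, a2 hs₂ ht₂,
    ?_, ?_, ?_, ?_, fun j hj => ?_⟩
  · simp only [eval_mul, eval_sub, eval_C, eval_X, pow_one, f₁, rho]; ring
  · simp only [eval_mul, eval_sub, eval_C, e₁, f₁, rho]; ring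
  · simp only [eval_mul, eval_sub, eval_C, eval_X, pow_one, f₂, rho]; ring
  · simp only [eval_mul, eval_sub, eval_C, e₂, f₂, rho]; ring
  · obtain ⟨j, rfl⟩ : ∃ i, j = i + 1 := ⟨j - 1, by omega⟩
    have := hrel j (by omega)
    rw [show j + (u + 1) + 1 = j + 1 + u + 1 by ring] at this
    rw [h.pairU_step, h.pairU_step]
    linear_combination (-Δ ^ q ^ (u + 1)) * this

theorem rel_of_relU (hg : g ∈ H c) (hΔ : Δ ∈ H c) (h0 : Δ ≠ 0) {u : ℕ}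
    (hr : RelU q θ g Δ b₁ b₂ A₁ A₂ H u) : Rel q θ g Δ b₁ b₂ A₁ A₂ H := by
  induction u with
  | succ u ih => exact ih (h.relU_step hg hΔ h0 hr)
  | zero =>
    obtain ⟨j₀, κ, s₁, t₁, s₂, t₂, hκ, iκ, hs₁, ht₁, hs₂, ht₂, e₁, f₁, e₂, f₂, hrel⟩ := hr
    refine ⟨j₀, κ, s₁, t₁, s₂, t₂, hκ, iκ, hs₁, ht₁, hs₂, ht₂, by simpa [rho] using e₁,
      by simpa [rho] using f₁, by simpa [rho] using e₂, by simpa [rho] using f₂, fun i hi => ?_⟩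
    simpa only [pairU, pair, add_zero, zero_add, pow_one] using hrel i hi

theorem rel_of_GG {P : L} {E j₀ : ℕ} (hg : g ∈ H c) (hΔ : Δ ∈ H c) (h0 : Δ ≠ 0)
    (hb1 : Int H b₁) (hb2 : Int H b₂) (hP0 : P ≠ 0) (hP : Int H P)
    (hG : ∀ j, j₀ ≤ j → GG q θ g Δ b₁ b₂ A₁ A₂ (U E) E P j = 0) :
    Rel q θ g Δ b₁ b₂ A₁ A₂ H := by
  have r := h.rho_ht hg hΔ E
  have a : ∀ {b x : L}, Int H b → Int H x → IC H (SP θ δ (q ^ E) (U E) (P * (b ^ q * x))) :=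
    fun hb hx => h.ic_SP E (h.int_mul hP (h.int_mul (h.int_pow hb q) hx))
  refine h.rel_of_relU hg hΔ h0 (u := E) ⟨j₀, δ ^ q ^ E * P, _, _, _, _,
    mul_ne_zero (pow_ne_zero _ h.del0) hP0, h.int_mul (h.int_pow (h.int_of h.del) _) hP,
    a hb1 (h.int_of r.1), a hb1 (h.int_of r.2), a hb2 (h.int_of r.1), a hb2 (h.int_of r.2),
    by rw [h.SP_th, mul_assoc], by rw [h.SP_th, mul_assoc], by rw [h.SP_th, mul_assoc],
    by rw [h.SP_th, mul_assoc], fun j hj => ?_⟩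
  have h1 := congrArg (· ^ q ^ E) (hG j hj)
  simp only [GG, h.fr_add, mul_pow, zero_pow (h.qpos E).ne', ← pow_q_add] at h1
  have e1 : ∀ x : L, (x ^ q) ^ q ^ E = x ^ q ^ (E + 1) := fun x => by rw [← pow_mul, ← pow_succ']
  have e2 : j + E + 1 = j + 1 + E := by ring
  simp only [e1] at h1
  simp only [pairU, e2, pow_q_add q θ (j + 1) E, h.SP_pow]
  linear_combination (δ ^ q ^ E) * h1

end Ctx

end Pool.Agent.Drin
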