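import Pool.Agent.Lib.MP_0c15f2_nt.DF.Seq

/-! Elimination with many points. -/

namespace Pool.Agent.Drin

open Finset WithZero Polynomial

set_option linter.unusedSectionVars false

variable {F L : Type} [Field F] [Field L] [Algebra F L] {v : Valuation L ℤᵐ⁰}

theorem elim_prod (M : ℕ → L → Prop) (b τ Y : ℕ → L) (n : ℕ)
    (hM : ∀ s < n, ∀ x y, M s x → M s y → M (s + 1) (x - b s * y)) : ∀ k,
    (∀ i ≤ k + n, ∃ a, M 0 a ∧ Lim v (fun j => τ j * Y j ^ i) a) →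
    ∀ i ≤ k, ∃ a, M n a ∧ Lim v (fun j => τ j * (∏ s ∈ range n, (Y j - b s)) * Y j ^ i) a := by
  induction n with
  | zero => intro k h i hi; simpa using h i hi
  | succ n ih =>
    intro k h i hi
    have h1 := ih (fun s hs => hM s (by omega)) (k + 1) fun i hi => h i (by omega)
    obtain ⟨a, ha, hl⟩ := h1 i (by omega)
    obtain ⟨a', ha', hl'⟩ := h1 (i + 1) (by omega)
    refine ⟨a' - b n * a, hM n (by omega) _ _ ha' ha, ?_⟩
    convert hl'.sub (hl.mul (b n)) using 2 with j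
    rw [prod_range_succ]; ring

theorem Lim.single {t : ℕ → L} (h : Lim v t 0) {N : ℤ} (j₀ : ℕ)
    (ht : ∀ j, j ≠ j₀ → v (t j) ≤ exp N) : v (t j₀) ≤ exp N := by
  obtain ⟨I₀, hI⟩ := h N
  have h1 := hI (I₀ + j₀ + 1) (by omega)
  rw [zero_sub, Valuation.map_neg, ← add_sum_erase _ _ (mem_range.2 (show j₀ < _ by omega))] at h1
  have h2 : v (∑ j ∈ (range (I₀ + j₀ + 1)).erase j₀, t j) ≤ exp N :=
    Valuation.map_sum_le v fun j hj => ht j (ne_of_mem_erase hj)
  simpa using Valuation.map_sub_le v h1 h2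

theorem v_prod_le {ι : Type} (s : Finset ι) (f : ι → L) (d : ℤ)
    (h : ∀ i ∈ s, v (f i) ≤ exp d) : v (∏ i ∈ s, f i) ≤ exp ((s.card : ℤ) * d) := by
  rw [map_prod]
  refine (Finset.prod_le_pow_card s _ _ h).trans ?_
  rw [← exp_nsmul]; simp

namespace Ctx

variable {q c e D : ℕ} {θ δ : L} {U : ℕ → L →+ L} {H : ℕ → Submodule F L}
  (h : Ctx q c e D v θ δ U H)
include h

theorem one_le_v_br {a b : ℕ} (hab : a ≠ b) : 1 ≤ v (θ ^ q ^ a - θ ^ q ^ b) := by
  rcases lt_or_gt_of_ne hab with h1 | h1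
  · rw [← Valuation.map_neg, neg_sub, h.v_br (h.qlt h1), ← exp_zero, exp_le_exp]; positivity
  · rw [h.v_br (h.qlt h1), ← exp_zero, exp_le_exp]; positivity

theorem elim {r S ε K Q m : ℕ} (τ : ℕ → L) {d : L} (hd0 : d ≠ 0) (hd : d ∈ H K)
    (hS : 4 * c ≤ q ^ S) (hm1 : c * (K + r * q ^ (r + ε) + 1) + c * K < m)
    (hm2 : 2 * c * Q + K + 2 * c < q ^ S * m)
    (hlim : ∀ i ≤ S + r, ∃ a, d * a ∈ H K ∧ Lim v (fun j => τ j * (θ ^ q ^ (j + 1 + ε)) ^ i) a)
    (hup : ∀ j, r ≤ j → v (τ j) ≤ exp (-((e * q ^ (j + 1) * ((r + S) * q ^ ε + m + j / 2) : ℕ) : ℤ)))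
    (hlow : ∀ j, r ≤ j → τ j ≠ 0 →
      exp (-((q ^ (j + 1) * (2 * c * Q + 2 * c * j + K) : ℕ) : ℤ)) ≤ v (τ j)) :
    ∀ j, r ≤ j → τ j = 0 := by
  classical
  set Y : ℕ → L := fun j => θ ^ q ^ (j + 1 + ε) with hY
  have hvY : ∀ j, v (Y j) ≤ exp ((e * q ^ (j + 1) * q ^ ε : ℕ) : ℤ) := fun j => by
    rw [mul_assoc, ← pow_add]; exact (h.v_thp _).le
  have hvYY : ∀ j s, s < j → v (Y j - Y s) ≤ exp ((e * q ^ (j + 1) * q ^ ε : ℕ) : ℤ) :=
    fun j s hs => by
      rw [mul_assoc, ← pow_add]; exact (h.v_br (h.qlt (by omega))).le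
  set τ' : ℕ → L := fun j => τ j * ∏ s ∈ range r, (Y j - Y s) with hτ'
  have h0 : ∀ j < r, τ' j = 0 := fun j hj => by
    simp only [hτ']
    rw [prod_eq_zero (mem_range.2 hj) (sub_self _), mul_zero]
  have hup' : ∀ j z, v z ≤ exp ((S : ℤ) * ((e * q ^ (j + 1) * q ^ ε : ℕ) : ℤ)) →
      v (τ' j * z) ≤ exp (-((q ^ (j + 1) * (m + j / 2) : ℕ) : ℤ)) := by
    intro j z hz
    rcases lt_or_ge j r with hj | hj
    · simp [h0 j hj]
    refine v_mono (v_mul_le (v_mul_le (hup j hj) (v_prod_le _ _ _ fun s hs =>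
      hvYY j s (lt_of_lt_of_le (mem_range.1 hs) hj))) hz) ?_
    have : q ^ (j + 1) * (m + j / 2) ≤ e * (q ^ (j + 1) * (m + j / 2)) :=
      Nat.le_mul_of_pos_left _ h.he
    have h2 : ((q ^ (j + 1) * (m + j / 2) : ℕ) : ℤ) ≤ ((e * (q ^ (j + 1) * (m + j / 2)) : ℕ) : ℤ) := by
      exact_mod_cast this
    generalize j / 2 = w at h2 ⊢
    rw [card_range]
    push_cast at h2 ⊢
    linarith
  have h1 := elim_prod (v := v) (fun t a => d * a ∈ H (K + t * q ^ (r + ε))) Y τ Y r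
    (fun s hs x y hx hy => by
      have hb : Y s ∈ H (q ^ (r + ε)) := h.le (h.thp _) (h.qle (by omega))
      rw [mul_sub, mul_left_comm]
      exact sub_mem (h.le hx (by rw [add_mul]; omega)) (h.le (h.mul hb hy) (by rw [add_mul]; omega))) S
    (fun i hi => by simpa using hlim i hi)
  have h2 : ∀ i ≤ 0 + S, ∃ a, a = 0 ∧ Lim v (fun j => τ' j * Y j ^ i) a := by
    intro i hi
    obtain ⟨a, ha, hl⟩ := h1 i (by omega)
    refine ⟨a, ?_, hl⟩
    by_contra ha0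
    have e1 := h.low ha (mul_ne_zero hd0 ha0)
    have e2 : v a ≤ exp (-(m : ℤ)) := hl.bound fun j => v_mono (hup' j _ (v_mono
      (v_pow_le (hvY j) i) (by
        have : (i : ℤ) ≤ S := by exact_mod_cast (by omega : i ≤ S)
        exact mul_le_mul_of_nonneg_right this (Int.natCast_nonneg _)))) (by
      have : m ≤ q ^ (j + 1) * (m + j / 2) :=
        (Nat.le_add_right _ _).trans (Nat.le_mul_of_pos_left _ (h.qpos _))
      omega)
    have e3 := e1.trans (v_mul_le (h.up hd) e2)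
    rw [exp_le_exp] at e3
    have : e * K ≤ c * K := Nat.mul_le_mul_right _ h.hec
    omega
  by_contra hne
  push Not at hne
  have hex : ∃ j, r ≤ j ∧ τ j ≠ 0 := hne
  obtain ⟨hr, hτ⟩ := Nat.find_spec hex
  set j₀ := Nat.find hex with hj₀
  obtain ⟨a, rfl, hl⟩ := elim_prod (v := v) (fun _ a => a = 0) (fun s => Y (j₀ + 1 + s)) τ' Y S
    (fun s _ x y hx hy => by rw [hx, hy]; simp) 0 h2 0 le_rfl
  have e1 := hl.single (N := -((q ^ (j₀ + 1) * (q ^ S * (m + j₀ / 2)) : ℕ) : ℤ)) j₀ (by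
    intro j hj
    rcases lt_or_gt_of_ne hj with hj | hj
    · rcases lt_or_ge j r with hjr | hjr
      · simp [h0 j hjr]
      · have : τ j = 0 := by
          by_contra h3
          exact Nat.find_min hex hj ⟨hjr, h3⟩
        simp [hτ', this]
    rcases lt_or_ge j (j₀ + 1 + S) with hj2 | hj2
    · rw [prod_eq_zero (i := j - (j₀ + 1)) (mem_range.2 (by omega)) (by
        rw [show j₀ + 1 + (j - (j₀ + 1)) = j by omega, sub_self])]
      simp
    · rw [pow_zero, mul_one]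
      refine v_mono (hup' j _ (by
        simpa using v_prod_le (range S) _ _ fun s hs => hvYY j _ (by
          have := mem_range.1 hs; omega))) ?_
      rw [neg_le_neg_iff, Int.ofNat_le, ← mul_assoc, ← pow_add]
      exact Nat.mul_le_mul (h.qle (by omega)) (by omega))
  have e2 : v (τ j₀) ≤ v (τ' j₀ * (∏ s ∈ range S, (Y j₀ - Y (j₀ + 1 + s))) * Y j₀ ^ 0) := by
    simp only [hτ', pow_zero, mul_one, map_mul, map_prod]
    rw [mul_assoc]
    refine le_mul_of_one_le_right' (one_le_mul (one_le_prod' fun s hs => ?_)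
      (one_le_prod' fun s _ => ?_))
    · exact h.one_le_v_br (by have := mem_range.1 hs; omega)
    · exact h.one_le_v_br (by omega)
  have e3 := (hlow j₀ hr hτ).trans (e2.trans e1)
  rw [exp_le_exp, neg_le_neg_iff, Int.ofNat_le] at e3
  have e4 := Nat.le_of_mul_le_mul_left e3 (h.qpos _)
  have e5 : 4 * c * (j₀ / 2) ≤ q ^ S * (j₀ / 2) := Nat.mul_le_mul_right _ hS
  have e6 : 2 * c * j₀ ≤ 2 * c * (2 * (j₀ / 2) + 1) := Nat.mul_le_mul_left _ (by omega)
  nlinarith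

end Ctx

end Pool.Agent.Drin
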