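import Pool.Agent.Lib.MP_0c15f2_nt.DF.Pick
import Pool.Agent.Lib.MP_0c15f2_nt.DF.Elim

/-! The algebraic side and the size of the surviving terms. -/

namespace Pool.Agent.Drin

open Finset WithZero Polynomial

set_option linter.unusedSectionVars false

variable {F L : Type} [Field F] [Field L] [Algebra F L] {v : Valuation L ℤᵐ⁰}

theorem Lim.map {t : ℕ → L} {x θ : L} {Q : ℕ} {U : L →+ L} (hU : IsCar v θ Q U) (h : Lim v t x) :
    Lim v (fun i => U (t i)) (U x) := by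
  intro N
  obtain ⟨N', hN⟩ := hU.cont N
  obtain ⟨I₀, hI⟩ := h N'
  exact ⟨I₀, fun I hI' => by rw [← map_sum, ← map_sub]; exact hN _ (hI I hI')⟩

theorem Lim.fin {t : ℕ → L} {r : ℕ} (h : ∀ j, r ≤ j → t j = 0) : Lim v t (∑ j ∈ range r, t j) := by
  refine fun N => ⟨r, fun I hI => ?_⟩
  rw [← sum_subset (range_subset_range.2 hI) fun j _ hj => h j (by simpa using hj)]
  simp

theorem ell_mul' (q : ℕ) (θ : L) {a b u : ℕ} (h : a ≤ b) (h' : b ≤ u) :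
    ell q θ a b * ell q θ b u = ell q θ a u := by
  rw [ell, ell, ell, prod_Ico_consecutive _ h h']

/-- Numerator of the algebraic part of a term. -/
def xn (q : ℕ) (θ g Δ b₁ b₂ A₁ A₂ η : L) (r u : ℕ) : L :=
  ((rho q θ g Δ u).1 * (vv q θ g Δ r).1 ^ q ^ (u + 1) +
    (rho q θ g Δ u).2 * (vv q θ g Δ r).2 ^ q ^ (u + 1)) * yy q b₁ b₂ A₁ A₂ (r + u + 1) * η ^ q ^ u

theorem Pre.term_eta {q e : ℕ} {θ : L} (h : Pre q e v θ) {g Δ b₁ b₂ A₁ A₂ : L} {U : L →+ L}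
    {E : ℕ} {P : L} (hA : A₂ ≠ 0) (hK : Kill q θ g Δ b₁ b₂ A₁ A₂ U E P) (r : ℕ) {u : ℕ}
    (hu : u ≤ E) (η : L) :
    U (P * (ell q θ 0 E * (be q θ g Δ (r + u) * yy q b₁ b₂ A₁ A₂ (r + u + 1) * η ^ q ^ u))) =
      U (P * (ell q θ u E * xn q θ g Δ b₁ b₂ A₁ A₂ η r u) / (θ ^ q ^ (r + u + 1) - θ)) := by
  rw [h.newton g Δ u r, add_mul, add_mul, mul_add, mul_add, map_add, sum_mul, sum_mul, mul_sum,
    mul_sum, map_sum, sum_eq_zero, zero_add]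
  · congr 1
    have h1 := h.ell_ne 0 u
    have h2 := h.br1_ne (r + u)
    rw [SS, xn, ← ell_mul q θ hu]
    field_simp
  intro s hs
  have hs' := mem_range.1 hs
  obtain ⟨d, hd⟩ := Nat.exists_eq_add_of_lt hs'
  rw [← h.kill_mid hA hK (s := s) (i := r + u) (by omega) (by omega)
    ((vv q θ g Δ (r + u - s)).1 * η ^ q ^ d)]
  congr 1
  rw [mul_pow, ← pow_q_add, show d + (s + 1) = u by omega]
  ring

namespace Ctx

variable {q c e D : ℕ} {θ δ : L} {U : ℕ → L →+ L} {H : ℕ → Submodule F L}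
  (h : Ctx q c e D v θ δ U H) {g Δ b₁ b₂ A₁ A₂ : L}
include h

theorem bigger {c' : ℕ} (hc : c ≤ c') : Ctx q c' e D v θ δ U H :=
  { h with
    hec := h.hec.trans hc
    low := fun hx h0 => le_trans (by
      rw [exp_le_exp, neg_le_neg_iff, Int.ofNat_le]; exact Nat.mul_le_mul_right _ hc) (h.low hx h0)
    div := fun a hx hy hxy hN => h.div a hx hy hxy (by omega)
    dimlo := fun N => by
      have := h.fin (N + c')
      exact (h.dimlo N).trans (Submodule.finrank_mono (h.mono (by omega)))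
    dimhi := fun N => (h.dimhi N).trans (Nat.mul_le_mul_left _ (by omega))
    del := h.le h.del hc
    stab := fun E N x hx => h.le (h.stab E N x hx) (by omega) }

theorem clear {d x : L} (hd : d ∈ H c) (hx : d * x ∈ H c) {a Q : ℕ} (ha : a ≤ Q) :
    d ^ Q * x ^ a ∈ H (c * Q) := by
  obtain ⟨b, rfl⟩ := Nat.exists_eq_add_of_le ha
  have := h.mul (h.pow hx a) (h.pow hd b)
  rw [← add_mul, mul_comm (a + b)] at this
  convert this using 1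
  ring

theorem U_alg {d z : L} {E N : ℕ} (hz : d ^ q ^ E * z ∈ H (N * q ^ E)) :
    δ * d * U E z ∈ H (N + c) := by
  have := h.stab E N _ hz
  rwa [(h.car E).semi, ← mul_assoc] at this

theorem shift_alg {d x y : L} {E N B : ℕ} (hy : y ^ q ^ E - θ ≠ 0) (hyB : y ∈ H B)
    (hx : d ^ q ^ E * x ∈ H (N * q ^ E)) (n : ℕ) (hn : n ≤ q ^ E) :
    ∃ z, δ * d * z ∈ H (N + 1 + c + n * B) ∧
      U E (θ ^ n * x / (y ^ q ^ E - θ)) = y ^ n * U E (x / (y ^ q ^ E - θ)) + z := by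
  induction n with
  | zero => exact ⟨0, by simp, by simp⟩
  | succ n ih =>
    obtain ⟨z, hz, hz'⟩ := ih (by omega)
    have e : θ ^ (n + 1) * x / (y ^ q ^ E - θ) =
        y ^ q ^ E * (θ ^ n * x / (y ^ q ^ E - θ)) - x * θ ^ n := by
      field_simp; ring
    refine ⟨y * z - U E (x * θ ^ n), ?_, by rw [e, map_sub, (h.car E).semi, hz']; ring⟩
    rw [mul_sub, mul_left_comm]
    refine sub_mem (h.le (h.mul hyB hz) (by rw [add_mul n 1]; omega))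
      (h.le (h.U_alg (N := N + 1) ?_) (by omega))
    rw [← mul_assoc, add_mul, one_mul]
    exact h.mul hx (h.le (h.thp n) (by omega))

theorem xn_ht (hg : g ∈ H c) (hΔ : Δ ∈ H c) (hb1 : b₁ ∈ H c) (hb2 : b₂ ∈ H c) (hA1 : A₁ ∈ H c)
    (hA2 : A₂ ∈ H c) {d₁ η : L} {r : ℕ} (hd : d₁ ∈ H c) (hη : d₁ * η ∈ H c)
    (hD : DD q θ r ∈ H c) (hD1 : DD q θ r * (vv q θ g Δ r).1 ∈ H c)
    (hD2 : DD q θ r * (vv q θ g Δ r).2 ∈ H c) {u E : ℕ} (hu : u < E) :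
    (DD q θ r * d₁) ^ q ^ E * xn q θ g Δ b₁ b₂ A₁ A₂ η r u ∈
      H ((4 * c + 2 + 2 * c * q ^ r) * q ^ E) := by
  have a1 := h.clear hD hD1 (h.qle (show u + 1 ≤ E from hu))
  have a2 := h.clear hD hD2 (h.qle (show u + 1 ≤ E from hu))
  have a3 := h.clear hd hη (h.qle hu.le)
  have a4 := h.yy_ht hb1 hb2 hA1 hA2 (r + u)
  have a5 := h.rho_ht hg hΔ u
  have := h.mul (h.mul (add_mem (h.mul a5.1 a1) (h.mul a5.2 a2)) a4) a3
  refine h.le (by convert this using 1; rw [xn]; ring) ?_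
  have b1 : 2 * (c + 1) * q ^ u ≤ 2 * (c + 1) * q ^ E := Nat.mul_le_mul_left _ (h.qle hu.le)
  have b2 : 2 * c * q ^ (r + u + 1) ≤ 2 * c * (q ^ r * q ^ E) :=
    Nat.mul_le_mul_left _ (by rw [← pow_add]; exact h.qle (by omega))
  linarith

theorem PP_ht {x : L} {E N m : ℕ} (hx : x ∈ H (N * q ^ E)) (h0 : ∀ k < m, U E (x * θ ^ k) = 0)
    (X : ℕ) : δ * PP θ (q ^ E) (U E) x (θ ^ X) ∈ H (N + 1 + c + X * (q ^ E - m)) := by
  rw [PP, mul_sum]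
  refine sum_mem fun n hn => ?_
  have hn' := mem_range.1 hn
  rcases lt_or_ge n m with h1 | h1
  · simp [h0 n h1]
  · rw [← mul_assoc, ← pow_mul]
    refine h.mul (h.stab E (N + 1) _ ?_) (h.le (h.thp _) (Nat.mul_le_mul_left _ (by omega)))
    rw [add_mul, one_mul]
    exact h.mul hx (h.le (h.thp n) hn'.le)

theorem GG_ht (hg : g ∈ H c) (hΔ : Δ ∈ H c) (hb1 : b₁ ∈ H c) (hb2 : b₂ ∈ H c) (hA1 : A₁ ∈ H c)
    (hA2 : A₂ ∈ H c) {E N m : ℕ} {P : L} (hE : 1 ≤ E) (hP : P ∈ H (N * q ^ E))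
    (h0 : ∀ x ∈ [b₁ ^ q * (rho q θ g Δ E).1, b₂ ^ q * (rho q θ g Δ E).1,
        b₁ ^ q * (rho q θ g Δ E).2, b₂ ^ q * (rho q θ g Δ E).2],
        ∀ k < m, U E (P * x * θ ^ k) = 0) (j : ℕ) :
    δ * DD q θ j ^ q * GG q θ g Δ b₁ b₂ A₁ A₂ (U E) E P j ∈
      H (q ^ (j + 1) * (q ^ E - m + (N + 6 * c + 3) + (j + 1) / 2)) := by
  have r := h.rho_ht hg hΔ E
  have u1 := h.bq_ht hb1 hE
  have u2 := h.bq_ht hb2 hE
  have key : ∀ b ρ : L, b ∈ H (c * q ^ E) → ρ ∈ H (2 * (c + 1) * q ^ E) →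
      P * (b * ρ) ∈ H ((N + 3 * c + 2) * q ^ E) := fun b ρ hb hρ =>
    h.le (h.mul hP (h.mul hb hρ)) (by linarith)
  simp only [List.mem_cons, List.not_mem_nil, or_false, forall_eq_or_imp, forall_eq] at h0
  have p1 := h.mul (h.pow hA1 (q ^ (j + 1))) (h.PP_ht (key _ _ u1 r.1) h0.1 (q ^ (j + 1)))
  have p2 := h.mul (h.pow hA2 (q ^ (j + 1))) (h.PP_ht (key _ _ u2 r.1) h0.2.1 (q ^ (j + 1)))
  have p3 := h.mul (h.pow hA1 (q ^ (j + 1))) (h.PP_ht (key _ _ u1 r.2) h0.2.2.1 (q ^ (j + 1)))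
  have p4 := h.mul (h.pow hA2 (q ^ (j + 1))) (h.PP_ht (key _ _ u2 r.2) h0.2.2.2 (q ^ (j + 1)))
  have n := h.nn_ht' hg hΔ j
  have := add_mem (h.mul (add_mem p1 p2) n.1) (h.mul (add_mem p3 p4) n.2)
  refine h.le (by convert this using 1; rw [GG]; ring) ?_
  have : N + 4 * c + 3 ≤ q ^ (j + 1) * (N + 4 * c + 3) := Nat.le_mul_of_pos_left _ (h.qpos _)
  linarith

theorem tau_bound {G w : L} {E m K₀ K₂ j a : ℕ} {dδ dw : ℤ} (hδ : v δ = exp dδ)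
    (hw : v w = exp dw) (hK : dδ.natAbs + dw.natAbs ≤ K₂) (hm : m ≤ q ^ E) (ha : a ≤ j + 1)
    (hG : δ * DD q θ j ^ q * G ∈ H (q ^ (j + 1) * (q ^ E - m + K₀ + (j + 1) / 2))) :
    (∀ m', m' + K₀ + K₂ ≤ m → v (G * w ^ q ^ a / (θ ^ q ^ (j + E + 1) - θ)) ≤
      exp (-((e * q ^ (j + 1) * (m' + j / 2) : ℕ) : ℤ))) ∧
    (G * w ^ q ^ a / (θ ^ q ^ (j + E + 1) - θ) ≠ 0 →
      exp (-((q ^ (j + 1) * (2 * c * q ^ E + 2 * c * j + (c * (K₀ + 2) + K₂)) : ℕ) : ℤ)) ≤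
        v (G * w ^ q ^ a / (θ ^ q ^ (j + E + 1) - θ))) := by
  by_cases hG0 : G = 0
  · simp [hG0]
  obtain ⟨dG, hdG⟩ := ex_v_eq v hG0
  have e1 := v_mul_eq (v_mul_eq hδ (v_pow_eq (h.pre.v_DD j) q)) hdG
  have e2 : v (G * w ^ q ^ a / (θ ^ q ^ (j + E + 1) - θ)) =
      exp (dG + ((q ^ a : ℕ) : ℤ) * dw - ((e * q ^ (j + E + 1) : ℕ) : ℤ)) := by
    rw [map_div₀, v_mul_eq hdG (v_pow_eq hw _), h.v_br1, exp_sub]
  have e3 := h.up hG
  have e4 := h.low hG (by rw [← Valuation.ne_zero_iff v, e1]; exact exp_ne_zero)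
  rw [e1, exp_le_exp] at e3 e4
  obtain ⟨T, hT⟩ := Nat.exists_eq_add_of_le hm
  have hX : q ^ (j + E + 1) = q ^ (j + 1) * (m + T) := by
    rw [← hT, ← pow_add]; congr 1; ring
  have hq : (q : ℤ) * ((e * (j * q ^ j) : ℕ) : ℤ) = e * (j * ((q ^ (j + 1) : ℕ) : ℤ)) := by
    push_cast; ring
  have ha' : ((q ^ a : ℕ) : ℤ) ≤ ((q ^ (j + 1) : ℕ) : ℤ) := by exact_mod_cast h.qle ha
  have ha0 : (0 : ℤ) ≤ ((q ^ a : ℕ) : ℤ) := Int.natCast_nonneg _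
  have hX1 : (1 : ℤ) ≤ ((q ^ (j + 1) : ℕ) : ℤ) := by exact_mod_cast h.qpos _
  have hK' : |dδ| + |dw| ≤ (K₂ : ℤ) := by
    rw [← Int.natCast_natAbs, ← Int.natCast_natAbs]; exact_mod_cast hK
  have f1 : |((q ^ a : ℕ) : ℤ) * dw - dδ| ≤ ((q ^ (j + 1) : ℕ) : ℤ) * K₂ := by
    refine (abs_sub _ _).trans ?_
    rw [abs_mul, abs_of_nonneg ha0]
    nlinarith [abs_nonneg dδ, abs_nonneg dw]
  have f2 := abs_le.1 f1
  have he : (1 : ℤ) ≤ e := by exact_mod_cast h.he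
  have hec : (e : ℤ) ≤ c := by exact_mod_cast h.hec
  rw [hq, hT, Nat.add_sub_cancel_left] at e3 e4
  rw [e2, hX, hT]
  obtain ⟨j₁, j₂, hj₁, hj₂, hj⟩ : ∃ j₁ j₂, (j + 1) / 2 = j₁ ∧ j / 2 = j₂ ∧ j = j₁ + j₂ :=
    ⟨_, _, rfl, rfl, by omega⟩
  rw [hj₁] at e3 e4
  rw [hj₂]
  generalize q ^ (j + 1) = X at *
  generalize q ^ a = Y at *
  subst hj
  have hT0 : (0 : ℤ) ≤ T := Int.natCast_nonneg _
  have hm0 : (0 : ℤ) ≤ m := Int.natCast_nonneg _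
  have hj1 : (0 : ℤ) ≤ j₁ := Int.natCast_nonneg _
  have hj2 : (0 : ℤ) ≤ j₂ := Int.natCast_nonneg _
  have hK2 : (0 : ℤ) ≤ K₂ := Int.natCast_nonneg _
  refine ⟨fun m' hm' => ?_, fun _ => ?_⟩ <;> rw [exp_le_exp] <;> push_cast at e3 e4 f2 ⊢
  · have g1 : (m' : ℤ) + K₀ + K₂ ≤ m := by exact_mod_cast hm'
    have g2 : (X : ℤ) * K₂ ≤ e * (X * K₂) := le_mul_of_one_le_left (by positivity) he
    have g3 := mul_le_mul_of_nonneg_left g1 (show (0 : ℤ) ≤ e * X by positivity)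
    linarith [f2.2]
  · have g2 : (e : ℤ) * (X * (j₁ + j₂ + m + T)) ≤ c * (X * (j₁ + j₂ + m + T)) :=
      mul_le_mul_of_nonneg_right hec (by positivity)
    have g3 : (c : ℤ) ≤ c * X := le_mul_of_one_le_right (by positivity) hX1
    have g4 : (0 : ℤ) ≤ c * X * (m + j₂ + 1) := by positivity
    linarith [f2.1]

end Ctx

end Pool.Agent.Drin
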