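import Pool.Agent.Lib.MP_0c15f2_nt.DF.Defs

/-! Basic consequences of the standing data. -/

namespace Pool.Agent.Drin

open Finset WithZero Polynomial

set_option linter.unusedSectionVars false

variable {F L : Type} [Field F] [Field L] [Algebra F L]

theorem exists_fr {q : ℕ} (hq : q ≠ 0) (fr : ∀ x y : L, (x + y) ^ q = x ^ q + y ^ q) (n : ℕ) :
    ∃ φ : L →+* L, ∀ x, φ x = x ^ q ^ n := by
  induction n with
  | zero => exact ⟨RingHom.id L, fun x => by simp⟩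
  | succ n ih =>
    obtain ⟨φ, hφ⟩ := ih
    let ψ : L →+* L :=
      { toFun := fun x => x ^ q
        map_one' := one_pow _
        map_mul' := fun x y => mul_pow _ _ _
        map_zero' := zero_pow hq
        map_add' := fr }
    exact ⟨ψ.comp φ, fun x => by
      show (φ x) ^ q = _
      rw [hφ, ← pow_mul, ← pow_succ]⟩

theorem ex_v_eq (v : Valuation L ℤᵐ⁰) {s : L} (hs : s ≠ 0) : ∃ d : ℤ, v s = exp d :=
  ⟨log (v s), (exp_log ((Valuation.ne_zero_iff _).2 hs)).symm⟩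

theorem ex_v_le (v : Valuation L ℤᵐ⁰) (s : L) : ∃ d : ℕ, v s ≤ exp (d : ℤ) := by
  by_cases hs : s = 0
  · exact ⟨0, by simp [hs]⟩
  · obtain ⟨d, hd⟩ := ex_v_eq v hs
    exact ⟨d.toNat, by rw [hd, exp_le_exp]; omega⟩

variable {v : Valuation L ℤᵐ⁰}

theorem v_pow_eq {s : L} {d : ℤ} (h : v s = exp d) (n : ℕ) : v (s ^ n) = exp (n * d) := by
  rw [map_pow, h, ← exp_nsmul, nsmul_eq_mul]

theorem v_pow_le {s : L} {d : ℤ} (h : v s ≤ exp d) (n : ℕ) : v (s ^ n) ≤ exp (n * d) := by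
  rw [map_pow, ← nsmul_eq_mul, exp_nsmul]
  exact pow_le_pow_left₀ zero_le h n

theorem v_mul_le {s t : L} {a b : ℤ} (h : v s ≤ exp a) (h' : v t ≤ exp b) :
    v (s * t) ≤ exp (a + b) := by
  rw [map_mul, exp_add]
  exact mul_le_mul' h h'

theorem v_mul_eq {s t : L} {a b : ℤ} (h : v s = exp a) (h' : v t = exp b) :
    v (s * t) = exp (a + b) := by
  rw [map_mul, exp_add, h, h']

theorem v_div_le {s t : L} {a b : ℤ} (h : v s ≤ exp a) (h' : v t = exp b) :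
    v (s / t) ≤ exp (a - b) := by
  rw [div_eq_mul_inv, sub_eq_add_neg]
  refine v_mul_le h ?_
  rw [map_inv₀, h', exp_neg]

theorem v_mono {s : L} {a b : ℤ} (h : v s ≤ exp a) (hab : a ≤ b) : v s ≤ exp b :=
  h.trans (exp_le_exp.2 hab)

namespace Ctx

variable {q c e D : ℕ} {θ δ : L} {U : ℕ → L →+ L} {H : ℕ → Submodule F L}
  (h : Ctx q c e D v θ δ U H)
include h

theorem q0 : q ≠ 0 := by have := h.hq; omega

theorem qpos (n : ℕ) : 0 < q ^ n := Nat.pos_of_ne_zero (pow_ne_zero n h.q0)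

theorem c1 : 1 ≤ c := h.he.trans h.hec

theorem qlt {a b : ℕ} (hab : a < b) : q ^ a < q ^ b :=
  Nat.pow_lt_pow_right (by have := h.hq; omega) hab

theorem qle {a b : ℕ} (hab : a ≤ b) : q ^ a ≤ q ^ b :=
  Nat.pow_le_pow_right (by have := h.hq; omega) hab

theorem fr_add (n : ℕ) (x y : L) : (x + y) ^ q ^ n = x ^ q ^ n + y ^ q ^ n := by
  obtain ⟨φ, hφ⟩ := exists_fr h.q0 h.fr n
  rw [← hφ, ← hφ, ← hφ, map_add]

theorem fr_sub (n : ℕ) (x y : L) : (x - y) ^ q ^ n = x ^ q ^ n - y ^ q ^ n := by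
  obtain ⟨φ, hφ⟩ := exists_fr h.q0 h.fr n
  rw [← hφ, ← hφ, ← hφ, map_sub]

theorem fr_neg (n : ℕ) (x : L) : (-x) ^ q ^ n = -x ^ q ^ n := by
  obtain ⟨φ, hφ⟩ := exists_fr h.q0 h.fr n
  rw [← hφ, ← hφ, map_neg]

theorem fr_sum {ι : Type} (n : ℕ) (s : Finset ι) (f : ι → L) :
    (∑ i ∈ s, f i) ^ q ^ n = ∑ i ∈ s, f i ^ q ^ n := by
  obtain ⟨φ, hφ⟩ := exists_fr h.q0 h.fr n
  rw [← hφ, map_sum]
  exact sum_congr rfl fun i _ => hφ _

theorem rootn (n : ℕ) (a : F) : ∃ b : F, b ^ q ^ n = a := by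
  induction n generalizing a with
  | zero => exact ⟨a, by simp⟩
  | succ n ih =>
    obtain ⟨b, rfl⟩ := h.root a
    obtain ⟨b', rfl⟩ := ih b
    exact ⟨b', by rw [pow_succ, pow_mul]⟩

theorem le {N N' : ℕ} {x : L} (hx : x ∈ H N) (hN : N ≤ N') : x ∈ H N' := h.mono hN hx

theorem pow {N : ℕ} {x : L} (hx : x ∈ H N) (n : ℕ) : x ^ n ∈ H (n * N) := by
  induction n with
  | zero => simpa using h.one
  | succ n ih => rw [pow_succ, add_mul, one_mul]; exact h.mul ih hx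

theorem thp (n : ℕ) : θ ^ n ∈ H n := by simpa using h.pow h.th n

theorem br {a b : ℕ} (hab : a ≤ b) : θ ^ b - θ ^ a ∈ H b :=
  sub_mem (h.thp b) (h.le (h.thp a) hab)

theorem br1 (i : ℕ) : θ ^ q ^ i - θ ∈ H (q ^ i) :=
  sub_mem (h.thp _) (h.le h.th (h.qpos i))

theorem v_thp (n : ℕ) : v (θ ^ n) = exp ((e * n : ℕ) : ℤ) := by
  rw [v_pow_eq h.vth]; push_cast; rw [mul_comm]

theorem v_br {a b : ℕ} (hab : a < b) : v (θ ^ b - θ ^ a) = exp ((e * b : ℕ) : ℤ) := by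
  rw [Valuation.map_sub_eq_of_lt_left, h.v_thp]
  rw [h.v_thp, h.v_thp, exp_lt_exp]
  have := h.he
  exact_mod_cast Nat.mul_lt_mul_of_pos_left hab (by omega)

theorem br_ne {a b : ℕ} (hab : a < b) : θ ^ b - θ ^ a ≠ 0 := by
  rw [← Valuation.ne_zero_iff v, h.v_br hab]; exact exp_ne_zero

theorem brq_ne {a b : ℕ} (hab : a < b) : θ ^ q ^ b - θ ^ q ^ a ≠ 0 := h.br_ne (h.qlt hab)

theorem v_br1 (i : ℕ) : v (θ ^ q ^ (i + 1) - θ) = exp ((e * q ^ (i + 1) : ℕ) : ℤ) := by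
  have := h.v_br (h.qlt (Nat.succ_pos i))
  simpa using this

theorem br1_ne (i : ℕ) : θ ^ q ^ (i + 1) - θ ≠ 0 := by
  rw [← Valuation.ne_zero_iff v, h.v_br1]; exact exp_ne_zero

theorem br1_ne' (i : ℕ) : θ - θ ^ q ^ (i + 1) ≠ 0 := fun h0 =>
  h.br1_ne i (by rw [← neg_sub, h0, neg_zero])

theorem aeval_mem (a : F[X]) : aeval θ a ∈ H a.natDegree := by
  rw [aeval_eq_sum_range]
  exact sum_mem fun i hi => Submodule.smul_mem _ _ (h.le (h.thp i) (by
    have := mem_range.1 hi; omega))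

theorem int_of {N : ℕ} {x : L} (hx : x ∈ H N) : Int H x := ⟨N, hx⟩

theorem int_add {x y : L} (hx : Int H x) (hy : Int H y) : Int H (x + y) := by
  obtain ⟨a, ha⟩ := hx
  obtain ⟨b, hb⟩ := hy
  exact ⟨a + b, add_mem (h.le ha (by omega)) (h.le hb (by omega))⟩

theorem int_neg {x : L} (hx : Int H x) : Int H (-x) := by
  obtain ⟨a, ha⟩ := hx
  exact ⟨a, neg_mem ha⟩

theorem int_sub {x y : L} (hx : Int H x) (hy : Int H y) : Int H (x - y) := by
  rw [sub_eq_add_neg]; exact h.int_add hx (h.int_neg hy)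

theorem int_mul {x y : L} (hx : Int H x) (hy : Int H y) : Int H (x * y) := by
  obtain ⟨a, ha⟩ := hx
  obtain ⟨b, hb⟩ := hy
  exact ⟨a + b, h.mul ha hb⟩

theorem int_pow {x : L} (hx : Int H x) (n : ℕ) : Int H (x ^ n) := by
  obtain ⟨a, ha⟩ := hx
  exact ⟨_, h.pow ha n⟩

theorem int_zero : Int H (0 : L) := ⟨0, zero_mem _⟩

theorem int_one : Int H (1 : L) := ⟨0, h.one⟩

theorem int_th : Int H θ := ⟨1, h.th⟩

theorem int_sum {ι : Type} (s : Finset ι) (f : ι → L) (hf : ∀ i ∈ s, Int H (f i)) :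
    Int H (∑ i ∈ s, f i) :=
  Finset.sum_induction f (Int H) (fun _ _ => h.int_add) h.int_zero hf

theorem int_prod {ι : Type} (s : Finset ι) (f : ι → L) (hf : ∀ i ∈ s, Int H (f i)) :
    Int H (∏ i ∈ s, f i) :=
  Finset.prod_induction f (Int H) (fun _ _ => h.int_mul) h.int_one hf

/-- the ring of finite height as a subring. -/
def O : Subring L where
  carrier := {x | Int H x}
  mul_mem' := h.int_mul
  one_mem' := h.int_one
  add_mem' := h.int_add
  zero_mem' := h.int_zero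
  neg_mem' := h.int_neg

theorem mem_O {x : L} : x ∈ h.O ↔ Int H x := Iff.rfl

theorem prod_mem {ι : Type} (s : Finset ι) (f : ι → L) (N : ℕ) (hf : ∀ i ∈ s, f i ∈ H N) :
    ∏ i ∈ s, f i ∈ H (s.card * N) := by
  classical
  induction s using Finset.induction_on with
  | empty => simpa using h.one
  | insert a s ha ih =>
    rw [prod_insert ha, card_insert_of_notMem ha, add_mul, one_mul, add_comm]
    exact h.mul (hf a (mem_insert_self _ _)) (ih fun i hi => hf i (mem_insert_of_mem hi))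

end Ctx

end Pool.Agent.Drin
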