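import Pool.Agent.Lib.MP_0c15f2_nt.DF.Seq

/-! Roots of `p`-power order in Laurent series: the inseparable case is reduced to the
separable one. -/

namespace Pool.Agent.Drin

open Finset WithZero Polynomial

set_option linter.unusedSectionVars false

section Alg

variable {F L : Type} [Field F] [Field L] [Algebra F L]

theorem alg_of_pow {K : IntermediateField F L} {y : L} {n : ℕ} (hn : 0 < n)
    (h : IsAlgebraic K (y ^ n)) : IsAlgebraic K y := IsAlgebraic.of_pow hn h

theorem alg_mono {K K' : IntermediateField F L} (hK : K ≤ K') {x : L} (h : IsAlgebraic K x) :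
    IsAlgebraic K' x := by
  let : Algebra K K' := (IntermediateField.inclusion hK).toRingHom.toAlgebra
  have : IsScalarTower K K' L := IsScalarTower.of_algebraMap_eq fun _ => rfl
  exact h.tower_top K'

theorem adjoin_pow_le (t : L) (n : ℕ) :
    IntermediateField.adjoin F {t ^ n} ≤ IntermediateField.adjoin F {t} :=
  IntermediateField.adjoin_simple_le_iff.2
    (pow_mem (IntermediateField.mem_adjoin_simple_self F t) n)

theorem alg_root {t x : L} {n : ℕ} (h : IsAlgebraic (IntermediateField.adjoin F {t ^ n}) x) :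
    IsAlgebraic (IntermediateField.adjoin F {t}) x := alg_mono (adjoin_pow_le t n) h

theorem alg_self (t : L) : IsAlgebraic (IntermediateField.adjoin F {t}) t :=
  isAlgebraic_algebraMap
    (⟨t, IntermediateField.mem_adjoin_simple_self F t⟩ : IntermediateField.adjoin F {t})

/-- Algebraic over `F(t)` implies algebraic over `F(t ^ n)`. -/
theorem alg_unroot {t x : L} {n : ℕ} (hn : 0 < n)
    (h : IsAlgebraic (IntermediateField.adjoin F {t}) x) :
    IsAlgebraic (IntermediateField.adjoin F {t ^ n}) x := by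
  set K := IntermediateField.adjoin F {t ^ n}
  have ht : IsAlgebraic K t := alg_of_pow hn (alg_self _)
  have hle : IntermediateField.adjoin F {t} ≤ (algebraicClosure K L).restrictScalars F :=
    IntermediateField.adjoin_simple_le_iff.2 (mem_algebraicClosure_iff.2 ht)
  have h1 : IsAlgebraic (algebraicClosure K L) x := alg_mono hle h
  exact h1.restrictScalars K

theorem alg_sum {K : IntermediateField F L} {ι : Type} (s : Finset ι) (f : ι → L)
    (hf : ∀ i ∈ s, IsAlgebraic K (f i)) : IsAlgebraic K (∑ i ∈ s, f i) :=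
  Finset.sum_induction f (IsAlgebraic K) (fun _ _ => IsAlgebraic.add) isAlgebraic_zero hf

variable (p : ℕ) [Fact p.Prime] [CharP F p] [IsAlgClosed F]

/-- A separable element over `F(t ^ p ^ k)` is a `p ^ k`-th power. -/
theorem sep_root (k : ℕ) {t x : L}
    (hx : IsSeparable (IntermediateField.adjoin F {t ^ p ^ k}) x) :
    ∃ y, y ^ p ^ k = x ∧ IsAlgebraic (IntermediateField.adjoin F {t}) y := by
  have : CharP L p := charP_of_injective_algebraMap (algebraMap F L).injective p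
  have hp : 0 < p ^ k := pow_pos (Fact.out : p.Prime).pos k
  set K := IntermediateField.adjoin F {t ^ p ^ k}
  have : CharP K p := charP_of_injective_algebraMap (algebraMap F K).injective p
  let R : IntermediateField F L := (iterateFrobenius L p k).fieldRange.toIntermediateField
    fun a => by
      obtain ⟨b, rfl⟩ := IsAlgClosed.exists_pow_nat_eq a hp
      exact ⟨algebraMap F L b, by rw [iterateFrobenius_def, map_pow]⟩
  have hK : K ≤ R := IntermediateField.adjoin_simple_le_iff.2 ⟨t, rfl⟩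
  have h1 := IntermediateField.adjoin_simple_eq_adjoin_pow_expChar_pow_of_isSeparable K L hx p k
  have h2 : x ∈ IntermediateField.adjoin K {x ^ p ^ k} :=
    h1 ▸ IntermediateField.mem_adjoin_simple_self K x
  have h3 : IntermediateField.adjoin K {x ^ p ^ k} ≤ IntermediateField.extendScalars hK :=
    IntermediateField.adjoin_simple_le_iff.2 ⟨x, rfl⟩
  obtain ⟨y, hy⟩ : x ∈ (iterateFrobenius L p k).fieldRange := h3 h2
  rw [iterateFrobenius_def] at hy
  exact ⟨y, hy, alg_of_pow hp (hy ▸ alg_root hx.isIntegral.isAlgebraic)⟩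

end Alg

variable {F : Type} [Field F] (p : ℕ) [Fact p.Prime] [CharP F p]

theorem exists_root {θ : LaurentSeries F} (hθ : θ.order < 0) :
    ∃ (k : ℕ) (t : LaurentSeries F), θ = t ^ p ^ k ∧ t.order < 0 ∧ ∀ x, x ^ p ≠ t := by
  induction hn : θ.order.natAbs using Nat.strong_induction_on generalizing θ with
  | _ n ih =>
  by_cases h : ∀ x, x ^ p ≠ θ
  · exact ⟨0, θ, by simp, hθ, h⟩
  · push Not at h
    obtain ⟨x, rfl⟩ := h
    have hp : (2 : ℤ) ≤ p := by exact_mod_cast (Fact.out : p.Prime).two_le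
    rw [HahnSeries.order_pow, nsmul_eq_mul] at hθ hn
    have hx : x.order < 0 := by
      by_contra hc
      push Not at hc
      nlinarith
    obtain ⟨k, t, h1, h2, h3⟩ := ih x.order.natAbs (by
      have : (p : ℤ) * x.order < x.order := by nlinarith
      omega) hx rfl
    exact ⟨k + 1, t, by rw [h1, ← pow_mul, ← pow_succ], h2, h3⟩

theorem charP_laurent : CharP (LaurentSeries F) p :=
  charP_of_injective_algebraMap (algebraMap F (LaurentSeries F)).injective p

theorem lim_ppow {L : Type} [Field L] [CharP L p] {v : Valuation L ℤᵐ⁰} {t : ℕ → L} {x : L}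
    (ht : Lim v t x) (a : ℕ) : Lim v (fun i => t i ^ p ^ a) (x ^ p ^ a) := by
  intro N
  obtain ⟨I₀, hI⟩ := ht (-|N|)
  refine ⟨I₀, fun I hI' => ?_⟩
  rw [← sum_pow_char_pow, ← sub_pow_char_pow]
  refine v_mono (v_pow_le (hI I hI') _) ?_
  have hp : (1 : ℤ) ≤ ((p ^ a : ℕ) : ℤ) := by
    exact_mod_cast pow_pos (Fact.out : p.Prime).pos a
  have h4 := neg_abs_le N
  have h5 := abs_nonneg N
  nlinarith

theorem Lim.small {L : Type} [Field L] {v : Valuation L ℤᵐ⁰} {t : ℕ → L} {x : L}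
    (ht : Lim v t x) (N : ℤ) : ∃ I, ∀ i, I ≤ i → v (t i) ≤ exp N := by
  obtain ⟨I, hI⟩ := ht N
  refine ⟨I, fun i hi => ?_⟩
  have := Valuation.map_sub_le v (hI i hi) (hI (i + 1) (by omega))
  rwa [sum_range_succ, sub_sub_sub_cancel_left, add_sub_cancel_left] at this

/-- A limit of sums of `p ^ a`-th powers is a `p ^ a`-th power. -/
theorem lim_root (a : ℕ) {s : ℕ → LaurentSeries F} {x : LaurentSeries F}
    (h : Lim Valued.v (fun i => s i ^ p ^ a) x) : ∃ y, Lim Valued.v s y ∧ y ^ p ^ a = x := by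
  have := charP_laurent (F := F) p
  have hs : Lim Valued.v s (∑' i, s i) := by
    refine lim_tsum s fun n => ?_
    obtain ⟨I, hI⟩ := h.small ((p ^ a : ℕ) * n)
    refine ⟨I, fun i hi => ?_⟩
    have h1 := hI i hi
    rw [map_pow, ← nsmul_eq_mul, exp_nsmul] at h1
    exact le_of_pow_le_pow_left₀ (pow_pos (Fact.out : p.Prime).pos a).ne' zero_le h1
  exact ⟨_, hs, (lim_ppow p hs a).unique h⟩

/-- Descent of a series: all terms become `P`-th powers after an algebraic correction. -/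
theorem desc (K : IntermediateField F (LaurentSeries F)) {q P' r a : ℕ} {ν : ℕ} (hq : q = p ^ ν)
    (hr : q ^ r = p ^ a * P') {c : ℕ → LaurentSeries F} {w η u ξ : LaurentSeries F}
    (hc : ∀ i, IsAlgebraic K (c i)) (hη : IsAlgebraic K η) (hξ : IsAlgebraic K ξ)
    (hw : w = η + u ^ p ^ a) (h : Lim Valued.v (fun i => c i ^ p ^ a * w ^ q ^ i) ξ) :
    ∃ ξ₀, IsAlgebraic K ξ₀ ∧
      Lim Valued.v (fun i => c i * if i < r then u ^ q ^ i else (w ^ P') ^ q ^ (i - r)) ξ₀ := by
  have := charP_laurent (F := F) p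
  have h0 : Lim Valued.v (fun i => if i < r then c i ^ p ^ a * η ^ q ^ i else 0)
      (∑ i ∈ range r, c i ^ p ^ a * η ^ q ^ i) := by
    intro N
    refine ⟨r, fun I hI => ?_⟩
    rw [← sum_filter, show (range I).filter (· < r) = range r by
      ext i; simp only [mem_filter, mem_range]; omega, sub_self, map_zero]
    exact zero_le
  have h1 := h.sub h0
  have h2 : (fun i => c i ^ p ^ a * w ^ q ^ i - if i < r then c i ^ p ^ a * η ^ q ^ i else 0) =
      fun i => (c i * if i < r then u ^ q ^ i else (w ^ P') ^ q ^ (i - r)) ^ p ^ a := by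
    funext i
    split_ifs with hi
    · rw [hw, hq, ← pow_mul, add_pow_char_pow, mul_pow, pow_right_comm u]
      ring
    · rw [sub_zero, mul_pow, ← pow_mul, ← pow_mul]
      congr 2
      obtain ⟨d, rfl⟩ := Nat.exists_eq_add_of_le (not_lt.1 hi)
      rw [pow_add, hr, Nat.add_sub_cancel_left]
      ring
  rw [h2] at h1
  obtain ⟨y, hy, hy'⟩ := lim_root p a h1
  refine ⟨y, alg_of_pow (pow_pos (Fact.out : p.Prime).pos a) ?_, hy⟩
  rw [hy']
  exact hξ.sub (alg_sum _ _ fun i _ => ((hc i).pow _).mul (hη.pow _))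

/-- Bootstrap: the point is a `p ^ a`-th power up to an algebraic element. -/
theorem boot (K : IntermediateField F (LaurentSeries F)) {q ν : ℕ} (hq : q = p ^ ν) (hν : 1 ≤ ν)
    (a : ℕ) {μ : ℕ → LaurentSeries F} {w ξ : LaurentSeries F} (h0 : μ 0 ≠ 0)
    (hμ : ∀ i, IsAlgebraic K (μ i)) (h : Lim Valued.v (fun i => μ i ^ p ^ a * w ^ q ^ i) ξ)
    (hξ : IsAlgebraic K ξ) : ∃ η u, IsAlgebraic K η ∧ w = η + u ^ p ^ a := by
  have := charP_laurent (F := F) p
  suffices H : ∀ b ≤ a, ∃ η u, IsAlgebraic K η ∧ w = η + u ^ p ^ b from H a le_rfl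
  intro b
  induction b with
  | zero => exact fun _ => ⟨0, w, isAlgebraic_zero, by simp⟩
  | succ b ih =>
    intro hb
    obtain ⟨η, u, hη, hw⟩ := ih (by omega)
    obtain ⟨d, rfl⟩ := Nat.exists_eq_add_of_le hb
    obtain ⟨ν, rfl⟩ := Nat.exists_eq_add_of_le hν
    have h1 := h.shift 1
    have h2 : (fun i => μ (i + 1) ^ p ^ (b + 1 + d) * w ^ q ^ (i + 1)) =
        fun i => (μ (i + 1) ^ p ^ d) ^ p ^ (b + 1) * (w ^ q) ^ q ^ i := by
      funext i
      rw [← pow_mul, ← pow_mul, ← pow_add, ← pow_succ', add_comm d]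
    rw [h2] at h1
    have hw' : w ^ q = η ^ q + (u ^ p ^ ν) ^ p ^ (b + 1) := by
      rw [hw, hq, add_pow_char_pow, ← pow_mul, ← pow_mul, ← pow_add, ← pow_add]
      congr 3
      ring
    have hr : q ^ (b + 1) = p ^ (b + 1) * p ^ (ν * (b + 1)) := by
      rw [hq, ← pow_mul, ← pow_add]
      congr 1
      ring
    have h3 : Lim Valued.v (fun i => if i < b + 1 then
        (μ (i + 1) ^ p ^ d) ^ p ^ (b + 1) * (η ^ q) ^ q ^ i else 0)
        (∑ i ∈ range (b + 1), (μ (i + 1) ^ p ^ d) ^ p ^ (b + 1) * (η ^ q) ^ q ^ i) := by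
      intro N
      refine ⟨b + 1, fun I hI => ?_⟩
      rw [← sum_filter, show (range I).filter (· < b + 1) = range (b + 1) by
        ext i; simp only [mem_filter, mem_range]; omega, sub_self, map_zero]
      exact zero_le
    have h4 := h1.sub h3
    have h5 : (fun i => (μ (i + 1) ^ p ^ d) ^ p ^ (b + 1) * (w ^ q) ^ q ^ i - if i < b + 1 then
        (μ (i + 1) ^ p ^ d) ^ p ^ (b + 1) * (η ^ q) ^ q ^ i else 0) =
        fun i => (μ (i + 1) ^ p ^ d * if i < b + 1 then (u ^ p ^ ν) ^ q ^ i else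
          ((w ^ q) ^ p ^ (ν * (b + 1))) ^ q ^ (i - (b + 1))) ^ p ^ (b + 1) := by
      funext i
      split_ifs with hi
      · rw [hw', hq, ← pow_mul _ (1 + ν) i, add_pow_char_pow, mul_pow,
          pow_right_comm (u ^ p ^ ν)]
        ring
      · rw [sub_zero, mul_pow, ← pow_mul (w ^ q), ← pow_mul (w ^ q)]
        congr 2
        obtain ⟨d, rfl⟩ := Nat.exists_eq_add_of_le (not_lt.1 hi)
        rw [pow_add, hr, Nat.add_sub_cancel_left]
        ring
    rw [h5] at h4
    obtain ⟨y, -, hy⟩ := lim_root p (b + 1) h4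
    have hm : μ 0 ^ p ^ (b + 1 + d) ≠ 0 := pow_ne_zero _ h0
    refine ⟨(ξ - ∑ i ∈ range (b + 1), (μ (i + 1) ^ p ^ d) ^ p ^ (b + 1) * (η ^ q) ^ q ^ i) *
      (μ 0 ^ p ^ (b + 1 + d))⁻¹, -y / μ 0 ^ p ^ d, ?_, ?_⟩
    · exact (hξ.sub (alg_sum _ _ fun i _ =>
        (((hμ _).pow _).pow _).mul ((hη.pow _).pow _))).mul ((hμ 0).pow _).inv
    · rw [div_pow, show (-y) ^ p ^ (b + 1) = -y ^ p ^ (b + 1) from
        (iterateFrobenius _ p (b + 1)).map_neg y, hy, ← pow_mul, ← pow_add, add_comm d]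
      simp only [sum_range_one, pow_zero, pow_one]
      field_simp
      ring

theorem alg_iff {F L : Type} [Field F] [Field L] [Algebra F L] (t : L) (n : ℕ) (hn : 0 < n)
    (x : L) : IsAlgebraic (IntermediateField.adjoin F {t ^ n}) x ↔
      IsAlgebraic (IntermediateField.adjoin F {t}) x := ⟨alg_root, alg_unroot hn⟩

theorem Lim.root (F : Type) [Field F] (p : ℕ) [Fact p.Prime] [CharP F p] (a : ℕ)
    (s : ℕ → LaurentSeries F) (ξ : LaurentSeries F) (h : Lim Valued.v (fun i => s i ^ p ^ a) ξ) :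
    ∃ x, Lim Valued.v s x ∧ x ^ p ^ a = ξ := lim_root p a h

theorem bootC (F : Type) [Field F] (p ν : ℕ) [Fact p.Prime] [CharP F p] (hq : 3 ≤ p ^ ν)
    (t : LaurentSeries F) (a : ℕ) (μ : ℕ → LaurentSeries F) (w ξ : LaurentSeries F)
    (h0 : μ 0 ≠ 0) (hμ : ∀ i, IsAlgebraic (IntermediateField.adjoin F {t}) (μ i))
    (hξ : IsAlgebraic (IntermediateField.adjoin F {t}) ξ)
    (hl : Lim Valued.v (fun i => μ i ^ p ^ a * w ^ (p ^ ν) ^ i) ξ) :
    ∃ η u, IsAlgebraic (IntermediateField.adjoin F {t}) η ∧ w = η + u ^ p ^ a := by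
  refine boot p _ rfl (Nat.pos_of_ne_zero ?_) a h0 hμ hl hξ
  rintro rfl
  simp at hq

theorem bootB (F : Type) [Field F] [IsAlgClosed F] (p : ℕ) [Fact p.Prime] [CharP F p]
    (θ : LaurentSeries F) (h : θ.order < 0) : ∃ (k e : ℕ) (t : LaurentSeries F),
    θ = t ^ p ^ k ∧ (∀ x, x ^ p ≠ t) ∧ 1 ≤ e ∧ Valued.v t = exp (e : ℤ) ∧
      ∀ x, IsSeparable (IntermediateField.adjoin F {θ}) x →
        ∃ y : LaurentSeries F, x = y ^ p ^ k := by
  obtain ⟨k, t, rfl, h2, h3⟩ := exists_root p h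
  have ht : t ≠ 0 := by
    rintro rfl
    simp at h2
  obtain ⟨d, hd⟩ := ex_v_eq (Valued.v : Valuation (LaurentSeries F) ℤᵐ⁰) ht
  have hd0 : 0 < d := by
    by_contra hc
    have h4 : Valued.v t ≤ exp (-(0 : ℤ)) := by rw [hd, exp_le_exp]; omega
    exact HahnSeries.coeff_order_eq_zero.not.2 ht
      ((LaurentSeries.valuation_le_iff_coeff_lt_eq_zero F).1 h4 _ h2)
  refine ⟨k, d.toNat, t, rfl, h3, by omega, ?_, fun x hx => ?_⟩
  · rw [hd, Int.toNat_of_nonneg hd0.le]
  · obtain ⟨y, hy, -⟩ := sep_root p k hx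
    exact ⟨y, hy.symm⟩

end Pool.Agent.Drin
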