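import Pool.Agent.Lib.MP_0c15f2_nt.DF.Lat
import Pool.Agent.Lib.MP_0c15f2_nt.DF.Base

/-! Cartier operators: iteration, and existence on Laurent series. -/

namespace Pool.Agent.Drin

open Finset WithZero Polynomial

set_option linter.unusedSectionVars false

theorem sum_range_mul' {A : Type} [AddCommMonoid A] (q b : ℕ) (f : ℕ → A) :
    ∑ n ∈ range (b * q), f n = ∑ k ∈ range b, ∑ r ∈ range q, f (k * q + r) := by
  induction b with
  | zero => simp
  | succ b ih => rw [add_mul, one_mul, sum_range_add, ih, sum_range_succ]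

theorem iter : IterStmt := by
  intro L _ v θ q C hq fr hC E
  obtain ⟨φ, hφ⟩ := exists_fr hq.ne' fr 1
  simp only [pow_one] at hφ
  induction E with
  | zero => exact ⟨fun k z => by simp [iterU], fun z => by simp [iterU],
      fun N => ⟨N, fun z hz => hz⟩⟩
  | succ E ih =>
    have hU : ∀ z, iterU C (E + 1) z = iterU C E (C z) := fun z => rfl
    refine ⟨fun k z => ?_, fun z => ?_, fun N => ?_⟩
    · rw [hU, hU, pow_succ, pow_mul, hC.semi, ih.semi]
    · rw [pow_succ, sum_range_mul', sum_comm]
      conv_lhs => rw [hC.recon z]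
      refine sum_congr rfl fun r hr => ?_
      conv_lhs => rw [ih.recon (C (z * θ ^ r))]
      rw [← hφ, map_sum, sum_mul]
      refine sum_congr rfl fun k hk => ?_
      have h1 := mem_range.1 hr
      have h2 := mem_range.1 hk
      have e1 : z * θ ^ (k * q + r) = (θ ^ k) ^ q * (z * θ ^ r) := by ring
      have e2 : q ^ E * q - 1 - (k * q + r) = (q ^ E - 1 - k) * q + (q - 1 - r) := by
        obtain ⟨a, ha⟩ : ∃ a, q ^ E = k + 1 + a := ⟨q ^ E - (k + 1), by omega⟩
        obtain ⟨b, hb⟩ : ∃ b, q = r + 1 + b := ⟨q - (r + 1), by omega⟩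
        have e3 : q ^ E * q = k * q + q + a * q := by rw [ha]; ring
        have e4 : q ^ E - 1 - k = a := by omega
        rw [e3, e4]; omega
      rw [hU, e1, hC.semi, e2, hφ, mul_comm (θ ^ k)]
      ring
    · obtain ⟨N1, h1⟩ := ih.cont N
      obtain ⟨N2, h2⟩ := hC.cont N1
      exact ⟨N2, fun z hz => h1 _ (h2 z hz)⟩

theorem iter_pow {L : Type} [Field L] {v : Valuation L ℤᵐ⁰} {θ : L} {q : ℕ} {C : L →+ L}
    (hq : 0 < q) (hC : IsCar v θ q C) (h : ∀ r < q, C (θ ^ r) = if r = q - 1 then 1 else 0)
    (E : ℕ) : ∀ r < q ^ E, iterU C E (θ ^ r) = if r = q ^ E - 1 then 1 else 0 := by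
  induction E with
  | zero => intro r hr; obtain rfl : r = 0 := by simpa using hr
            simp [iterU]
  | succ E ih =>
    intro r hr
    have hU : ∀ z, iterU C (E + 1) z = iterU C E (C z) := fun z => rfl
    have e0 := Nat.div_add_mod r q
    have e1 : θ ^ r = (θ ^ (r / q)) ^ q * θ ^ (r % q) := by
      rw [← pow_mul, ← pow_add, mul_comm, e0]
    have h1 := Nat.mod_lt r hq
    have h2 : r / q < q ^ E := by
      rw [Nat.div_lt_iff_lt_mul hq, ← pow_succ]; exact hr
    rw [hU, e1, hC.semi, h _ h1, pow_succ]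
    generalize r / q = k at *
    generalize r % q = s at *
    obtain ⟨a, ha⟩ : ∃ a, q ^ E = k + 1 + a := ⟨q ^ E - (k + 1), by omega⟩
    have e3 : q ^ E * q = q * k + q + a * q := by rw [ha]; ring
    by_cases hs : s = q - 1
    · rw [if_pos hs, mul_one, ih _ h2]
      by_cases hk : k = q ^ E - 1
      · have : a = 0 := by omega
        rw [if_pos hk, if_pos (by rw [e3, this]; omega)]
      · have : 0 < a * q := Nat.mul_pos (by omega) hq
        rw [if_neg hk, if_neg (by omega)]
    · rw [if_neg hs, mul_zero, map_zero, if_neg (by omega)]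

section Laurent

variable {F : Type} [Field F] (p : ℕ) [Fact p.Prime] [CharP F p]

theorem lv_le_iff {z : LaurentSeries F} {d : ℤ} :
    Valued.v z ≤ exp d ↔ ∀ n : ℤ, n < -d → z.coeff n = 0 := by
  rw [← LaurentSeries.valuation_le_iff_coeff_lt_eq_zero F, neg_neg]

theorem charL : CharP (LaurentSeries F) p :=
  charP_of_injective_algebraMap (algebraMap F (LaurentSeries F)).injective p

theorem frob_coeff (w : LaurentSeries F) (n : ℤ) :
    (w ^ p).coeff n = if (p : ℤ) ∣ n then w.coeff (n / p) ^ p else 0 := by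
  have hp : p.Prime := Fact.out
  have := charL (F := F) p
  have hQ1 : (1 : ℤ) ≤ p := by exact_mod_cast hp.pos
  set B : ℤ := |n| + 1 with hB
  set S := Finset.Ico w.order B with hS
  set t := w - ∑ k ∈ S, HahnSeries.single k (w.coeff k) with ht
  have hc : ∀ k < B, t.coeff k = 0 := by
    intro k hk
    rw [ht, HahnSeries.coeff_sub, HahnSeries.coeff_sum, sub_eq_zero]
    by_cases hkS : k ∈ S
    · rw [Finset.sum_eq_single k (fun j _ hj => HahnSeries.coeff_single_of_ne hj.symm)
        (fun h => absurd hkS h), HahnSeries.coeff_single_same]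
    · rw [Finset.sum_eq_zero fun j hj => HahnSeries.coeff_single_of_ne
        (fun h : k = j => hkS (h ▸ hj))]
      apply HahnSeries.coeff_eq_zero_of_lt_order
      by_contra h
      exact hkS (Finset.mem_Ico.2 ⟨not_lt.1 h, hk⟩)
  have hv : Valued.v t ≤ exp (-B) := lv_le_iff.2 fun k hk => hc k (by omega)
  have hn : n < B := by have := le_abs_self n; omega
  have hB0 : 0 ≤ B := by have := abs_nonneg n; omega
  have hv' : Valued.v (t ^ p) ≤ exp (-B) := v_mono (v_pow_le hv p) (by nlinarith)
  have hw : w = ∑ k ∈ S, HahnSeries.single k (w.coeff k) + t := by rw [ht]; ring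
  have h1 : w ^ p = ∑ k ∈ S, HahnSeries.single ((p : ℤ) * k) (w.coeff k ^ p) + t ^ p := by
    conv_lhs => rw [hw]
    rw [add_pow_char, sum_pow_char]
    congr 1
    refine Finset.sum_congr rfl fun k _ => ?_
    rw [HahnSeries.single_pow, nsmul_eq_mul]
  rw [h1, HahnSeries.coeff_add, lv_le_iff.1 hv' n (by omega), add_zero, HahnSeries.coeff_sum]
  split_ifs with hd
  · obtain ⟨k, rfl⟩ := hd
    rw [Int.mul_ediv_cancel_left _ (by omega)]
    have hinj : ∀ j, j ≠ k → (p : ℤ) * k ≠ p * j := fun j hj h =>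
      hj (mul_left_cancel₀ (by omega) h).symm
    by_cases hkS : k ∈ S
    · rw [Finset.sum_eq_single k (fun j _ hj => HahnSeries.coeff_single_of_ne (hinj j hj))
        (fun h => absurd hkS h), HahnSeries.coeff_single_same]
    · rw [Finset.sum_eq_zero fun j hj => HahnSeries.coeff_single_of_ne
        (hinj j fun h => hkS (h ▸ hj))]
      have : w.coeff k = 0 := by
        apply HahnSeries.coeff_eq_zero_of_lt_order
        by_contra h
        refine hkS (Finset.mem_Ico.2 ⟨not_lt.1 h, ?_⟩)
        rcases le_or_gt k 0 with h0 | h0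
        · have := abs_nonneg ((p : ℤ) * k); omega
        · have := le_abs_self ((p : ℤ) * k); nlinarith
      rw [this, zero_pow hp.ne_zero]
  · exact Finset.sum_eq_zero fun j _ => HahnSeries.coeff_single_of_ne
      fun h => hd ⟨j, h⟩

/-- Decomposition along the powers of the uniformiser. -/
theorem pi_decomp [IsAlgClosed F] (z : LaurentSeries F) :
    ∃ y : ℕ → LaurentSeries F,
      z = ∑ r ∈ range p, y r ^ p * HahnSeries.single (r : ℤ) (1 : F) ∧
      ∀ d : ℤ, Valued.v z ≤ exp (p * d) → ∀ r < p, Valued.v (y r) ≤ exp d := by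
  have hp : p.Prime := Fact.out
  have hQ1 : (1 : ℤ) ≤ p := by exact_mod_cast hp.pos
  choose ρ hρ using fun a : F => IsAlgClosed.exists_pow_nat_eq a hp.pos
  have hρ0 : ∀ a, a = 0 → ρ a = 0 := fun a ha =>
    pow_eq_zero_iff hp.ne_zero |>.1 (by rw [hρ, ha])
  refine ⟨fun r => HahnSeries.ofSuppBddBelow (fun k : ℤ => ρ (z.coeff (p * k + r))) ?_, ?_, ?_⟩
  · refine ⟨min 0 (z.order - r), fun k hk => ?_⟩
    have h1 : z.order ≤ (p : ℤ) * k + r :=
      HahnSeries.order_le_of_coeff_ne_zero fun h => hk (hρ0 _ h)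
    rcases le_total 0 k with h | h
    · exact (min_le_left _ _).trans h
    · refine (min_le_right _ _).trans ?_
      nlinarith
  · ext n
    rw [HahnSeries.coeff_sum]
    have key : ∀ (r : ℕ) (w : LaurentSeries F),
        (w * HahnSeries.single (r : ℤ) (1 : F)).coeff n = w.coeff (n - r) := by
      intro r w
      have := HahnSeries.coeff_mul_single_add (r := (1 : F)) (x := w) (a := n - r) (b := (r : ℤ))
      rwa [mul_one, sub_add_cancel] at this
    have h0 := Int.emod_nonneg n (b := p) (by omega)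
    have h1 := Int.emod_lt_of_pos n (b := p) (by omega)
    have h2 := Int.emod_add_mul_ediv n p
    obtain ⟨r, hr⟩ := Int.eq_ofNat_of_zero_le h0
    have h3 : n - r = (p : ℤ) * (n / p) := by rw [← hr]; linarith
    rw [Finset.sum_eq_single r]
    · rw [key, frob_coeff, h3, if_pos (dvd_mul_right _ _), Int.mul_ediv_cancel_left _ (by omega)]
      show _ = ρ (z.coeff (p * (n / p) + r)) ^ p
      rw [hρ, ← h3, sub_add_cancel]
    · intro r' hr' hne
      rw [key, frob_coeff, if_neg]
      intro h
      have h4 : (p : ℤ) ∣ (r : ℤ) - r' := by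
        have := dvd_sub h (h3 ▸ dvd_mul_right (p : ℤ) (n / p))
        rwa [show n - r' - (n - r) = (r : ℤ) - r' by ring] at this
      have h5 := mem_range.1 hr'
      have := Int.eq_zero_of_abs_lt_dvd h4 (by rw [abs_lt]; constructor <;> omega)
      omega
    · intro h
      exact absurd (mem_range.2 (by omega)) h
  · intro d hd r hr
    refine lv_le_iff.2 fun k hk => ?_
    show ρ (z.coeff (p * k + r)) = 0
    refine hρ0 _ (lv_le_iff.1 hd _ ?_)
    have : (r : ℤ) < p := by exact_mod_cast hr
    nlinarith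

theorem car_one [IsAlgClosed F] (θ : LaurentSeries F) (hθ : ∀ x, x ^ p ≠ θ) :
    ∃ C : LaurentSeries F →+ LaurentSeries F, IsCar Valued.v θ p C ∧
      ∀ r < p, C (θ ^ r) = if r = p - 1 then 1 else 0 := by
  have hp : p.Prime := Fact.out
  have := charL (F := F) p
  set φ := frobenius (LaurentSeries F) p with hφd
  have hφ : ∀ x, φ x = x ^ p := fun x => rfl
  set K := φ.fieldRange
  let ε := φ.rangeRestrictFieldEquiv
  have hε : ∀ x, (ε x : LaurentSeries F) = x ^ p := fun x => rfl
  have hsm : ∀ x z : LaurentSeries F, ε x • z = x ^ p * z := fun x z => rfl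
  have hirr : Irreducible (X ^ p - C (ε θ)) := by
    refine X_pow_sub_C_irreducible_of_prime hp fun b hb => ?_
    obtain ⟨x, rfl⟩ := ε.surjective b
    rw [← map_pow] at hb
    exact hθ x (ε.injective hb)
  have hmin : X ^ p - C (ε θ) = minpoly K θ := by
    refine minpoly.eq_of_irreducible_of_monic hirr ?_ (monic_X_pow_sub_C _ hp.ne_zero)
    rw [map_sub, aeval_X_pow, aeval_C]
    exact sub_self _
  have hli : LinearIndependent K fun i : Fin p => θ ^ (i : ℕ) := by
    have := linearIndependent_pow (K := K) θ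
    rwa [← hmin, natDegree_X_pow_sub_C] at this
  have hsp : Submodule.span K (Set.range fun i : Fin p =>
      (HahnSeries.single ((i : ℕ) : ℤ) (1 : F) : LaurentSeries F)) = ⊤ := by
    refine eq_top_iff.2 fun z _ => ?_
    obtain ⟨y, hy, -⟩ := pi_decomp p z
    rw [hy]
    refine sum_mem fun r hr => ?_
    rw [← hsm]
    exact Submodule.smul_mem _ _ (Submodule.subset_span ⟨⟨r, mem_range.1 hr⟩, rfl⟩)
  have hfin : FiniteDimensional K (LaurentSeries F) :=
    Module.Finite.of_fg_top (hsp ▸ Submodule.fg_span (Set.finite_range _))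
  have hrk : Fintype.card (Fin p) = Module.finrank K (LaurentSeries F) := by
    refine le_antisymm hli.fintype_card_le_finrank ?_
    rw [← finrank_top, ← hsp]
    exact finrank_range_le_card _
  let b : Module.Basis (Fin p) K (LaurentSeries F) :=
    Module.Basis.mk hli (hli.span_eq_top_of_card_eq_finrank' hrk).ge
  have hb : ∀ i, b i = θ ^ (i : ℕ) := fun i => Module.Basis.mk_apply _ _ i
  let l : Fin p := ⟨p - 1, by have := hp.pos; omega⟩
  let C : LaurentSeries F →+ LaurentSeries F :=
    ε.symm.toAddMonoidHom.comp (b.coord l).toAddMonoidHom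
  have hC : ∀ z, C z = ε.symm (b.repr z l) := fun z => rfl
  have semi : ∀ k z, C (k ^ p * z) = k * C z := by
    intro k z
    rw [hC, hC, ← hsm, map_smul, Finsupp.smul_apply, smul_eq_mul, map_mul, ε.symm_apply_apply]
  have pw : ∀ r < p, C (θ ^ r) = if r = p - 1 then 1 else 0 := by
    intro r hr
    rw [hC, ← hb ⟨r, hr⟩, b.repr_self, Finsupp.single_apply]
    by_cases h : r = p - 1
    · rw [if_pos h, if_pos (Fin.ext h), map_one]
    · rw [if_neg h, if_neg (fun h' => h (congrArg Fin.val h')), map_zero]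
  refine ⟨C, ⟨semi, fun z => ?_, fun N => ?_⟩, pw⟩
  · obtain ⟨y, hy⟩ : ∃ y : ℕ → LaurentSeries F, z = ∑ r ∈ range p, y r ^ p * θ ^ r := by
      refine ⟨fun r => if h : r < p then ε.symm (b.repr z ⟨r, h⟩) else 0, ?_⟩
      conv_lhs => rw [← b.sum_repr z]
      rw [← Fin.sum_univ_eq_sum_range (fun r => (if h : r < p then ε.symm (b.repr z ⟨r, h⟩)
        else 0) ^ p * θ ^ r)]
      refine sum_congr rfl fun i _ => ?_
      rw [dif_pos i.2, ← hsm, ε.apply_symm_apply, hb]
    have key : ∀ n < p, C (z * θ ^ n) = y (p - 1 - n) := by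
      intro n hn
      rw [hy, sum_mul, map_sum, sum_eq_single (p - 1 - n)]
      · rw [mul_assoc, semi, ← pow_add, pw _ (by omega), if_pos (by omega), mul_one]
      · intro r hr hne
        have h1 := mem_range.1 hr
        rw [mul_assoc, semi, ← pow_add]
        rcases lt_or_ge (r + n) p with h | h
        · rw [pw _ h, if_neg (by omega), mul_zero]
        · rw [show r + n = p + (r + n - p) by omega, pow_add, semi, pw _ (by omega),
            if_neg (by omega), mul_zero, mul_zero]
      · intro h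
        exact absurd (mem_range.2 (by omega)) h
    rw [sum_congr rfl fun n hn => by rw [key n (mem_range.1 hn)]]
    rw [sum_range_reflect (fun r => y r ^ p * θ ^ r) p]
    exact hy
  · choose d hd using fun r : ℕ =>
      ex_v_le Valued.v (C (HahnSeries.single (r : ℤ) (1 : F) : LaurentSeries F))
    refine ⟨p * (N - (∑ r ∈ range p, d r : ℕ)), fun z hz => ?_⟩
    obtain ⟨y, hy, hv⟩ := pi_decomp p z
    rw [hy, map_sum]
    refine Valuation.map_sum_le _ fun r hr => ?_
    rw [semi]
    refine v_mono (v_mul_le (hv _ hz r (mem_range.1 hr)) (hd r)) ?_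
    have : d r ≤ ∑ r ∈ range p, d r := single_le_sum (fun _ _ => Nat.zero_le _) hr
    omega

end Laurent

theorem car : CarStmt := by
  intro F _ _ p ν _ _ θ hθ
  have hp : p.Prime := Fact.out
  have := charL (F := F) p
  obtain ⟨C, hC, h⟩ := car_one p θ hθ
  exact ⟨iterU C ν, iter _ _ θ p C hp.pos (fun x y => add_pow_char x y p) hC ν,
    iter_pow hp.pos hC h ν⟩

end Pool.Agent.Drin
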