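import Pool.Agent.Lib.MP_0c15f2_nt.DF.Alg
import Pool.Agent.Lib.MP_0c15f2_nt.DF.Adj

/-! The core: an algebraic value produces a polynomial relation. -/

namespace Pool.Agent.Drin

open Finset WithZero Polynomial

set_option linter.unusedSectionVars false

variable {F L : Type} [Field F] [Field L] [Algebra F L] {v : Valuation L ℤᵐ⁰}

namespace Ctx

variable {q c e D : ℕ} {θ δ : L} {U : ℕ → L →+ L} {H : ℕ → Submodule F L}
  (h : Ctx q c e D v θ δ U H) {g Δ b₁ b₂ A₁ A₂ w₀ w₁ η x ξ d₁ : L} {r : ℕ}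
include h

theorem lims (hg : g ∈ H c) (hΔ : Δ ∈ H c) (hb1 : b₁ ∈ H c) (hb2 : b₂ ∈ H c) (hA1 : A₁ ∈ H c)
    (hA2 : A₂ ∈ H c) (hA : A₂ ≠ 0) (hw1 : w₁ = w₀ ^ q ^ r + η) (hd : d₁ ∈ H c)
    (hη : d₁ * η ∈ H c) (hξ : d₁ * ξ ∈ H c) (hD : DD q θ r ∈ H c)
    (hD1 : DD q θ r * (vv q θ g Δ r).1 ∈ H c) (hD2 : DD q θ r * (vv q θ g Δ r).2 ∈ H c)
    (hl : Lim v (fun i => be q θ g Δ (i + 1) * yy q b₁ b₂ A₁ A₂ (i + 2) *
      if i + 1 < r then w₀ ^ q ^ (i + 1) else w₁ ^ q ^ (i + 1 - r)) (ξ - gam q θ g Δ 0 * x ^ q))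
    {E N m n K : ℕ} {P : L} (hE : r + 1 ≤ E) (hP : P ∈ H (N * q ^ E)) (hn : n ≤ m)
    (hm : m ≤ q ^ E) (hK : Kill q θ g Δ b₁ b₂ A₁ A₂ (U E) E (θ ^ n * P))
    (h0 : ∀ x ∈ [b₁ ^ q * (rho q θ g Δ E).1, b₂ ^ q * (rho q θ g Δ E).1,
        b₁ ^ q * (rho q θ g Δ E).2, b₂ ^ q * (rho q θ g Δ E).2],
        ∀ k < m, U E (P * x * θ ^ k) = 0)
    (hK' : N + 7 + 5 * c + 2 * c * q ^ r + n * q ^ r ≤ K) :
    ∃ a, δ * (DD q θ r * d₁) * a ∈ H K ∧ Lim v (fun j =>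
      (GG q θ g Δ b₁ b₂ A₁ A₂ (U E) E P j * (if j < r then w₀ ^ q ^ j else w₁ ^ q ^ (j - r)) /
        (θ ^ q ^ (j + E + 1) - θ) + if j < r then U E (P * (ell q θ (j + E - r) E *
          xn q θ g Δ b₁ b₂ A₁ A₂ η r (j + E - r)) / (θ ^ q ^ (j + E + 1) - θ)) else 0) *
      (θ ^ q ^ (j + 1)) ^ n) a := by
  have hP' : θ ^ n * P ∈ H ((N + 1) * q ^ E) := by
    rw [add_mul, one_mul, add_comm]; exact h.mul (h.le (h.thp n) (hn.trans hm)) hP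
  have hW : ∀ u, w₁ ^ q ^ u = w₀ ^ q ^ (r + u) + η ^ q ^ u := fun u => by
    rw [hw1, h.fr_add, pow_q_add]
  have hxn := fun u (hu : u < E) => h.xn_ht hg hΔ hb1 hb2 hA1 hA2 hd hη hD hD1 hD2 hu
  simp only [List.mem_cons, List.not_mem_nil, or_false, forall_eq_or_imp, forall_eq] at h0
  have hhigh := h.pre.term_high (h.car E) hA hK (fun k hk => h0.1 k (by omega))
    (fun k hk => h0.2.1 k (by omega)) (fun k hk => h0.2.2.1 k (by omega))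
    (fun k hk => h0.2.2.2 k (by omega))
  obtain ⟨E', rfl⟩ : ∃ E', E = E' + 1 := ⟨E - 1, by omega⟩
  set E := E' + 1 with hE'
  have l1 := (((hl.mul (ell q θ 0 E)).mul (θ ^ n * P)).map (h.car E)).shift E'
  -- low terms
  have hlow : ∀ i < E', δ * (DD q θ r * d₁) * U E (θ ^ n * P * (ell q θ 0 E *
      (be q θ g Δ (i + 1) * yy q b₁ b₂ A₁ A₂ (i + 2) *
        if i + 1 < r then w₀ ^ q ^ (i + 1) else w₁ ^ q ^ (i + 1 - r)))) ∈ H K := by
    intro i hi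
    have t1 := h.pre.term_low hA hK (i := i + 1) (by omega) (by omega) w₀
    split_ifs with h1
    · rw [t1, mul_zero]; exact zero_mem _
    obtain ⟨u, hu⟩ := Nat.exists_eq_add_of_le (not_lt.1 h1)
    rw [show i + 2 = i + 1 + 1 from rfl, show i + 1 - r = u by omega, hW, ← hu, mul_add, mul_add,
      mul_add, map_add, t1, zero_add, hu, h.pre.term_eta hA hK r (by omega)]
    refine h.le (h.U_alg (N := N + 1 + (2 + 2 + (4 * c + 2 + 2 * c * q ^ r))) ?_) (by omega)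
    have e1 : ell q θ u E = ell q θ u (r + u) * (θ - θ ^ q ^ (r + u + 1)) * ell q θ (r + u + 1) E := by
      rw [← ell_succ q θ (by omega), ell_mul' q θ (by omega) (by omega)]
    have e2 := h.mul hP' (h.mul (h.mul (h.le (h.ell_ht u (r + u)) (Nat.mul_le_mul_left 2
      (h.qle (show r + u ≤ E by omega)))) (h.ell_ht (r + u + 1) E)) (hxn u (by omega)))
    have e3 := h.br1_ne (r + u)
    refine h.le (by convert neg_mem e2 using 1; rw [e1]; field_simp; ring) (by linarith)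
  -- high terms
  have hmid : ∀ j, ∃ z, δ * (DD q θ r * d₁) * z ∈ H K ∧ (r ≤ j → z = 0) ∧
      U E (θ ^ n * P * (ell q θ 0 E * (be q θ g Δ (j + E' + 1) * yy q b₁ b₂ A₁ A₂ (j + E' + 2) *
        if j + E' + 1 < r then w₀ ^ q ^ (j + E' + 1) else w₁ ^ q ^ (j + E' + 1 - r)))) =
      (GG q θ g Δ b₁ b₂ A₁ A₂ (U E) E P j * (if j < r then w₀ ^ q ^ j else w₁ ^ q ^ (j - r)) /
        (θ ^ q ^ (j + E + 1) - θ) + if j < r then U E (P * (ell q θ (j + E - r) E *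
          xn q θ g Δ b₁ b₂ A₁ A₂ η r (j + E - r)) / (θ ^ q ^ (j + E + 1) - θ)) else 0) *
      (θ ^ q ^ (j + 1)) ^ n + z := by
    intro j
    rw [if_neg (by omega), show j + E' + 1 = j + E from rfl, show j + E' + 2 = j + E + 1 from rfl]
    rcases lt_or_ge j r with hj | hj
    · obtain ⟨u, hu⟩ := Nat.exists_eq_add_of_le (show r ≤ j + E by omega)
      have hc : θ ^ q ^ (j + E + 1) = (θ ^ q ^ (j + 1)) ^ q ^ E := by
        rw [← pow_q_add]; congr 2; ring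
      have e2 := h.mul hP (h.mul (h.ell_ht u E) (hxn u (by omega)))
      obtain ⟨z, hz, hz'⟩ := h.shift_alg (d := DD q θ r * d₁) (B := q ^ r) (y := θ ^ q ^ (j + 1))
        (x := P * (ell q θ u E * xn q θ g Δ b₁ b₂ A₁ A₂ η r u))
        (N := N + (2 + (4 * c + 2 + 2 * c * q ^ r))) (hc ▸ h.br1_ne (j + E))
        (h.le (h.thp _) (h.qle hj)) (h.le (by convert e2 using 1; ring) (by linarith)) n
        (hn.trans hm)
      refine ⟨z, h.le hz (by omega), fun h1 => absurd hj (by omega), ?_⟩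
      have t1 := hhigh j (w₀ ^ q ^ j)
      have t2 := h.pre.term_eta hA hK r (u := u) (by omega) η
      rw [← pow_q_add] at t1
      rw [← hu, mul_assoc (θ ^ n) P (ell q θ u E * _), hc, hz'] at t2
      rw [if_pos hj, if_pos hj, show j + E - r = u by omega, hW, ← hu, mul_add, mul_add, mul_add,
        map_add, t1, t2, hc]
      ring
    · refine ⟨0, by simp, fun _ => rfl, ?_⟩
      rw [if_neg (by omega), if_neg (by omega), show j + E - r = j - r + E by omega, pow_q_add,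
        hhigh]
      ring
  choose z hz1 hz2 hz3 using hmid
  have l2 := l1.sub (Lim.fin (v := v) hz2)
  refine ⟨_, ?_, by convert l2 using 2 with j; rw [hz3 j]; ring⟩
  rw [mul_sub, mul_sub, mul_sum, mul_sum]
  refine sub_mem (sub_mem ?_ (sum_mem fun i hi => hlow i (mem_range.1 hi)))
    (sum_mem fun j _ => hz1 j)
  rw [mul_sub, mul_sub, map_sub, h.pre.term_x hK (by omega), sub_zero]
  refine h.le (h.U_alg (N := N + 1 + (2 + (c + c))) ?_) (by omega)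
  have a1 := h.clear hD (x := 1) (by simpa using hD) (h.qpos E)
  have a2 := h.clear hd hξ (h.qpos E)
  have e2 := h.mul hP' (h.mul (h.ell_ht 0 E) (h.mul a1 a2))
  exact h.le (by convert e2 using 1; simp only [Nat.succ_eq_add_one, zero_add]; ring) (by linarith)

theorem core₀ (hg : g ∈ H c) (hΔ : Δ ∈ H c) (h0 : Δ ≠ 0) (hb1 : b₁ ∈ H c) (hb2 : b₂ ∈ H c)
    (hA1 : A₁ ∈ H c) (hA2 : A₂ ∈ H c) (hA : A₂ ≠ 0) (hw : w₁ ≠ 0) (hw1 : w₁ = w₀ ^ q ^ r + η)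
    (hd0 : d₁ ≠ 0) (hd : d₁ ∈ H c) (hη : d₁ * η ∈ H c) (hξ : d₁ * ξ ∈ H c) (hD : DD q θ r ∈ H c)
    (hD1 : DD q θ r * (vv q θ g Δ r).1 ∈ H c) (hD2 : DD q θ r * (vv q θ g Δ r).2 ∈ H c)
    (hl : Lim v (fun i => be q θ g Δ (i + 1) * yy q b₁ b₂ A₁ A₂ (i + 2) *
      if i + 1 < r then w₀ ^ q ^ (i + 1) else w₁ ^ q ^ (i + 1 - r)) (ξ - gam q θ g Δ 0 * x ^ q)) :
    Rel q θ g Δ b₁ b₂ A₁ A₂ H := by
  obtain ⟨dδ, hδ⟩ := ex_v_eq v h.del0
  obtain ⟨dw, hdw⟩ := ex_v_eq v hw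
  have hq := h.hq
  have hc := h.c1
  obtain ⟨S, hS⟩ : ∃ S, S = 432 * c := ⟨_, rfl⟩
  obtain ⟨ε, hε⟩ : ∃ ε, ε = 108 * (S + r + 1) + 2 := ⟨_, rfl⟩
  obtain ⟨N, hN⟩ : ∃ N, N = 120 * c + 119 := ⟨_, rfl⟩
  obtain ⟨K₂, hK₂⟩ : ∃ K₂, K₂ = dδ.natAbs + dw.natAbs := ⟨_, rfl⟩
  obtain ⟨TR, hTR⟩ : ∃ TR, TR = (S + r) * q ^ ε := ⟨_, rfl⟩
  obtain ⟨K, hK⟩ : ∃ K, K = N + 7 + 5 * c + 2 * c * q ^ r + TR * q ^ r +
    (c * (N + 6 * c + 3 + 2) + K₂) := ⟨_, rfl⟩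
  obtain ⟨K₃, hK₃⟩ : ∃ K₃, K₃ = TR + (N + 6 * c + 3) + K₂ := ⟨_, rfl⟩
  obtain ⟨B, hB⟩ : ∃ B, B = c * (K + r * q ^ (r + ε) + 1) + c * K + 2 * K₃ + 2 + K := ⟨_, rfl⟩
  obtain ⟨E, hE⟩ : ∃ E, E = 144 * (B + K₃ + 1) + ε + 2 + r := ⟨_, rfl⟩
  have hQ : E < q ^ E := Nat.lt_pow_self (by omega)
  have hSq : S < q ^ S := Nat.lt_pow_self (by omega)
  have hεq : ε + 1 < q ^ (ε + 1) := Nat.lt_pow_self (by omega)
  obtain ⟨m', hm'⟩ : ∃ m', q ^ E / 144 = m' + K₃ := ⟨q ^ E / 144 - K₃, by omega⟩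
  obtain ⟨P, hP0, hP, hKill, hz⟩ := h.pick hg hΔ hb1 hb2 hA1 hA2 (T := S + r) (ε := ε) (E := E)
    (m := m' + K₃) (by omega) (by omega) (by omega) (by omega) (by omega)
  rw [← hN] at hP
  have hD0 : DD q θ r ≠ 0 := by
    rw [← Valuation.ne_zero_iff v, h.pre.v_DD]; exact exp_ne_zero
  have hb := fun j (hj : r ≤ j) => h.tau_bound (a := j - r) hδ hdw hK₂.ge
    (show m' + K₃ ≤ q ^ E by omega) (by omega)
    (h.GG_ht hg hΔ hb1 hb2 hA1 hA2 (by omega) hP hz j)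
  have key := h.elim (r := r) (S := S) (ε := ε) (K := K) (Q := q ^ E) (m := m')
    (fun j => GG q θ g Δ b₁ b₂ A₁ A₂ (U E) E P j *
      (if j < r then w₀ ^ q ^ j else w₁ ^ q ^ (j - r)) / (θ ^ q ^ (j + E + 1) - θ) +
        if j < r then U E (P * (ell q θ (j + E - r) E *
          xn q θ g Δ b₁ b₂ A₁ A₂ η r (j + E - r)) / (θ ^ q ^ (j + E + 1) - θ)) else 0)
    (d := δ * (DD q θ r * d₁)) (mul_ne_zero h.del0 (mul_ne_zero hD0 hd0))
    (h.le (h.mul h.del (h.mul hD hd)) (by omega)) (by omega) (by omega)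
    (by
      have a1 : q ^ E ≤ 144 * m' + 144 * K₃ + 143 := by omega
      have a2 : 432 * c * m' ≤ q ^ S * m' := Nat.mul_le_mul_right _ (by omega)
      have a3 : 2 * K₃ + 2 + K + 1 ≤ m' := by omega
      have a4 := Nat.mul_le_mul_left (2 * c) a1
      have a5 := Nat.mul_le_mul_left (144 * c) a3
      have a6 : K ≤ c * K := Nat.le_mul_of_pos_left _ hc
      nlinarith)
    (fun i hi => by
      have a1 : i * q ^ ε ≤ TR := hTR ▸ Nat.mul_le_mul_right _ hi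
      have a2 := Nat.mul_le_mul_right (q ^ r) a1
      obtain ⟨a, ha, hl'⟩ := h.lims hg hΔ hb1 hb2 hA1 hA2 hA hw1 hd hη hξ hD hD1 hD2 hl
        (K := K) (by omega) hP (show i * q ^ ε ≤ m' + K₃ by omega) (by omega) (hKill i hi) hz
        (by omega)
      refine ⟨a, ha, ?_⟩
      convert hl' using 3 with j
      rw [pow_q_add q θ (j + 1) ε, ← pow_mul, mul_comm])
    (fun j hj => by
      simp only [if_neg (not_lt.2 hj), add_zero]
      exact (hb j hj).1 _ (by rw [add_comm r S]; omega))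
    (fun j hj => by
      simp only [if_neg (not_lt.2 hj), add_zero]
      refine fun hne => le_trans ?_ ((hb j hj).2 hne)
      rw [exp_le_exp, neg_le_neg_iff, Int.ofNat_le]
      exact Nat.mul_le_mul_left _ (by omega))
  refine h.rel_of_GG (E := E) (j₀ := r) hg hΔ h0 ⟨_, hb1⟩ ⟨_, hb2⟩ hP0 ⟨_, hP⟩ fun j hj => ?_
  have := key j hj
  simp only [if_neg (not_lt.2 hj), add_zero, div_eq_zero_iff, mul_eq_zero] at this
  rcases this with (h1 | h1) | h1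
  · exact h1
  · exact absurd h1 (pow_ne_zero _ hw)
  · exact absurd h1 (h.br1_ne _)

theorem int_DD (j : ℕ) : Int H (DD q θ j) := by
  induction j with
  | zero => exact h.int_one
  | succ j ih => exact h.int_mul ⟨_, h.br1 _⟩ (h.int_pow ih _)

theorem common (l : List L) (hl : ∀ x ∈ l, Int H x) : ∃ c', c ≤ c' ∧ ∀ x ∈ l, x ∈ H c' := by
  induction l with
  | nil => exact ⟨c, le_rfl, by simp⟩
  | cons a l ih =>
    obtain ⟨c', hc, hc'⟩ := ih fun x hx => hl x (List.mem_cons_of_mem _ hx)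
    obtain ⟨N, hN⟩ := hl a List.mem_cons_self
    refine ⟨c' + N, by omega, fun x hx => ?_⟩
    rcases List.mem_cons.1 hx with rfl | hx
    · exact h.le hN (by omega)
    · exact h.le (hc' x hx) (by omega)

theorem core (hg : Int H g) (hΔ : Int H Δ) (h0 : Δ ≠ 0) (hb1 : Int H b₁) (hb2 : Int H b₂)
    (hA1 : Int H A₁) (hA2 : Int H A₂) (hA : A₂ ≠ 0) (hw : w₁ ≠ 0) (hw1 : w₁ = w₀ ^ q ^ r + η)
    (hd0 : d₁ ≠ 0) (hd : Int H d₁) (hη : Int H (d₁ * η)) (hξ : Int H (d₁ * ξ))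
    (hl : Lim v (fun i => be q θ g Δ (i + 1) * yy q b₁ b₂ A₁ A₂ (i + 2) *
      if i + 1 < r then w₀ ^ q ^ (i + 1) else w₁ ^ q ^ (i + 1 - r)) (ξ - gam q θ g Δ 0 * x ^ q)) :
    Rel q θ g Δ b₁ b₂ A₁ A₂ H := by
  obtain ⟨c₁, hc₁, h1⟩ := h.common [g, Δ] (by simp [hg, hΔ])
  simp only [List.mem_cons, List.not_mem_nil, or_false, forall_eq_or_imp, forall_eq] at h1
  have h2 := (h.bigger hc₁).nn_ht h1.1 h1.2 r
  obtain ⟨c₂, hc₂, h3⟩ := h.common [g, Δ, b₁, b₂, A₁, A₂, d₁, d₁ * η, d₁ * ξ, DD q θ r,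
    DD q θ r * (vv q θ g Δ r).1, DD q θ r * (vv q θ g Δ r).2]
    (by simp [hg, hΔ, hb1, hb2, hA1, hA2, hd, hη, hξ, h.int_DD r, h.int_of h2.1, h.int_of h2.2])
  simp only [List.mem_cons, List.not_mem_nil, or_false, forall_eq_or_imp, forall_eq] at h3
  obtain ⟨a1, a2, a3, a4, a5, a6, a7, a8, a9, a10, a11, a12⟩ := h3
  exact (h.bigger hc₂).core₀ a1 a2 h0 a3 a4 a5 a6 hA hw hw1 hd0 a7 a8 a9 a10 a11 a12 hl

theorem rel_zero' (hg : Int H g) (hΔ : Int H Δ) (h0 : Δ ≠ 0) (hb1 : Int H b₁) (hb2 : Int H b₂)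
    (hA1 : Int H A₁) (hA2 : Int H A₂) (hr : Rel q θ g Δ b₁ b₂ A₁ A₂ H)
    (hG : Good q θ H (yy q b₁ b₂ A₁ A₂)) : False := by
  obtain ⟨c₁, hc₁, h1⟩ := h.common [g, Δ] (by simp [hg, hΔ])
  simp only [List.mem_cons, List.not_mem_nil, or_false, forall_eq_or_imp, forall_eq] at h1
  exact (h.bigger hc₁).rel_zero h1.1 h1.2 h0 hb1 hb2 hA1 hA2 hr hG

end Ctx

end Pool.Agent.Drin
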