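import Mathlib

/-! Drinfeld modules of rank two: sequences, Cartier operators and height filtrations. -/

namespace Pool.Agent.Drin

open Finset WithZero Polynomial

variable {F L : Type} [Field F] [Field L] [Algebra F L]

/-- A Cartier operator of level `Q` with respect to `θ`. -/
structure IsCar (v : Valuation L ℤᵐ⁰) (θ : L) (Q : ℕ) (U : L →+ L) : Prop where
  semi : ∀ k z, U (k ^ Q * z) = k * U z
  recon : ∀ z, z = ∑ n ∈ range Q, U (z * θ ^ n) ^ Q * θ ^ (Q - 1 - n)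
  cont : ∀ N : ℤ, ∃ N' : ℤ, ∀ z, v z ≤ exp N' → v (U z) ≤ exp N

/-- The standing data: Cartier operators of all levels `q ^ E` and a height filtration `H`. -/
structure Ctx (q c e D : ℕ) (v : Valuation L ℤᵐ⁰) (θ δ : L) (U : ℕ → L →+ L)
    (H : ℕ → Submodule F L) : Prop where
  hq : 3 ≤ q
  fr : ∀ x y : L, (x + y) ^ q = x ^ q + y ^ q
  root : ∀ a : F, ∃ b : F, b ^ q = a
  he : 1 ≤ e
  hec : e ≤ c
  hD : 1 ≤ D
  vth : v θ = exp (e : ℤ)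
  car : ∀ E, IsCar v θ (q ^ E) (U E)
  ind : ∀ z : ℕ → L, ∑ r ∈ range q, θ ^ r * z r ^ q = 0 → ∀ r < q, z r = 0
  mono : ∀ {N N'}, N ≤ N' → H N ≤ H N'
  mul : ∀ {N N' x y}, x ∈ H N → y ∈ H N' → x * y ∈ H (N + N')
  one : (1 : L) ∈ H 0
  th : θ ∈ H 1
  up : ∀ {N x}, x ∈ H N → v x ≤ exp ((e * N : ℕ) : ℤ)
  low : ∀ {N x}, x ∈ H N → x ≠ 0 → exp (-((c * (N + 1) : ℕ) : ℤ)) ≤ v x
  div : ∀ {N N' x y} (a : F[X]), x ∈ H N → y ∈ H N' → x = aeval θ a * y →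
    N + c < a.natDegree → x = 0
  fin : ∀ N, FiniteDimensional F (H N)
  dimlo : ∀ N, D * (N + 1) ≤ Module.finrank F (H (N + c))
  dimhi : ∀ N, Module.finrank F (H N) ≤ D * (N + c + 1)
  del0 : δ ≠ 0
  del : δ ∈ H c
  stab : ∀ E N x, x ∈ H (N * q ^ E) → δ * U E x ∈ H (N + c)

/-- `vv j = (α_j, α_{j-1} ^ q)`. -/
def vv (q : ℕ) (θ g Δ : L) : ℕ → L × L
  | 0 => (1, 0)
  | j + 1 => ((g * (vv q θ g Δ j).1 ^ q + Δ * (vv q θ g Δ j).2 ^ q) / (θ ^ q ^ (j + 1) - θ),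
      (vv q θ g Δ j).1 ^ q)

/-- `be i = β_{i+1} = α_i ^ q / (θ ^ q ^ (i+1) - θ)`. -/
def be (q : ℕ) (θ g Δ : L) (i : ℕ) : L := (vv q θ g Δ i).1 ^ q / (θ ^ q ^ (i + 1) - θ)

/-- The Carlitz factorial. -/
def DD (q : ℕ) (θ : L) : ℕ → L
  | 0 => 1
  | j + 1 => (θ ^ q ^ (j + 1) - θ) * DD q θ j ^ q

/-- `rho u = (1, 0) M_1(θ) ⋯ M_u(θ)`. -/
def rho (q : ℕ) (θ g Δ : L) : ℕ → L × L
  | 0 => (1, 0)
  | u + 1 => ((rho q θ g Δ u).1 * g ^ q ^ (u + 1) + (rho q θ g Δ u).2 * (θ - θ ^ q ^ (u + 1)),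
      (rho q θ g Δ u).1 * Δ ^ q ^ (u + 1))

/-- `ell a u = ∏_{a ≤ s < u} (θ - θ ^ q ^ (s+1))`. -/
def ell (q : ℕ) (θ : L) (a u : ℕ) : L := ∏ s ∈ Ico a u, (θ - θ ^ q ^ (s + 1))

/-- `gam s = γ_{s+1}`. -/
def gam (q : ℕ) (θ g Δ : L) (s : ℕ) : L := -(rho q θ g Δ s).1 / ell q θ 0 (s + 1)

/-- `yy i = a₁ A₁ ^ q ^ i + a₂ A₂ ^ q ^ i` with `a = b ^ q`. -/
def yy (q : ℕ) (b₁ b₂ A₁ A₂ : L) (i : ℕ) : L := b₁ ^ q * A₁ ^ q ^ i + b₂ ^ q * A₂ ^ q ^ i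

/-- The ring of elements of finite height. -/
def Int (H : ℕ → Submodule F L) (x : L) : Prop := ∃ N, x ∈ H N

/-- The non-degeneracy condition on `y_i` modulo `θ ^ q ^ i - θ`. -/
def Good (q : ℕ) (θ : L) (H : ℕ → Submodule F L) (y : ℕ → L) : Prop :=
  ∃ (C : ℕ) (good : ℕ → Prop),
    (∀ i, good i → ∃ y' B o, Int H y' ∧ B ∈ H C ∧ B ≠ 0 ∧ Int H o ∧
      y' * y i - B = (θ ^ q ^ i - θ) * o) ∧
    ∀ i, ¬ good i → good (i + 1) ∧ good (i + 2)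

/-- `x` is the limit of the sums of `t`. -/
def Lim (v : Valuation L ℤᵐ⁰) (t : ℕ → L) (x : L) : Prop :=
  ∀ N : ℤ, ∃ I₀, ∀ I, I₀ ≤ I → v (x - ∑ i ∈ range I, t i) ≤ exp N

/-- Iterates of a Cartier operator. -/
def iterU (C : L →+ L) : ℕ → L →+ L
  | 0 => AddMonoidHom.id L
  | E + 1 => (iterU C E).comp C

/-- Block `Car`: the Cartier operator of level `p ^ ν` on Laurent series. -/
def CarStmt : Prop :=
  ∀ (F : Type) [Field F] [IsAlgClosed F] (p ν : ℕ) [Fact p.Prime] [CharP F p]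
    (θ : LaurentSeries F), (∀ x, x ^ p ≠ θ) →
    ∃ C : LaurentSeries F →+ LaurentSeries F, IsCar Valued.v θ (p ^ ν) C ∧
      ∀ r < p ^ ν, C (θ ^ r) = if r = p ^ ν - 1 then 1 else 0

/-- Block `Iter`. -/
def IterStmt : Prop :=
  ∀ (L : Type) [Field L] (v : Valuation L ℤᵐ⁰) (θ : L) (q : ℕ) (C : L →+ L), 0 < q →
    (∀ x y : L, (x + y) ^ q = x ^ q + y ^ q) → IsCar v θ q C →
    ∀ E, IsCar v θ (q ^ E) (iterU C E)

/-- Block `Lat`: a height filtration containing a finite set of algebraic elements. -/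
def LatStmt : Prop :=
  ∀ (F L : Type) [Field F] [Field L] [Algebra F L] (v : Valuation L ℤᵐ⁰) (θ : L) (q e : ℕ)
    (C : L →+ L), 3 ≤ q → (∀ x y : L, (x + y) ^ q = x ^ q + y ^ q) →
    (∀ a : F, ∃ b : F, b ^ q = a) → 1 ≤ e → v θ = exp (e : ℤ) →
    (∀ a : F, v (algebraMap F L a) ≤ 1) → (∀ E, IsCar v θ (q ^ E) (iterU C E)) →
    (∀ r < q, C (θ ^ r) = if r = q - 1 then 1 else 0) →
    ∀ S : Finset L, (∀ x ∈ S, IsAlgebraic (IntermediateField.adjoin F {θ}) x) →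
    ∃ (c D : ℕ) (δ : L) (H : ℕ → Submodule F L), Ctx q c e D v θ δ (iterU C) H ∧
      ∃ d : F[X], d ≠ 0 ∧ ∀ x ∈ S, aeval θ d * x ∈ H c

/-- Block `Good`. -/
def GoodStmt : Prop :=
  ∀ (F L : Type) [Field F] [IsAlgClosed F] [Field L] [Algebra F L] (q c e D : ℕ)
    (v : Valuation L ℤᵐ⁰) (θ δ : L) (U : ℕ → L →+ L) (H : ℕ → Submodule F L),
    Ctx q c e D v θ δ U H → ∀ (α : L) (d : F[X]), d ≠ 0 → Int H (aeval θ d * α) →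
    IsAlgebraic (IntermediateField.adjoin F {θ}) α → α ^ q ^ 2 ≠ α →
    Good q θ H fun i => aeval θ d ^ q * (aeval θ d * α) ^ q ^ i -
      (aeval θ d * α) ^ q * aeval θ d ^ q ^ i

/-- Block `Zero`. -/
def ZeroStmt : Prop :=
  ∀ (F L : Type) [Field F] [Field L] [Algebra F L] (q c e D : ℕ)
    (v : Valuation L ℤᵐ⁰) (θ δ : L) (U : ℕ → L →+ L) (H : ℕ → Submodule F L),
    Ctx q c e D v θ δ U H → ∀ g Δ : L, g ∈ H c → Δ ∈ H c → Δ ≠ 0 → ∀ y : ℕ → L, Good q θ H y →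
    ∀ (C i₀ : ℕ) (κ : L), κ ≠ 0 → Int H κ →
    (∀ i, i₀ ≤ i → ∃ Z₁ Z₂ o₁ o₂, Z₁ ∈ H (C * q ^ i) ∧ Z₂ ∈ H (C * q ^ i) ∧ Int H o₁ ∧ Int H o₂ ∧
      Z₁ * (vv q θ g Δ i).1 + Z₂ * (vv q θ g Δ i).2 = 0 ∧ Z₁ = (θ ^ q ^ i - θ) * o₁ ∧
      Z₂ - κ * y i = (θ ^ q ^ i - θ) * o₂) → False

end Pool.Agent.Drin
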