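import Pool.Agent.Lib.MP_0c15f2_nt.DF.Seq

/-! Values of a rank one series: if one non-trivial combination is algebraic, all are. -/

namespace Pool.Agent.Drin

open Polynomial Finset WithZero

/-- The additive polynomials of a rank one module. -/
noncomputable def psi {M : Type} [Field M] (x c : M) (Q : ℕ) : ℕ → M[X]
  | 0 => X
  | k + 1 => C x * psi x c Q k + C c * psi x c Q k ^ Q

theorem psi_deg {M : Type} [Field M] (x : M) {c : M} (hc : c ≠ 0) {Q : ℕ} (hQ : 2 ≤ Q) (k : ℕ) :
    (psi x c Q k).natDegree = Q ^ k := by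
  induction k with
  | zero => simp [psi]
  | succ k ih =>
    have h1 : (C c * psi x c Q k ^ Q).natDegree = Q ^ (k + 1) := by
      rw [natDegree_C_mul hc, natDegree_pow, ih, pow_succ']
    rw [psi, natDegree_add_eq_right_of_natDegree_lt, h1]
    rw [h1]
    refine (natDegree_C_mul_le _ _).trans_lt ?_
    rw [ih]
    exact Nat.pow_lt_pow_right (by omega) (by omega)

theorem Lim.fsum {L : Type} [Field L] {v : Valuation L ℤᵐ⁰} (t : ℕ → ℕ → L) (x : ℕ → L)
    (h : ∀ k, Lim v (t k) (x k)) (n : ℕ) :
    Lim v (fun i => ∑ k ∈ range n, t k i) (∑ k ∈ range n, x k) := by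
  induction n with
  | zero => exact fun N => ⟨0, fun I _ => by simp⟩
  | succ n ih => simpa only [sum_range_succ] using ih.add (h n)

theorem Lim.odd {L : Type} [Field L] {v : Valuation L ℤᵐ⁰} {t : ℕ → L} {x : L}
    (h : Lim v (fun i => if Odd i then t i else 0) x) : Lim v (fun m => t (2 * m + 1)) x := by
  intro N
  obtain ⟨I₀, hI⟩ := h N
  refine ⟨I₀, fun I hI2 => ?_⟩
  have key : ∀ J, ∑ i ∈ range (2 * J), (if Odd i then t i else 0) =
      ∑ m ∈ range J, t (2 * m + 1) := by
    intro J
    induction J with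
    | zero => simp
    | succ J ih =>
      rw [show 2 * (J + 1) = 2 * J + 1 + 1 by ring, sum_range_succ, sum_range_succ, ih,
        sum_range_succ, if_pos (odd_two_mul_add_one J), if_neg (by simp), add_zero]
  rw [← key]
  exact hI _ (by omega)

theorem stepB {M L : Type} [Field M] [Field L] [Algebra M L] {v : Valuation L ℤᵐ⁰} {q e : ℕ}
    {θ : L} (hp : Pre q e v θ) (σ : M →+* M)
    (hσ : ∀ x, algebraMap M L (σ x) = algebraMap M L x ^ q ^ 2)
    (c : M) (hc : c ≠ 0) (y κ : ℕ → M) (W : ℕ → L) (hW : ∀ m, W (m + 1) = W m ^ q ^ 2)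
    (hy : ∀ m, y (m + 1) = σ (y m)) (hκ : ∀ m, c * σ (κ m) = (y (m + 1) - y 0) * κ (m + 1))
    (hs : ∀ k, ∃ E, Lim v (fun m => algebraMap M L (κ m * y m ^ k) * W m) E)
    (τ : M[X]) (hτ : τ ≠ 0) (ξ : L) (hξ : IsAlgebraic M ξ)
    (h : Lim v (fun m => algebraMap M L (κ m * τ.eval (y m)) * W m) ξ) (P : M[X]) :
    ∃ η, IsAlgebraic M η ∧ Lim v (fun m => algebraMap M L (κ m * P.eval (y m)) * W m) η := by
  choose E hE using hs
  have hQ : 2 ≤ q ^ 2 := by have := hp.hq; nlinarith
  have hrec : ∀ k, E (k + 1) = algebraMap M L (y 0) * E k + algebraMap M L c * E k ^ q ^ 2 := by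
    intro k
    have h1 := (hp.lim_pow (hE k) 2).mul (algebraMap M L c)
    have h3 := ((hE (k + 1)).sub ((hE k).mul (algebraMap M L (y 0)))).shift 1
    rw [sum_range_one] at h3
    have h4 : (fun m => algebraMap M L c * (algebraMap M L (κ m * y m ^ k) * W m) ^ q ^ 2) =
        fun n => algebraMap M L (κ (n + 1) * y (n + 1) ^ (k + 1)) * W (n + 1) -
          algebraMap M L (y 0) * (algebraMap M L (κ (n + 1) * y (n + 1) ^ k) * W (n + 1)) := by
      funext m
      have := congrArg (algebraMap M L) (hκ m)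
      rw [mul_pow, ← hσ, ← hW, map_mul σ, map_pow σ, ← hy]
      simp only [map_mul, map_sub, map_pow] at this ⊢
      linear_combination algebraMap M L (y (m + 1)) ^ k * W (m + 1) * this
    rw [h4] at h1
    have h5 := h1.unique h3
    simp only [map_mul, map_pow] at h5
    linear_combination -h5
  generalize q ^ 2 = Q at *
  have hψ : ∀ k, E k = aeval (E 0) (psi (y 0) c Q k) := by
    intro k
    induction k with
    | zero => simp [psi]
    | succ k ih => rw [hrec, psi, map_add, map_mul, map_mul, map_pow, aeval_C, aeval_C, ← ih]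
  have hP : ∀ P : M[X], Lim v (fun m => algebraMap M L (κ m * P.eval (y m)) * W m)
      (aeval (E 0) (∑ k ∈ range (P.natDegree + 1), C (P.coeff k) * psi (y 0) c Q k)) := by
    intro P
    have := Lim.fsum _ _ (fun k => (hE k).mul (algebraMap M L (P.coeff k))) (P.natDegree + 1)
    have e1 : (fun m => algebraMap M L (κ m * P.eval (y m)) * W m) = fun m =>
        ∑ k ∈ range (P.natDegree + 1),
          algebraMap M L (P.coeff k) * (algebraMap M L (κ m * y m ^ k) * W m) := by
      funext m
      rw [eval_eq_sum_range, mul_sum, map_sum, sum_mul]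
      refine sum_congr rfl fun k _ => ?_
      simp only [map_mul]; ring
    rw [e1, map_sum, sum_congr rfl fun k _ => by rw [map_mul, aeval_C, ← hψ]]
    exact this
  have h0 : IsAlgebraic M (E 0) := by
    have hd : (∑ k ∈ range (τ.natDegree + 1), C (τ.coeff k) * psi (y 0) c Q k).natDegree =
        Q ^ τ.natDegree := by
      have h1 : (C (τ.coeff τ.natDegree) * psi (y 0) c Q τ.natDegree).natDegree =
          Q ^ τ.natDegree := by
        rw [natDegree_C_mul (by simpa using hτ), psi_deg _ hc hQ]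
      have h2 : 0 < Q ^ τ.natDegree := pow_pos (by omega) _
      rw [sum_range_succ, natDegree_add_eq_right_of_natDegree_lt, h1]
      rw [h1]
      refine lt_of_le_of_lt (natDegree_sum_le_of_forall_le _ _ (n := Q ^ τ.natDegree - 1)
        fun k hk => ?_) (by omega)
      refine (natDegree_C_mul_le _ _).trans ?_
      rw [psi_deg _ hc hQ]
      have := Nat.pow_lt_pow_right (show 1 < Q by omega) (mem_range.1 hk)
      omega
    have hd0 := hd.trans_ne (pow_pos (show 0 < Q by omega) τ.natDegree).ne'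
    refine IsAlgebraic.of_aeval _ hd0 (mem_nonZeroDivisors_of_ne_zero ?_)
      ((h.unique (hP τ)) ▸ hξ)
    rw [Ne, leadingCoeff_eq_zero]
    intro h0
    exact hd0 (by rw [h0, natDegree_zero])
  refine ⟨_, ?_, hP P⟩
  rw [isAlgebraic_iff_isIntegral] at h0 ⊢
  exact adjoin_le_integralClosure h0 (aeval_mem_adjoin_singleton _ _)

end Pool.Agent.Drin
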