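import Pool.Agent.Lib.MP_0c15f2_nt.DF.EvenA
import Pool.Agent.Lib.MP_0c15f2_nt.DF.EvenB

/-! The even block: a relation along odd indices makes the even half of the exponential
algebraic. -/

namespace Pool.Agent.Drin

open Polynomial Finset WithZero

theorem eval_map_hom' {M L : Type} [Field M] [Field L] (f : M →+* L) (P : M[X]) (y : M) :
    (P.map f).eval (f y) = f (P.eval y) := by
  rw [eval_map, eval₂_hom]

theorem vv_map {M L : Type} [Field M] [Field L] (f : M →+* L) (q : ℕ) (θ g Δ : M) (j : ℕ) :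
    f (vv q θ g Δ j).1 = (vv q (f θ) (f g) (f Δ) j).1 ∧
      f (vv q θ g Δ j).2 = (vv q (f θ) (f g) (f Δ) j).2 := by
  induction j with
  | zero => simp [vv]
  | succ j ih => simp [vv, ih.1, ih.2]

theorem Pre.mg {M : Type} [Field M] {v : Valuation M ℤᵐ⁰} {q e : ℕ} {θ : M} (h : Pre q e v θ)
    (P : M[X]) : ∃ C : ℕ, ∀ i, v (P.eval (θ ^ q ^ (i + 1))) ≤ exp (C * (q : ℤ) ^ i) := by
  have hq : ∀ i, (1 : ℤ) ≤ (q : ℤ) ^ i := fun i => by exact_mod_cast h.qpos i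
  induction P using Polynomial.induction_on' with
  | add P R hP hR =>
    obtain ⟨a, ha⟩ := hP
    obtain ⟨b, hb⟩ := hR
    refine ⟨a + b, fun i => ?_⟩
    rw [eval_add]
    have := hq i
    exact Valuation.map_add_le _ (v_mono (ha i) (by push_cast; nlinarith))
      (v_mono (hb i) (by push_cast; nlinarith))
  | monomial n a =>
    obtain ⟨d, hd⟩ := ex_v_le v a
    refine ⟨d + n * e * q, fun i => ?_⟩
    rw [eval_monomial]
    refine v_mono (v_mul_le hd (v_pow_le (h.v_thp _).le n)) ?_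
    have := hq i
    push_cast
    rw [pow_succ]
    nlinarith

theorem even_core {F M : Type} [Field F] [Field M] [Algebra M (LaurentSeries F)] {q e : ℕ}
    (θ g Δ : M) (hp : Pre q e Valued.v (algebraMap M (LaurentSeries F) θ)) (hg : g ≠ 0)
    (hΔ : Δ ≠ 0) (s t : M[X]) (i₀ : ℕ) (hs : s.eval θ ≠ 0) (ht : t.eval θ = 0)
    (hrel : ∀ i, i₀ ≤ i → Odd i → pair q θ g Δ s t i = 0) (w ξ : LaurentSeries F)
    (hl : Lim Valued.v (fun m => algebraMap M _ (be q θ g Δ (2 * m + 1)) * w ^ q ^ (2 * m + 1)) ξ)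
    (hξ : IsAlgebraic M ξ) : ∃ η x : LaurentSeries F, IsAlgebraic M η ∧ w = η + x ^ q ∧
      Lim Valued.v (fun m => algebraMap M _ (vv q θ g Δ (2 * m)).1 ^ q * w ^ q ^ (2 * m)) η := by
  set f := algebraMap M (LaurentSeries F) with hf
  have hM : Pre q e (Valued.v.comap f) θ :=
    ⟨hp.hq, fun x y => f.injective (by simp only [map_add, map_pow, hp.fr]), hp.he, hp.vth⟩
  obtain ⟨σ, hσ⟩ := exists_fr hM.q0 hM.fr 2
  have hy : ∀ m, θ ^ q ^ (2 * (m + 1) + 1 + 1) = σ (θ ^ q ^ (2 * m + 1 + 1)) := fun m => by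
    rw [hσ, ← pow_mul, ← pow_add]; rfl
  have e2 : ∀ m, (vv q θ g Δ (2 * (m + 1) + 1)).2 ^ q = (vv q θ g Δ (2 * m + 1 + 1)).1 ^ q ^ 2 :=
    fun m => by
      have := hM.vv_rec2 g Δ (2 * m + 1 + 1) 1
      rwa [pow_one] at this
  have e3 : ∀ x : M, σ (x ^ q) = x ^ q ^ 3 := fun x => by
    rw [hσ, ← pow_mul, ← pow_succ']
  obtain ⟨a, b, s', τ, c, κ, hτ, hc, hκ, hA, hB, hr⟩ := DrEven.stepA σ θ (θ ^ q) (g ^ q)
    (g ^ q ^ 2) (Δ ^ q) (Δ ^ q ^ 2)
    (by rw [hσ]; simpa [sub_eq_zero] using hM.brq_ne (show 1 < 2 by norm_num))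
    (pow_ne_zero _ hg) (pow_ne_zero _ hΔ) (pow_ne_zero _ hΔ)
    (fun m => θ ^ q ^ (2 * m + 1 + 1)) (fun m => (vv q θ g Δ (2 * m + 1)).1 ^ q)
    (fun m => (vv q θ g Δ (2 * m + 1)).2 ^ q) hy
    (fun m n hmn => by
      rcases lt_trichotomy m n with h | h | h
      · exact absurd (sub_eq_zero.2 hmn.symm) (hM.brq_ne (by omega))
      · exact h
      · exact absurd (sub_eq_zero.2 hmn) (hM.brq_ne (by omega)))
    (fun m => by
      have h1 := hM.vv_rec g Δ (2 * m + 1 + 1) 1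
      rw [hM.vv_rec2, pow_one] at h1
      rw [e2, e3]
      exact h1)
    (fun m => by
      rw [e2, e3, e3, hσ]
      exact hM.vv_rec g Δ (2 * m + 1) 2)
    (fun m => (hM.vv_ne g hΔ _).imp (pow_ne_zero _) (pow_ne_zero _)) s t hs ht i₀
    (fun m hm => hrel (2 * m + 1) (by omega) (odd_two_mul_add_one m))
  have hq : ∀ i, (1 : ℤ) ≤ (q : ℤ) ^ i := fun i => by exact_mod_cast hp.qpos i
  obtain ⟨d, hd⟩ := ex_v_le Valued.v w
  have hw : ∀ i, Valued.v (w ^ q ^ i) ≤ exp (d * (q : ℤ) ^ i) := fun i =>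
    v_mono (v_pow_le hd _) (by push_cast; rw [mul_comm])
  have sd : ∀ (P : M[X]) (n : ℤ), ∃ I, ∀ m, I ≤ m →
      Valued.v (f (P.eval (θ ^ q ^ (2 * m + 1 + 1)) * (vv q θ g Δ (2 * m + 1)).1 ^ q) *
        w ^ q ^ (2 * m + 1)) ≤ exp n ∧
      Valued.v (f (P.eval (θ ^ q ^ (2 * m + 1 + 1)) * (vv q θ g Δ (2 * m + 1)).2 ^ q) *
        w ^ q ^ (2 * m + 1)) ≤ exp n := by
    intro P n
    obtain ⟨C, hC⟩ := hM.mg P
    obtain ⟨I, hI⟩ := hM.vv_decay g Δ (C + d) (-|n|)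
    refine ⟨I, fun m hm => ?_⟩
    obtain ⟨h1, h2⟩ := hI (2 * m + 1) (by omega)
    have h3 := hq (2 * m + 1)
    have h4 : (1 : ℤ) ≤ q := by simpa using hq 1
    have h5 := abs_nonneg n
    have h6 := neg_abs_le n
    have h7 : (C : ℤ) * (q : ℤ) ^ (2 * m + 1) + q * (-|n| - (C + d) * (q : ℤ) ^ (2 * m + 1)) +
        d * (q : ℤ) ^ (2 * m + 1) ≤ n := by
      have : 0 ≤ ((C : ℤ) + d) * (q : ℤ) ^ (2 * m + 1) := by positivity
      nlinarith
    exact ⟨v_mono (v_mul_le (v_mul_le (v := Valued.v.comap f) (hC _) (v_pow_le h1 q)) (hw _)) h7,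
      v_mono (v_mul_le (v_mul_le (v := Valued.v.comap f) (hC _) (v_pow_le h2 q)) (hw _)) h7⟩
  obtain ⟨η, hη, hL⟩ := stepB hp σ (fun x => by rw [hσ, map_pow]) c hc
    (fun m => θ ^ q ^ (2 * m + 1 + 1)) κ (fun m => w ^ q ^ (2 * m + 1))
    (fun m => by rw [← pow_mul, ← pow_add]; rfl) hy
    (fun m => by rw [hr, hσ])
    (fun k => ⟨_, lim_tsum _ fun n => by
      obtain ⟨I, hI⟩ := sd (a * X ^ k) n
      obtain ⟨J, hJ⟩ := sd (b * X ^ k) n
      refine ⟨I + J, fun m hm => ?_⟩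
      have := Valuation.map_sub_le _ (hI m (by omega)).2 (hJ m (by omega)).1
      rw [← sub_mul, ← map_sub] at this
      rw [hκ]
      convert this using 4
      simp only [eval_mul, eval_pow, eval_X]
      ring⟩)
    (-τ) (neg_ne_zero.2 hτ) ξ hξ
    (by
      convert hl using 4 with m
      rw [be, hA, eval_mul, eval_sub, eval_X, eval_C, eval_neg, eq_div_iff (hM.br1_ne _)]
      ring) s'
  simp only [← hB] at hL
  have hx0 := lim_tsum
    (fun m => f (vv q θ g Δ (2 * m + 1 + 1)).1 * w ^ q ^ (2 * m + 1)) fun n => by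
      obtain ⟨I, hI⟩ := hM.vv_decay g Δ d n
      refine ⟨I, fun m hm => v_mono (v_mul_le (hI _ (by omega)).1 (hw _)) ?_⟩
      have h3 := hq (2 * m + 1)
      have h4 : (1 : ℤ) ≤ q := by simpa using hq 1
      have : 0 ≤ (d : ℤ) * (q : ℤ) ^ (2 * m + 1) := by positivity
      rw [pow_succ _ (2 * m + 1)]
      nlinarith
  generalize ∑' m, f (vv q θ g Δ (2 * m + 1 + 1)).1 * w ^ q ^ (2 * m + 1) = x at hx0
  have hx := hp.lim_pow hx0 2
  have h1 := hL.shift 1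
  simp only [e2, sum_range_one] at h1
  have h2 : Lim Valued.v (fun m => f ((vv q θ g Δ (2 * m + 1 + 1)).1 ^ q ^ 2) *
      w ^ q ^ (2 * (m + 1) + 1)) (x ^ q ^ 2) := by
    convert hx using 2 with m
    rw [mul_pow, map_pow, ← pow_mul, ← pow_add]; rfl
  have h3 := h1.unique h2
  have h4 : η = (w + x ^ q) ^ q := by
    rw [hp.fr, ← pow_mul, ← sq, ← h3]
    simp [vv]
  refine ⟨w + x ^ q, -x, IsAlgebraic.of_pow (Nat.pos_of_ne_zero hp.q0) (h4 ▸ hη), ?_, ?_⟩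
  · have := hp.fr_neg 1 x
    rw [pow_one] at this
    rw [this]; ring
  · have h5 : Lim Valued.v (fun m => f (vv q θ g Δ (2 * (m + 1))).1 ^ q * w ^ q ^ (2 * (m + 1)))
        (x ^ q) := by
      have := hp.lim_pow hx0 1
      simp only [pow_one] at this
      convert this using 2 with m
      rw [mul_pow, ← pow_mul w, ← pow_succ]; rfl
    have h6 := Lim.unshift (t := fun m => f (vv q θ g Δ (2 * m)).1 ^ q * w ^ q ^ (2 * m)) h5
    simpa [vv] using h6

theorem exists_closure {F L : Type} [Field F] [Field L] [Algebra F L] (θ : L) :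
    ∃ (M : Type) (_ : Field M) (_ : Algebra M L), (∃ y, algebraMap M L y = θ) ∧
      (∀ x, IsAlgebraic (IntermediateField.adjoin F {θ}) x → ∃ y, algebraMap M L y = x) ∧
      ∀ x : L, IsAlgebraic M x ↔ IsAlgebraic (IntermediateField.adjoin F {θ}) x := by
  set K := IntermediateField.adjoin F {θ}
  have hm : ∀ x, IsAlgebraic K x → ∃ y : algebraicClosure K L, algebraMap _ L y = x :=
    fun x hx => ⟨⟨x, mem_algebraicClosure_iff.2 hx⟩, rfl⟩
  exact ⟨algebraicClosure K L, inferInstance, inferInstance, hm θ (isAlgebraic_algebraMap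
    (⟨θ, IntermediateField.mem_adjoin_simple_self F θ⟩ : K)), hm,
    fun x => ⟨fun h => h.restrictScalars K, fun h => h.tower_top _⟩⟩

theorem Lim.of_even {L : Type} [Field L] {v : Valuation L ℤᵐ⁰} {t : ℕ → L} {x : L}
    (h : Lim v (fun m => t (2 * m)) x) : Lim v (fun i => if Even i then t i else 0) x := by
  intro N
  obtain ⟨I₀, hI⟩ := h N
  refine ⟨2 * I₀, fun I hI2 => ?_⟩
  have key : ∀ J, ∑ i ∈ range J, (if Even i then t i else 0) =
      ∑ m ∈ range ((J + 1) / 2), t (2 * m) := by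
    intro J
    induction J with
    | zero => simp
    | succ J ih =>
      rw [sum_range_succ, ih]
      rcases Nat.even_or_odd' J with ⟨k, rfl | rfl⟩
      · rw [if_pos (even_two_mul k), show (2 * k + 1) / 2 = k by omega,
          show (2 * k + 1 + 1) / 2 = k + 1 by omega, sum_range_succ]
      · rw [if_neg (by simp), add_zero, show (2 * k + 1 + 1) / 2 = k + 1 by omega,
          show (2 * k + 1 + 1 + 1) / 2 = k + 1 by omega]
  rw [key]
  exact hI _ (by omega)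

theorem even'' (F : Type) [Field F] (p ν : ℕ) [Fact p.Prime] [CharP F p] (hq : 3 ≤ p ^ ν)
    (e : ℕ) (θ g Δ w ξ : LaurentSeries F) (he : 1 ≤ e) (hv : Valued.v θ = exp (e : ℤ))
    (hg : IsAlgebraic (IntermediateField.adjoin F {θ}) g)
    (hΔ : IsAlgebraic (IntermediateField.adjoin F {θ}) Δ) (hg0 : g ≠ 0) (hΔ0 : Δ ≠ 0)
    (s t : (LaurentSeries F)[X]) (i₀ : ℕ)
    (hs : ∀ n, IsAlgebraic (IntermediateField.adjoin F {θ}) (s.coeff n))
    (ht : ∀ n, IsAlgebraic (IntermediateField.adjoin F {θ}) (t.coeff n))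
    (hs0 : s.eval θ ≠ 0) (ht0 : t.eval θ = 0)
    (hrel : ∀ i, i₀ ≤ i → Odd i → pair (p ^ ν) θ g Δ s t i = 0)
    (hl : Lim Valued.v (fun i => if Odd i then be (p ^ ν) θ g Δ i * w ^ (p ^ ν) ^ i else 0) ξ)
    (hξ : IsAlgebraic (IntermediateField.adjoin F {θ}) ξ) :
    ∃ η x : LaurentSeries F, IsAlgebraic (IntermediateField.adjoin F {θ}) η ∧ w = η + x ^ p ^ ν ∧
      Lim Valued.v (fun i => if Even i then (vv (p ^ ν) θ g Δ i).1 ^ p ^ ν * w ^ (p ^ ν) ^ i
        else 0) η := by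
  have : CharP (LaurentSeries F) p :=
    charP_of_injective_algebraMap (algebraMap F (LaurentSeries F)).injective p
  obtain ⟨M, _, _, ⟨θ', hθ'⟩, hm, ha⟩ := exists_closure (F := F) θ
  obtain ⟨g', rfl⟩ := hm g hg
  obtain ⟨Δ', rfl⟩ := hm Δ hΔ
  obtain ⟨s', rfl⟩ := (mem_lifts s).1 ((lifts_iff_coeff_lifts s).2 fun n => hm _ (hs n))
  obtain ⟨t', rfl⟩ := (mem_lifts t).1 ((lifts_iff_coeff_lifts t).2 fun n => hm _ (ht n))
  rw [← ha] at hξ
  simp only [← ha]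
  subst hθ'
  have hp : Pre (p ^ ν) e Valued.v (algebraMap M (LaurentSeries F) θ') :=
    ⟨hq, fun x y => add_pow_char_pow x y p ν, he, hv⟩
  rw [eval_map_hom'] at hs0 ht0
  obtain ⟨η, x, h1, h2, h3⟩ := even_core θ' g' Δ' hp ((_root_.map_ne_zero _).1 hg0) ((_root_.map_ne_zero _).1 hΔ0)
    s' t' i₀ ((_root_.map_ne_zero _).1 hs0) ((_root_.map_eq_zero _).1 ht0)
    (fun i hi ho => by
      have := hrel i hi ho
      rw [pair, ← map_pow, eval_map_hom', eval_map_hom',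
        ← (vv_map _ _ _ _ _ _).1, ← (vv_map _ _ _ _ _ _).2] at this
      apply (algebraMap M (LaurentSeries F)).injective
      simpa only [pair, map_add, map_mul, map_pow, map_zero] using this)
    w ξ (by
      convert hl.odd using 3 with m
      rw [be, be, ← (vv_map _ _ _ _ _ _).1]
      simp only [map_div₀, map_pow, map_sub]) hξ
  refine ⟨η, x, h1, h2, Lim.of_even ?_⟩
  simpa only [(vv_map _ _ _ _ _ _).1] using h3

theorem even' (F : Type) [Field F] (p ν : ℕ) [Fact p.Prime] [CharP F p] (hq : 3 ≤ p ^ ν)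
    (e : ℕ) (θ g Δ w ξ : LaurentSeries F) (he : 1 ≤ e) (hv : Valued.v θ = exp (e : ℤ))
    (hg : IsAlgebraic (IntermediateField.adjoin F {θ}) g)
    (hΔ : IsAlgebraic (IntermediateField.adjoin F {θ}) Δ) (hg0 : g ≠ 0) (hΔ0 : Δ ≠ 0)
    (s t : (LaurentSeries F)[X]) (i₀ : ℕ)
    (hs : ∀ n, IsAlgebraic (IntermediateField.adjoin F {θ}) (s.coeff n))
    (ht : ∀ n, IsAlgebraic (IntermediateField.adjoin F {θ}) (t.coeff n))
    (hs0 : s.eval θ ≠ 0) (ht0 : t.eval θ = 0)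
    (hrel : ∀ i, i₀ ≤ i → Odd i → pair (p ^ ν) θ g Δ s t i = 0)
    (hl : Lim Valued.v (fun i => if Odd i then be (p ^ ν) θ g Δ i * w ^ (p ^ ν) ^ i else 0) ξ)
    (hξ : IsAlgebraic (IntermediateField.adjoin F {θ}) ξ) :
    ∃ η : LaurentSeries F, IsAlgebraic (IntermediateField.adjoin F {θ}) η ∧
      Lim Valued.v (fun i => if Even i then (vv (p ^ ν) θ g Δ i).1 ^ p ^ ν * w ^ (p ^ ν) ^ i
        else 0) η := by
  obtain ⟨η, -, h1, -, h2⟩ :=
    even'' F p ν hq e θ g Δ w ξ he hv hg hΔ hg0 hΔ0 s t i₀ hs ht hs0 ht0 hrel hl hξ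
  exact ⟨η, h1, h2⟩

theorem even : EvenStmt := by
  intro F _ _ p ν _ _ hq e θ g Δ w ξ he hv hg hΔ hg0 hΔ0 s t i₀ hs ht hs0 ht0 hrel hl hξ
  obtain ⟨η, x, h1, h2, -⟩ :=
    even'' F p ν hq e θ g Δ w ξ he hv hg hΔ hg0 hΔ0 s t i₀ hs ht hs0 ht0 hrel hl hξ
  exact ⟨η, x, h1, h2⟩

end Pool.Agent.Drin
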