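import Mathlib

set_option autoImplicit false

/-! Rank two recursion along even indices: a polynomial relation that holds for large indices
comes from a rank one sub-object and holds for all indices. -/

namespace Pool.Agent.DrEven

open Polynomial

variable {M : Type*} [Field M]

theorem eval_map_hom (σ : M →+* M) (P : M[X]) (y : M) : (P.map σ).eval (σ y) = σ (P.eval y) := by
  rw [eval_map, eval₂_hom]

/-- The functional equation of a coprime relation. -/
theorem funeq (σ : M →+* M) (θ x1 g1 g2 D1 D2 : M) (y A B : ℕ → M)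
    (hy : ∀ m, y (m + 1) = σ (y m)) (hinj : Function.Injective y)
    (hA : ∀ m, (y (m + 1) - x1) * A (m + 1) = g1 * B (m + 1) + D1 * σ (A m))
    (hB : ∀ m, (y (m + 1) - σ θ) * B (m + 1) = g2 * σ (A m) + D2 * σ (B m))
    (hne : ∀ m, A m ≠ 0 ∨ B m ≠ 0) (s t : M[X]) (m0 : ℕ)
    (hrel : ∀ m, m0 ≤ m → s.eval (y m) * A m + t.eval (y m) * B m = 0) :
    s * (C g1 * (C D2 * s.map σ - C g2 * t.map σ) - C D1 * (X - C (σ θ)) * t.map σ) +
      t * ((X - C x1) * (C D2 * s.map σ - C g2 * t.map σ)) = 0 := by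
  apply eq_zero_of_infinite_isRoot
  have hi : Function.Injective fun m => y (m + m0 + 1) := fun a b h => by
    have := hinj h
    omega
  refine Set.infinite_of_injective_forall_mem hi fun m => ?_
  have h1 := hrel (m + m0 + 1) (by omega)
  have h2 := congrArg σ (hrel (m + m0) (by omega))
  rw [map_add, map_mul, map_mul, map_zero, ← eval_map_hom σ s, ← eval_map_hom σ t, ← hy] at h2
  have h3 := hA (m + m0)
  have h4 := hB (m + m0)
  simp only [Set.mem_ofPred_eq, IsRoot, eval_add, eval_mul, eval_sub, eval_C, eval_X]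
  generalize y (m + m0 + 1) = z at *
  generalize s.eval z = s0 at *
  generalize t.eval z = t0 at *
  generalize (s.map σ).eval z = s2 at *
  generalize (t.map σ).eval z = t2 at *
  have h5 : (s0 * (g1 * g2 + D1 * (z - σ θ)) + t0 * (z - x1) * g2) * σ (A (m + m0)) +
      (s0 * g1 * D2 + t0 * (z - x1) * D2) * σ (B (m + m0)) = 0 := by
    linear_combination (z - x1) * (z - σ θ) * h1 - s0 * (z - σ θ) * h3 -
      (s0 * g1 + t0 * (z - x1)) * h4
  rcases hne (m + m0) with h | h
  · apply mul_left_cancel₀ ((map_ne_zero σ).2 h)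
    linear_combination (s0 * g1 * D2 + t0 * (z - x1) * D2) * h2 - t2 * h5
  · apply mul_left_cancel₀ ((map_ne_zero σ).2 h)
    linear_combination s2 * h5 -
      (s0 * (g1 * g2 + D1 * (z - σ θ)) + t0 * (z - x1) * g2) * h2

/-- The multiplier of the functional equation is `c (X - x1)`. -/
theorem mult (σ : M →+* M) (θ x1 g1 g2 D1 D2 : M) (hx : σ θ ≠ x1) (hg : g1 ≠ 0) (h1 : D1 ≠ 0)
    (h2 : D2 ≠ 0) (s t a b : M[X]) (hab : a * s + b * t = 1) (hs : s.eval θ ≠ 0)
    (ht : t.eval θ = 0)
    (h : s * (C g1 * (C D2 * s.map σ - C g2 * t.map σ) - C D1 * (X - C (σ θ)) * t.map σ) +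
      t * ((X - C x1) * (C D2 * s.map σ - C g2 * t.map σ)) = 0) :
    t ≠ 0 ∧ ∃ c : M, c ≠ 0 ∧ C D2 * s.map σ - C g2 * t.map σ = C c * s ∧
      C D1 * (X - C (σ θ)) * t.map σ = C c * (C g1 * s + (X - C x1) * t) := by
  have hab2 : a.map σ * s.map σ + b.map σ * t.map σ = 1 := by
    rw [← Polynomial.map_mul, ← Polynomial.map_mul, ← Polynomial.map_add, hab, Polynomial.map_one]
  have hs2 : (s.map σ).eval (σ θ) ≠ 0 := by rw [eval_map_hom]; exact (map_ne_zero σ).2 hs
  have ht2 : (t.map σ).eval (σ θ) = 0 := by rw [eval_map_hom, ht, map_zero]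
  have ds : (s.map σ).natDegree = s.natDegree := natDegree_map σ
  have dt : (t.map σ).natDegree = t.natDegree := natDegree_map σ
  have t2z : t ≠ 0 → t.map σ ≠ 0 := fun h => Polynomial.map_ne_zero h
  have t2z' : t = 0 → t.map σ = 0 := fun h => by rw [h, Polynomial.map_zero]
  generalize s.map σ = s2 at *
  generalize t.map σ = t2 at *
  generalize σ θ = x2 at *
  obtain ⟨n, hn⟩ : ∃ n, n = C D2 * s2 - C g2 * t2 := ⟨_, rfl⟩
  rw [← hn] at h ⊢
  obtain ⟨μ, hμ⟩ : ∃ μ, μ = a * ((X - C x1) * n) - b * (C g1 * n - C D1 * (X - C x2) * t2) :=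
    ⟨_, rfl⟩
  have e2 : (X - C x1) * n = μ * s := by
    rw [hμ]; linear_combination (-((X - C x1) * n)) * hab + b * h
  have e1 : C D1 * (X - C x2) * t2 = C g1 * n + μ * t := by
    rw [hμ]; linear_combination (C g1 * n - C D1 * (X - C x2) * t2) * hab - a * h
  have hn2 : n.eval x2 ≠ 0 := by
    rw [hn]; simp only [eval_sub, eval_mul, eval_C, ht2, mul_zero, sub_zero]
    exact mul_ne_zero h2 hs2
  have hn0 : n ≠ 0 := fun h => hn2 (by rw [h, eval_zero])
  have hs0 : s ≠ 0 := fun h => hs (by rw [h, eval_zero])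
  have hμ2 : μ.eval x2 ≠ 0 := by
    intro h0
    have := congrArg (eval x2) e2
    simp only [eval_mul, eval_sub, eval_X, eval_C, h0, zero_mul] at this
    exact mul_ne_zero (sub_ne_zero.2 hx) hn2 this
  have hμ0 : μ ≠ 0 := fun h => hμ2 (by rw [h, eval_zero])
  have ht0 : t ≠ 0 := by
    intro h0
    rw [t2z' h0, h0, mul_zero, mul_zero, add_zero] at e1
    exact mul_ne_zero (C_ne_zero.2 hg) hn0 e1.symm
  have d2 : 1 + n.natDegree = μ.natDegree + s.natDegree := by
    have := congrArg natDegree e2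
    rwa [natDegree_mul (X_sub_C_ne_zero _) hn0, natDegree_mul hμ0 hs0, natDegree_X_sub_C] at this
  have dl : (C D1 * (X - C x2) * t2).natDegree = 1 + t.natDegree := by
    rw [natDegree_mul (mul_ne_zero (C_ne_zero.2 h1) (X_sub_C_ne_zero _)) (t2z ht0),
      natDegree_C_mul h1, natDegree_X_sub_C, dt]
  have dm : (μ * t).natDegree = μ.natDegree + t.natDegree := natDegree_mul hμ0 ht0
  have dg : (C g1 * n).natDegree = n.natDegree := natDegree_C_mul hg
  have d1 : 1 + t.natDegree ≤ max n.natDegree (μ.natDegree + t.natDegree) := by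
    rw [← dl, e1, ← dm, ← dg]; exact natDegree_add_le _ _
  have d1' : μ.natDegree + t.natDegree ≤ max (1 + t.natDegree) n.natDegree := by
    rw [← dm, ← dl, ← dg, show μ * t = C D1 * (X - C x2) * t2 - C g1 * n by rw [e1]; ring]
    exact natDegree_sub_le _ _
  have dn : n.natDegree ≤ max s.natDegree t.natDegree := by
    rw [hn]
    refine (natDegree_sub_le _ _).trans (max_le_max ?_ ?_)
    · rw [← ds]; exact natDegree_C_mul_le _ _
    · rw [← dt]; exact natDegree_C_mul_le _ _
  have dn' : s.natDegree ≤ max n.natDegree t.natDegree := by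
    rw [← ds, ← natDegree_C_mul h2, show C D2 * s2 = n + C g2 * t2 by rw [hn]; ring]
    refine (natDegree_add_le _ _).trans (max_le_max le_rfl ?_)
    rw [← dt]; exact natDegree_C_mul_le _ _
  have dμ : μ.natDegree = 1 := by omega
  obtain ⟨c, hc, d, hcd⟩ := natDegree_eq_one.1 dμ
  have hr : μ.eval (-d / c) = 0 := by
    rw [← hcd]; simp only [eval_add, eval_mul, eval_C, eval_X]; field_simp; ring
  have hy : -d / c = x1 := by
    by_contra hne
    generalize -d / c = z at hr hne
    have z2 : z ≠ x2 := fun h => hμ2 (h ▸ hr)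
    have a2 := congrArg (eval z) e2
    have a1 := congrArg (eval z) e1
    have a3 := congrArg (eval z) hn
    have a4 := congrArg (eval z) hab2
    simp only [eval_add, eval_mul, eval_sub, eval_X, eval_C, hr, zero_mul, add_zero,
      eval_one] at a1 a2 a3 a4
    have b1 : n.eval z = 0 := (mul_eq_zero.1 a2).resolve_left (sub_ne_zero.2 hne)
    rw [b1, mul_zero] at a1
    have b2 : t2.eval z = 0 :=
      (mul_eq_zero.1 a1).resolve_left (mul_ne_zero h1 (sub_ne_zero.2 z2))
    rw [b1, b2, mul_zero, sub_zero] at a3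
    have b3 : s2.eval z = 0 := (mul_eq_zero.1 a3.symm).resolve_left h2
    rw [b2, b3, mul_zero, mul_zero, add_zero] at a4
    exact zero_ne_one a4
  have hμc : μ = C c * (X - C x1) := by
    have : d = -(c * x1) := by rw [← hy]; field_simp
    rw [← hcd, this, C_neg, C_mul]; ring
  have e3 : n = C c * s := by
    apply mul_left_cancel₀ (X_sub_C_ne_zero x1)
    rw [e2, hμc]; ring
  refine ⟨ht0, c, hc, e3, ?_⟩
  rw [e1, e3, hμc]; ring

/-- The relation holds for all indices and the proportionality factors satisfy a rank one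
recursion. -/
theorem stepA (σ : M →+* M) (θ x1 g1 g2 D1 D2 : M) (hx : σ θ ≠ x1) (hg : g1 ≠ 0) (h1 : D1 ≠ 0)
    (h2 : D2 ≠ 0) (y A B : ℕ → M)
    (hy : ∀ m, y (m + 1) = σ (y m)) (hinj : Function.Injective y)
    (hA : ∀ m, (y (m + 1) - x1) * A (m + 1) = g1 * B (m + 1) + D1 * σ (A m))
    (hB : ∀ m, (y (m + 1) - σ θ) * B (m + 1) = g2 * σ (A m) + D2 * σ (B m))
    (hne : ∀ m, A m ≠ 0 ∨ B m ≠ 0) (s t : M[X]) (hs : s.eval θ ≠ 0) (ht : t.eval θ = 0) (m0 : ℕ)
    (hrel : ∀ m, m0 ≤ m → s.eval (y m) * A m + t.eval (y m) * B m = 0) :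
    ∃ (a b s' τ : M[X]) (c : M) (κ : ℕ → M), τ ≠ 0 ∧ c ≠ 0 ∧
      (∀ m, κ m = a.eval (y m) * B m - b.eval (y m) * A m) ∧
      (∀ m, A m = -(κ m * ((X - C θ) * τ).eval (y m))) ∧ (∀ m, B m = κ m * s'.eval (y m)) ∧
      ∀ m, c * σ (κ m) = (y (m + 1) - σ θ) * κ (m + 1) := by
  classical
  obtain ⟨s', t', es, et, hu⟩ := extract_gcd s t
  obtain ⟨a, b, hab⟩ := (gcd_isUnit_iff s' t').1 hu
  generalize gcd s t = d at es et
  have hd : d.eval θ ≠ 0 := fun h => hs (by rw [es, eval_mul, h, zero_mul])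
  have hd0 : d ≠ 0 := fun h => hd (by rw [h, eval_zero])
  have hs' : s'.eval θ ≠ 0 := fun h => hs (by rw [es, eval_mul, h, mul_zero])
  have ht' : t'.eval θ = 0 := by
    rw [et, eval_mul] at ht
    exact (mul_eq_zero.1 ht).resolve_left hd
  have hfin : (y ⁻¹' {z | d.IsRoot z}).Finite := (finite_setOfPred_isRoot hd0).preimage hinj.injOn
  obtain ⟨m1, hm1⟩ := hfin.bddAbove
  have hrel' : ∀ m, max m0 (m1 + 1) ≤ m → s'.eval (y m) * A m + t'.eval (y m) * B m = 0 := by
    intro m hm
    have h0 : d.eval (y m) ≠ 0 := fun h => by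
      have := hm1 (show m ∈ y ⁻¹' {z | d.IsRoot z} from h)
      omega
    apply mul_left_cancel₀ h0
    have := hrel m (by omega)
    rw [es, et, eval_mul, eval_mul] at this
    linear_combination this
  obtain ⟨ht0, c, hc, e1, e2⟩ := mult σ θ x1 g1 g2 D1 D2 hx hg h1 h2 s' t' a b hab hs' ht'
    (funeq σ θ x1 g1 g2 D1 D2 y A B hy hinj hA hB hne s' t' _ hrel')
  obtain ⟨τ, hτ⟩ := dvd_iff_isRoot.2 ht'
  have par : ∀ m, s'.eval (y m) * A m + t'.eval (y m) * B m = 0 →
      A m = -((a.eval (y m) * B m - b.eval (y m) * A m) * t'.eval (y m)) ∧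
      B m = (a.eval (y m) * B m - b.eval (y m) * A m) * s'.eval (y m) := by
    intro m h
    have := congrArg (eval (y m)) hab
    simp only [eval_add, eval_mul, eval_one] at this
    constructor
    · linear_combination a.eval (y m) * h - A m * this
    · linear_combination b.eval (y m) * h - B m * this
  have down : ∀ m, s'.eval (y (m + 1)) * A (m + 1) + t'.eval (y (m + 1)) * B (m + 1) = 0 →
      s'.eval (y m) * A m + t'.eval (y m) * B m = 0 ∧
      c * σ (a.eval (y m) * B m - b.eval (y m) * A m) = (y (m + 1) - σ θ) *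
        (a.eval (y (m + 1)) * B (m + 1) - b.eval (y (m + 1)) * A (m + 1)) := by
    intro m h
    obtain ⟨p1, p2⟩ := par _ h
    have f1 := congrArg (eval (y (m + 1))) e1
    have f2 := congrArg (eval (y (m + 1))) e2
    have f3 := congrArg σ (congrArg (eval (y m)) hab)
    have f4 := hA m
    have f5 := hB m
    simp only [eval_add, eval_mul, eval_sub, eval_X, eval_C, eval_one, map_add, map_mul,
      map_one] at f1 f2 f3
    rw [hy, eval_map_hom, eval_map_hom, ← hy] at f1
    rw [hy, eval_map_hom, ← hy] at f2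
    generalize a.eval (y (m + 1)) * B (m + 1) - b.eval (y (m + 1)) * A (m + 1) = k at *
    rw [p1, p2] at f4
    rw [p2] at f5
    have u : c * σ (A m) = -(k * (y (m + 1) - σ θ) * σ (t'.eval (y m))) := by
      apply mul_left_cancel₀ h1
      linear_combination (-c) * f4 + k * f2
    have v : c * σ (B m) = k * (y (m + 1) - σ θ) * σ (s'.eval (y m)) := by
      apply mul_left_cancel₀ h2
      linear_combination (-c) * f5 - g2 * u - k * (y (m + 1) - σ θ) * f1
    constructor
    · apply σ.injective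
      apply mul_left_cancel₀ hc
      simp only [map_add, map_mul, map_zero]
      linear_combination σ (s'.eval (y m)) * u + σ (t'.eval (y m)) * v
    · simp only [map_sub, map_mul]
      linear_combination σ (a.eval (y m)) * v - σ (b.eval (y m)) * u +
        k * (y (m + 1) - σ θ) * f3
  have all : ∀ m, s'.eval (y m) * A m + t'.eval (y m) * B m = 0 := by
    have : ∀ k m, max m0 (m1 + 1) ≤ m + k → s'.eval (y m) * A m + t'.eval (y m) * B m = 0 := by
      intro k
      induction k with
      | zero => exact fun m hm => hrel' m hm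
      | succ k ih => exact fun m hm => (down m (ih (m + 1) (by omega))).1
    exact fun m => this (max m0 (m1 + 1)) m (by omega)
  refine ⟨a, b, s', τ, c, fun m => a.eval (y m) * B m - b.eval (y m) * A m, ?_, hc,
    fun _ => rfl, fun m => ?_, fun m => (par m (all m)).2, fun m => (down m (all _)).2⟩
  · rintro rfl
    exact ht0 (by rw [hτ, mul_zero])
  · rw [← hτ]; exact (par m (all m)).1

end Pool.Agent.DrEven
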