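import Pool.Agent.Lib.MP_0c15f2_nt.DF.FinB
import Pool.Agent.Lib.MP_0c15f2_nt.DF.Boot
import Pool.Agent.Lib.MP_0c15f2_nt.DF.Core

/-! The final assembly. -/

namespace Pool.Agent.Drin

open Polynomial Finset WithZero IntermediateField

theorem fin_of (hc : CoreStmt) (hz : RelZeroStmt) (F : Type) [Field F] [IsAlgClosed F] (p ν : ℕ)
    [Fact p.Prime] [CharP F p] (hq : 3 ≤ p ^ ν) (θ g Δ α w ξ₁ : LaurentSeries F)
    (hθ : θ.order < 0) (hg : IsSeparable (adjoin F {θ}) g) (hΔ : IsSeparable (adjoin F {θ}) Δ)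
    (hα : IsSeparable (adjoin F {θ}) α) (h0 : Δ ≠ 0) (hα1 : α ^ p ^ ν ≠ α)
    (hα2 : g = 0 → α ^ (p ^ ν) ^ 2 ≠ α) (hw : w ≠ 0)
    (hl : Lim Valued.v (fun i => be (p ^ ν) θ g Δ i * w ^ (p ^ ν) ^ i) ξ₁)
    (hξ : IsAlgebraic (adjoin F {θ}) ξ₁) :
    (¬ Lim Valued.v (fun i => (vv (p ^ ν) θ g Δ i).1 ^ p ^ ν *
      (α ^ p ^ ν * w) ^ (p ^ ν) ^ i) 0) ∧
    ∀ ξ₂, Lim Valued.v (fun i => be (p ^ ν) θ g Δ i * (α ^ p ^ ν * w) ^ (p ^ ν) ^ i) ξ₂ →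
      ¬ IsAlgebraic (adjoin F {θ}) ξ₂ := by
  have := charL (F := F) p
  have hp : 0 < p := (Fact.out : p.Prime).pos
  obtain ⟨k, e, t, rfl, ht, he, hv, hs⟩ := bootB F p θ hθ
  have hP : 0 < p ^ k := pow_pos hp k
  have ag := hg.isIntegral.isAlgebraic
  have aΔ := hΔ.isIntegral.isAlgebraic
  have aα := hα.isIntegral.isAlgebraic
  obtain ⟨g, rfl⟩ := hs g hg
  obtain ⟨Δ, rfl⟩ := hs Δ hΔ
  obtain ⟨α, rfl⟩ := hs α hα
  clear hs hg hΔ hα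
  have hg := alg_of_pow hP (alg_root ag)
  have hΔ := alg_of_pow hP (alg_root aΔ)
  have hα := alg_of_pow hP (alg_root aα)
  replace hξ := alg_root hξ
  have hx := ctx_of hq ht he hv
  have hν : 1 ≤ ν := Nat.pos_of_ne_zero (by rintro rfl; simp at hq)
  let φ := iterateFrobenius (LaurentSeries F) p k
  have hφ : ∀ x, x ^ p ^ k = φ x := fun x => rfl
  have hr : (p ^ ν) ^ (k + 1) = p ^ k * p ^ (ν * (k + 1) - k) := by
    rw [← pow_mul, ← pow_add, Nat.add_sub_cancel']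
    nlinarith
  have pw : ∀ x : LaurentSeries F, (x ^ p ^ k) ^ p ^ ν = x ^ p ^ (k + ν) := fun x => by
    rw [← pow_mul, ← pow_add]
  have ebe : ∀ i, be (p ^ ν) (t ^ p ^ k) (g ^ p ^ k) (Δ ^ p ^ k) i =
      be (p ^ ν) t g Δ i ^ p ^ k := fun i => be_map φ _ _ _ _ i
  have evv : ∀ i, (vv (p ^ ν) (t ^ p ^ k) (g ^ p ^ k) (Δ ^ p ^ k) i).1 ^ p ^ ν =
      (vv (p ^ ν) t g Δ i).1 ^ p ^ (k + ν) := fun i => by
    rw [← pw]; exact congrArg (· ^ p ^ ν) (vv_map φ _ _ _ _ i).1.symm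
  have h0' : Δ ≠ 0 := fun h => h0 (by rw [h, zero_pow hP.ne'])
  have hα1' : α ^ p ^ ν ≠ α := fun h => hα1 (by rw [pow_right_comm, h])
  have hα0 : α ≠ 0 := fun h => hα1' (by rw [h, zero_pow (by omega)])
  have w1 : ∀ η u : LaurentSeries F, w = η + u ^ p ^ k → w ^ p ^ (ν * (k + 1) - k) =
      u ^ (p ^ ν) ^ (k + 1) + η ^ p ^ (ν * (k + 1) - k) := fun η u h => by
    rw [h, add_pow_char_pow, hr, pow_mul, add_comm]
  simp only [ebe] at hl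
  have hB : ∀ η u : LaurentSeries F, IsAlgebraic (adjoin F {t}) η → w = η + u ^ p ^ (k + ν) →
      False := by
    intro η u hη hu
    rw [← pw, pow_right_comm] at hu
    obtain ⟨ξ₀, h1, h2⟩ := desc p _ rfl hr (fun i => (vv_alg _ hg hΔ i).2) hη hξ hu hl
    have h3 := h2.shift 1
    refine caseB hc hz hx (x := u) hg hΔ (hη.pow _) h1 h0' (pow_ne_zero _ hw) (w1 _ _ hu) ?_
    convert h3 using 2
    have : gam (p ^ ν) t g Δ 0 = be (p ^ ν) t g Δ 0 := by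
      rw [gam, neg_div, ← div_neg]
      simp [rho, ell, be, vv]
    simp [this]
  refine ⟨fun h => ?_, fun ξ₂ h h2 => ?_⟩
  · simp only [evv] at h
    obtain ⟨η, u, h1, h2⟩ := boot p (adjoin F {t}) rfl hν (k + ν) (by simp [vv])
      (fun i => (vv_alg _ hg hΔ i).1) h isAlgebraic_zero
    rw [pw] at h2
    refine hB (η * (α ^ p ^ (k + ν))⁻¹) (u / α) (h1.mul (hα.pow _).inv) ?_
    rw [div_pow, ← div_eq_mul_inv, ← add_div, ← h2, mul_div_cancel_left₀ _ (pow_ne_zero _ hα0)]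
  · simp only [ebe] at h
    replace h2 := alg_root h2
    have hp1 : Pre (p ^ ν) e Valued.v t := ⟨hq, fun x y => add_pow_char_pow x y p ν, he, hv⟩
    obtain ⟨η, u, h3, h4⟩ := boot p (adjoin F {t}) rfl hν k
      (by simpa [be, vv] using hp1.br1_ne 0) (fun i => (vv_alg _ hg hΔ i).2) hl hξ
    have h5 := h.sub (hl.mul ((α ^ p ^ k) ^ p ^ ν))
    have a5 := h2.sub (((hα.pow (p ^ k)).pow (p ^ ν)).mul hξ)
    generalize ξ₂ - (α ^ p ^ k) ^ p ^ ν * ξ₁ = ξ at h5 a5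
    have h6 : Lim Valued.v (fun i => (be (p ^ ν) t g Δ i *
        (α ^ (p ^ ν) ^ (i + 1) - α ^ p ^ ν)) ^ p ^ k * w ^ (p ^ ν) ^ i) ξ := by
      convert h5 using 2 with i
      rw [mul_pow, sub_pow_char_pow, mul_pow, pow_succ' (p ^ ν), pow_mul α]
      ring
    obtain ⟨ξ₀, h7, h8⟩ := desc p _ rfl hr
      (fun i => (vv_alg _ hg hΔ i).2.mul ((hα.pow _).sub (hα.pow _))) h3 a5 h4 h6
    obtain ⟨b1, s, s', i₀, b2, b3, b4, b5, b6⟩ := caseA hc hz hx hg hΔ hα (h3.pow _) h7 h0' hα1'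
      (pow_ne_zero _ hw) (w1 _ _ h4) (by simpa using h8.shift 1)
    have b7 : ∀ m, α ^ (p ^ ν) ^ (2 * m) = α := fun m => by
      induction m with
      | zero => simp
      | succ m ih => rw [mul_add, pow_add, pow_mul α, ih, b1]
    have b8 : (α - α ^ p ^ ν) ^ p ^ k ≠ 0 := pow_ne_zero _ (sub_ne_zero.2 hα1'.symm)
    obtain ⟨ζ, c1, c2⟩ := even' F p ν hq (e * p ^ k) (t ^ p ^ k) (g ^ p ^ k) (Δ ^ p ^ k) w
      (((α - α ^ p ^ ν) ^ p ^ k)⁻¹ * ξ) (Nat.mul_pos he hP)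
      (by rw [v_pow_eq hv]; push_cast; rw [mul_comm]) ag aΔ
      (fun h => hα2 h (by rw [pow_right_comm, b1])) h0 (s.map φ) (s'.map φ) i₀
      (fun n => by rw [coeff_map, ← hφ]; exact alg_unroot hP ((b2 n).pow _))
      (fun n => by rw [coeff_map, ← hφ]; exact alg_unroot hP ((b3 n).pow _))
      (by rw [hφ, eval_map_hom']; exact (_root_.map_ne_zero _).2 b4)
      (by rw [hφ, eval_map_hom', b5, map_zero])
      (fun i hi ho => by rw [hφ, hφ, hφ, pair_map, b6 i hi ho, map_zero])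
      (by
        convert h6.mul ((α - α ^ p ^ ν) ^ p ^ k)⁻¹ using 2 with i
        rcases Nat.even_or_odd' i with ⟨m, rfl | rfl⟩
        · rw [if_neg (by simp), pow_succ, pow_mul α, b7, sub_self, mul_zero, zero_pow hP.ne',
            zero_mul, mul_zero]
        · rw [if_pos (odd_two_mul_add_one m), show 2 * m + 1 + 1 = 2 * (m + 1) by ring, b7, ebe,
            mul_pow]
          field_simp)
      (alg_unroot hP (((hα.sub (hα.pow _)).pow _).inv.mul a5))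
    obtain ⟨η', u', c3, c4⟩ := boot p (adjoin F {t}) rfl hν (k + ν)
      (μ := fun i => if Even i then (vv (p ^ ν) t g Δ i).1 else 0) (w := w) (by simp [vv])
      (fun i => by
        split_ifs
        exacts [(vv_alg _ hg hΔ i).1, isAlgebraic_zero])
      (by
        convert c2 using 2 with i
        split_ifs
        · rw [evv]
        · rw [zero_pow (pow_pos hp _).ne', zero_mul]) (alg_root c1)
    exact hB _ _ c3 c4

theorem fin (F : Type) [Field F] [IsAlgClosed F] (p ν : ℕ)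
    [Fact p.Prime] [CharP F p] (hq : 3 ≤ p ^ ν) (θ g Δ α w ξ₁ : LaurentSeries F)
    (hθ : θ.order < 0) (hg : IsSeparable (adjoin F {θ}) g) (hΔ : IsSeparable (adjoin F {θ}) Δ)
    (hα : IsSeparable (adjoin F {θ}) α) (h0 : Δ ≠ 0) (hα1 : α ^ p ^ ν ≠ α)
    (hα2 : g = 0 → α ^ (p ^ ν) ^ 2 ≠ α) (hw : w ≠ 0)
    (hl : Lim Valued.v (fun i => be (p ^ ν) θ g Δ i * w ^ (p ^ ν) ^ i) ξ₁)
    (hξ : IsAlgebraic (adjoin F {θ}) ξ₁) :
    (¬ Lim Valued.v (fun i => (vv (p ^ ν) θ g Δ i).1 ^ p ^ ν *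
      (α ^ p ^ ν * w) ^ (p ^ ν) ^ i) 0) ∧
    ∀ ξ₂, Lim Valued.v (fun i => be (p ^ ν) θ g Δ i * (α ^ p ^ ν * w) ^ (p ^ ν) ^ i) ξ₂ →
      ¬ IsAlgebraic (adjoin F {θ}) ξ₂ :=
  fin_of
    (fun _ _ _ _ _ _ _ _ _ _ _ _ _ _ h _ _ _ _ _ _ _ _ _ _ _ _ _ a1 a2 a3 a4 a5 a6 a7 a8 a9 a10
      a11 a12 a13 a14 a15 => h.core a1 a2 a3 a4 a5 a6 a7 a8 a9 a10 a11 a12 a13 a14 a15)
    (fun _ _ _ _ _ _ _ _ _ _ _ _ _ _ h _ _ _ _ _ _ a1 a2 a3 a4 a5 a6 a7 a8 a9 =>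
      h.rel_zero' a1 a2 a3 a4 a5 a6 a7 a8 a9)
    F p ν hq θ g Δ α w ξ₁ hθ hg hΔ hα h0 hα1 hα2 hw hl hξ

end Pool.Agent.Drin
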