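import Pool.Agent.Lib.MP_0c15f2_nt.DF.Base

/-! Block `Lat`: the height filtration of a finite extension of `F(θ)`. -/

namespace Pool.Agent.Drin

open Finset WithZero Polynomial

namespace LatL

variable {F L : Type} [Field F] [Field L] [Algebra F L] {ι : Type} [Fintype ι]

/-- The span of the `θ ^ n * ω k` with `n + w k ≤ N`. -/
def Sp (F : Type) [Field F] [Algebra F L] (θ : L) (ω : ι → L) (w : ι → ℕ) (N : ℕ) :
    Submodule F L :=
  Submodule.span F {x | ∃ n k, n + w k ≤ N ∧ x = θ ^ n * ω k}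

variable {θ : L} {ω : ι → L} {w : ι → ℕ}

omit [Fintype ι] in
lemma sp_gen {n N : ℕ} {k : ι} (h : n + w k ≤ N) : θ ^ n * ω k ∈ Sp F θ ω w N :=
  Submodule.subset_span ⟨n, k, h, rfl⟩

omit [Fintype ι] in
lemma sp_gen0 (k : ι) : ω k ∈ Sp F θ ω w (w k) := by
  simpa using sp_gen (F := F) (θ := θ) (ω := ω) (zero_add (w k)).le

omit [Fintype ι] in
lemma sp_le {w' : ι → ℕ} {N N' : ℕ} (h : ∀ n k, n + w k ≤ N → n + w' k ≤ N') :
    Sp F θ ω w N ≤ Sp F θ ω w' N' :=
  Submodule.span_mono fun _ ⟨n, k, h1, h2⟩ => ⟨n, k, h n k h1, h2⟩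

omit [Fintype ι] in
lemma sp_ind {N : ℕ} {p : L → Prop} {x : L} (hx : x ∈ Sp F θ ω w N)
    (h1 : ∀ n k, n + w k ≤ N → p (θ ^ n * ω k)) (h0 : p 0) (ha : ∀ a b, p a → p b → p (a + b))
    (hs : ∀ (c : F) a, p a → p (c • a)) : p x :=
  Submodule.span_induction (p := fun x _ => p x) (by rintro _ ⟨n, k, h, rfl⟩; exact h1 n k h) h0
    (fun a b _ _ => ha a b) (fun c a _ => hs c a) hx

omit [Fintype ι] in
lemma sp_th {N : ℕ} {x : L} (hx : x ∈ Sp F θ ω w N) (a : ℕ) : θ ^ a * x ∈ Sp F θ ω w (N + a) := by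
  refine sp_ind (p := fun x => θ ^ a * x ∈ Sp F θ ω w (N + a)) hx (fun n k h => ?_) (by simp)
    (fun x y h1 h2 => by rw [mul_add]; exact add_mem h1 h2)
    fun c x h => by rw [mul_smul_comm]; exact Submodule.smul_mem _ _ h
  rw [← mul_assoc, ← pow_add]
  exact sp_gen (by omega)

omit [Fintype ι] in
lemma sp_poly {N m : ℕ} {x : L} (hx : x ∈ Sp F θ ω w N) {P : F[X]} (hP : P.natDegree ≤ m) :
    aeval θ P * x ∈ Sp F θ ω w (N + m) := by
  rw [aeval_eq_sum_range, sum_mul]
  refine sum_mem fun i hi => ?_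
  rw [smul_mul_assoc]
  have := mem_range.1 hi
  exact Submodule.smul_mem _ _ (sp_le (fun n k h => by omega) (sp_th hx i))

lemma sp_co {N : ℕ} {x : L} (hx : x ∈ Sp F θ ω w N) :
    ∃ P : ι → F[X], (∀ k, (P k).natDegree ≤ N) ∧ x = ∑ k, aeval θ (P k) * ω k := by
  classical
  refine sp_ind (p := fun x => ∃ P : ι → F[X], (∀ k, (P k).natDegree ≤ N) ∧
    x = ∑ k, aeval θ (P k) * ω k) hx (fun n k h => ⟨Pi.single k (X ^ n), fun l => ?_, ?_⟩)
    ⟨0, by simp, by simp⟩ ?_ ?_
  · by_cases hl : l = k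
    · subst hl; simp; omega
    · simp [hl]
  · rw [sum_eq_single k] <;> simp +contextual
  · rintro _ _ ⟨P, hP, rfl⟩ ⟨Q, hQ, rfl⟩
    exact ⟨P + Q, fun k => (natDegree_add_le _ _).trans (max_le (hP k) (hQ k)), by
      simp [add_mul, sum_add_distrib]⟩
  · rintro c _ ⟨P, hP, rfl⟩
    exact ⟨c • P, fun k => (natDegree_smul_le _ _).trans (hP k), by simp [smul_sum]⟩

lemma sp_of {N : ℕ} {P : ι → F[X]} (hP : ∀ k, (P k).natDegree ≤ N) :
    ∑ k, aeval θ (P k) * ω k ∈ Sp F θ ω 0 N :=
  sum_mem fun k _ => by simpa using sp_poly (sp_gen0 (w := 0) k) (hP k)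

lemma sp_ex (P : ι → F[X]) : ∃ N, ∑ k, aeval θ (P k) * ω k ∈ Sp F θ ω 0 N := by
  obtain ⟨N, hN⟩ := Finite.exists_le fun k => (P k).natDegree
  exact ⟨N, sp_of hN⟩

/-- Independence over `F[θ]`. -/
def Ind (F : Type) [Field F] [Algebra F L] (θ : L) (ω : ι → L) : Prop :=
  ∀ P : ι → F[X], ∑ k, aeval θ (P k) * ω k = 0 → ∀ k, P k = 0

lemma sp_dim (N : ℕ) : FiniteDimensional F (Sp F θ ω 0 N) ∧
    Module.finrank F (Sp F θ ω 0 N) ≤ Fintype.card ι * (N + 1) ∧
    (Ind F θ ω → Module.finrank F (Sp F θ ω 0 N) = Fintype.card ι * (N + 1)) := by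
  classical
  have e : Sp F θ ω 0 N =
      Submodule.span F (Set.range fun t : ι × Fin (N + 1) => θ ^ (t.2 : ℕ) * ω t.1) := by
    unfold Sp
    congr 1
    ext x
    constructor
    · rintro ⟨n, k, h, rfl⟩
      exact ⟨(k, ⟨n, by simp at h; omega⟩), rfl⟩
    · rintro ⟨t, rfl⟩
      exact ⟨t.2, t.1, by have := t.2.2; simp; omega, rfl⟩
  rw [e]
  refine ⟨FiniteDimensional.span_of_finite F (Set.finite_range _),
    (finrank_range_le_card _).trans (by simp), fun h => ?_⟩
  rw [finrank_span_eq_card]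
  · simp
  rw [Fintype.linearIndependent_iff]
  intro g hg t
  have := h (fun k => ∑ n : Fin (N + 1), monomial n (g (k, n))) (by
    rw [← hg, Fintype.sum_prod_type]
    refine sum_congr rfl fun k _ => ?_
    simp [sum_mul, Algebra.smul_def, mul_assoc, aeval_monomial]) t.1
  have := congrArg (coeff · t.2) this
  simp only [finsetSum_coeff, coeff_monomial, coeff_zero, Fin.val_inj] at this
  simpa using this

variable {v : Valuation L ℤᵐ⁰} {e : ℕ}

lemma v_aeval (he : 1 ≤ e) (hθ : v θ = exp (e : ℤ)) (hF : ∀ a : F, v (algebraMap F L a) ≤ 1)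
    (P : F[X]) : (∀ n, P.natDegree ≤ n → v (aeval θ P) ≤ exp ((e * n : ℕ) : ℤ)) ∧
      (P ≠ 0 → 1 ≤ v (aeval θ P)) := by
  have h1 : ∀ (P : F[X]) n, P.natDegree ≤ n → v (aeval θ P) ≤ exp ((e * n : ℕ) : ℤ) := by
    intro P n hn
    rw [aeval_eq_sum_range]
    refine Valuation.map_sum_le _ fun i hi => ?_
    rw [Algebra.smul_def, map_mul, v_pow_eq hθ]
    refine (mul_le_of_le_one_left' (hF _)).trans (exp_le_exp.2 ?_)
    have := mem_range.1 hi
    push_cast
    nlinarith [show (i : ℤ) ≤ n by omega]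
  refine ⟨h1 P, fun hP => ?_⟩
  have hc : v (algebraMap F L P.leadingCoeff) = 1 := by
    refine le_antisymm (hF _) ?_
    have h := hF P.leadingCoeff⁻¹
    rw [map_inv₀, map_inv₀] at h
    have h0 : v (algebraMap F L P.leadingCoeff) ≠ 0 := by simpa using hP
    exact (inv_le_one₀ (zero_lt_iff.2 h0)).1 h
  have hl : v (aeval θ (C P.leadingCoeff * X ^ P.natDegree)) = exp ((P.natDegree * e : ℕ) : ℤ) := by
    rw [map_mul, aeval_C, map_pow, aeval_X, map_mul, hc, one_mul, v_pow_eq hθ]; simp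
  rw [← eraseLead_add_C_mul_X_pow P, map_add, Valuation.map_add_eq_of_lt_right, hl]
  · rw [← exp_zero, exp_le_exp]; positivity
  rw [hl]
  rcases eraseLead_natDegree_lt_or_eraseLead_eq_zero P with h | h
  · refine (h1 _ _ le_rfl).trans_lt (exp_lt_exp.2 ?_)
    push_cast
    nlinarith [show (P.eraseLead.natDegree : ℤ) < P.natDegree by omega, show (1 : ℤ) ≤ e by omega]
  · rw [h]; simp

lemma v_det [DecidableEq ι] (B : Matrix ι ι L) {a : ℤ} (h : ∀ i j, v (B i j) ≤ exp a) :
    v B.det ≤ exp (Fintype.card ι * a) := by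
  rw [Matrix.det_apply']
  refine Valuation.map_sum_le _ fun σ _ => ?_
  have : v (((Equiv.Perm.sign σ : ℤˣ) : ℤ) : L) = 1 := by
    rcases Int.units_eq_one_or (Equiv.Perm.sign σ) with h | h <;> simp [h]
  rw [map_mul, this, one_mul, map_prod, ← nsmul_eq_mul, exp_nsmul, ← card_univ]
  exact prod_le_pow_card _ _ _ fun i _ => h _ _

lemma low (he : 1 ≤ e) (hθ : v θ = exp (e : ℤ)) (hF : ∀ a : F, v (algebraMap F L a) ≤ 1)
    (hi : Ind F θ ω) {i0 : ι} (h1 : ω i0 = 1) {c a : ℕ} (hω : ∀ k, v (ω k) ≤ exp (c : ℤ))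
    {x : L} (hx : x ≠ 0) (h : ∀ k, x * ω k ∈ Sp F θ ω 0 a) :
    exp (-((Fintype.card ι * (e * a) + c : ℕ) : ℤ)) ≤ v x := by
  classical
  choose A hA hAx using fun k => sp_co (h k)
  set B : Matrix ι ι L := (Matrix.of A).map (aeval θ) with hB
  have hdet : (Matrix.of A).det ≠ 0 := by
    rw [Ne, ← Matrix.exists_vecMul_eq_zero_iff]
    rintro ⟨u, hu, h0⟩
    refine hu (funext (hi u ((mul_eq_zero.1 ?_).resolve_left hx)))
    have : ∀ l, ∑ k, aeval θ (u k) * aeval θ (A k l) = 0 := fun l => by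
      have := congrArg (aeval θ) (congrFun h0 l)
      simpa [Matrix.vecMul, dotProduct] using this
    calc x * ∑ k, aeval θ (u k) * ω k = ∑ k, aeval θ (u k) * (x * ω k) := by
          rw [mul_sum]; exact sum_congr rfl fun k _ => by ring
      _ = ∑ l, (∑ k, aeval θ (u k) * aeval θ (A k l)) * ω l := by
          simp_rw [hAx, mul_sum, sum_mul, mul_assoc]; exact sum_comm
      _ = 0 := by simp [this]
  have hBω : B.mulVec ω = x • ω := funext fun k => by
    simp [hB, Matrix.mulVec, dotProduct, hAx k]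
  have h2 : B.det = x * ∑ l, B.adjugate i0 l * ω l := by
    have := congrFun (Matrix.mulVec_mulVec ω B.adjugate B) i0
    rw [hBω, Matrix.adjugate_mul, Matrix.mulVec_smul, Matrix.smul_mulVec, Matrix.one_mulVec] at this
    simpa [h1, Matrix.mulVec, dotProduct] using this.symm
  have h3 : 1 ≤ v B.det := by
    have : B.det = aeval θ (Matrix.of A).det := by rw [AlgHom.map_det]; rfl
    rw [this]
    exact (v_aeval he hθ hF _).2 hdet
  have h4 : v (∑ l, B.adjugate i0 l * ω l) ≤ exp ((Fintype.card ι * (e * a) + c : ℕ) : ℤ) := by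
    refine Valuation.map_sum_le _ fun l _ => ?_
    rw [Nat.cast_add, Nat.cast_mul]
    refine v_mul_le ?_ (hω l)
    rw [Matrix.adjugate_apply]
    refine v_det _ fun i j => ?_
    rw [Matrix.updateRow_apply]
    split_ifs
    · refine le_trans ?_ (show (1 : ℤᵐ⁰) ≤ _ by rw [← exp_zero, exp_le_exp]; positivity)
      by_cases hj : j = i0 <;> simp [hj]
    · exact (v_aeval he hθ hF _).1 _ (hA i j)
  rw [h2, map_mul] at h3
  rw [exp_neg, inv_le_iff_one_le_mul₀ (zero_lt_iff.2 exp_ne_zero)]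
  exact h3.trans (mul_le_mul_right h4 _)

lemma car_poly {q : ℕ} (hq : 0 < q) {C : L →+ L} (hs : ∀ k z, C (k ^ q * z) = k * C z)
    (root : ∀ a : F, ∃ b : F, b ^ q = a)
    (hC : ∀ r < q, C (θ ^ r) = if r = q - 1 then 1 else 0) {m : ℕ} (R : F[X])
    (hR : R.natDegree < q * (m + 1)) :
    ∃ R' : F[X], R'.natDegree ≤ m ∧ C (aeval θ R) = aeval θ R' := by
  rw [aeval_eq_sum_range, map_sum]
  refine Finset.sum_induction _ (fun z => ∃ R' : F[X], R'.natDegree ≤ m ∧ z = aeval θ R') ?_
    ⟨0, by simp, by simp⟩ fun n hn => ?_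
  · rintro _ _ ⟨P, hP, rfl⟩ ⟨Q, hQ, rfl⟩
    exact ⟨P + Q, (natDegree_add_le _ _).trans (max_le hP hQ), by simp⟩
  obtain ⟨b, hb⟩ := root (R.coeff n)
  have hn' : n / q ≤ m := by
    have := mem_range.1 hn
    have : n / q < m + 1 := Nat.div_lt_of_lt_mul (by omega)
    omega
  have e1 : R.coeff n • θ ^ n = (algebraMap F L b * θ ^ (n / q)) ^ q * θ ^ (n % q) := by
    rw [mul_pow, ← map_pow, hb, ← pow_mul, mul_assoc, ← pow_add, Nat.div_add_mod', Algebra.smul_def]
  rw [e1, hs, hC _ (Nat.mod_lt _ hq)]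
  split_ifs
  · exact ⟨monomial (n / q) b, (natDegree_monomial_le _).trans hn', by simp [aeval_monomial]⟩
  · exact ⟨0, by simp, by simp⟩

lemma den {J : Type} [Fintype J] (u : J → IntermediateField.adjoin F {θ}) :
    ∃ (d : F[X]) (P : J → F[X]), aeval θ d ≠ 0 ∧ ∀ j, aeval θ d * u j = aeval θ (P j) := by
  classical
  have : ∀ j, ∃ a b : F[X], aeval θ b ≠ 0 ∧ aeval θ b * u j = aeval θ a := fun j => by
    obtain ⟨a, b, h⟩ := (IntermediateField.mem_adjoin_simple_iff F (u j : L)).1 (u j).2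
    by_cases hb : aeval θ b = 0
    · exact ⟨0, 1, by simp, by simp [h, hb]⟩
    · exact ⟨a, b, hb, by rw [h]; field_simp⟩
  choose a b hb hab using this
  refine ⟨∏ j, b j, fun j => (∏ i ∈ univ.erase j, b i) * a j, ?_, fun j => ?_⟩
  · rw [map_prod]; exact prod_ne_zero_iff.2 fun j _ => hb j
  · rw [← prod_erase_mul univ b (mem_univ j), map_mul, map_mul, mul_assoc, hab]

lemma bden {M : IntermediateField (IntermediateField.adjoin F {θ}) L}
    (b : Module.Basis ι (IntermediateField.adjoin F {θ}) M) {J : Type} [Fintype J] (x : J → M) :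
    ∃ (d : F[X]) (P : J → ι → F[X]), aeval θ d ≠ 0 ∧
      ∀ j, aeval θ d * x j = ∑ k, aeval θ (P j k) * b k := by
  obtain ⟨d, P, hd, h⟩ := den fun t : J × ι => b.repr (x t.1) t.2
  refine ⟨d, fun j k => P (j, k), hd, fun j => ?_⟩
  have := congrArg Subtype.val (b.sum_repr (x j))
  rw [← this]
  simp only [AddSubmonoidClass.coe_finsetSum, IntermediateField.coe_smul, mul_sum, ← h]
  exact sum_congr rfl fun k _ => by rw [mul_assoc]; rfl

/-- A basis of a lattice which is a ring and contains a multiple of `S`. -/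
theorem exω {q : ℕ} (tr : ∀ P : F[X], aeval θ P = 0 → P = 0)
    (fi : ∀ (ι : Type) [Fintype ι] (ω : ι → L), Ind F θ ω → Ind F θ fun k => ω k ^ q)
    (S : Finset L) (hS : ∀ x ∈ S, IsAlgebraic (IntermediateField.adjoin F {θ}) x) :
    ∃ (ι : Type) (_ : Fintype ι) (ω : ι → L) (i0 : ι), ω i0 = 1 ∧ Ind F θ ω ∧
      (∀ k l, ∃ N, ω k * ω l ∈ Sp F θ ω 0 N) ∧
      (∃ d : F[X], d ≠ 0 ∧ ∀ x ∈ S, ∃ N, aeval θ d * x ∈ Sp F θ ω 0 N) ∧
      ∃ (δ : F[X]) (P : ι → ι → F[X]), δ ≠ 0 ∧
        ∀ k, aeval θ δ * ω k = ∑ l, aeval θ (P k l) * ω l ^ q := by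
  classical
  set K := IntermediateField.adjoin F {θ} with hK
  set M := IntermediateField.adjoin K (S : Set L) with hM
  have : FiniteDimensional K M :=
    IntermediateField.finiteDimensional_adjoin fun x hx => (hS x hx).isIntegral
  have hl : LinearIndepOn K id ({1} : Set M) := LinearIndepOn.singleton one_ne_zero
  obtain ⟨ι, b, i0, hb0⟩ : ∃ (ι : Type) (b : Module.Basis ι K M) (i0 : ι), b i0 = 1 :=
    ⟨_, Module.Basis.extend hl, ⟨1, hl.subset_extend _ rfl⟩, Module.Basis.extend_apply_self hl _⟩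
  have := FiniteDimensional.fintypeBasisIndex b
  have hmem : ∀ P : F[X], aeval θ P ∈ K := fun P =>
    IntermediateField.algebra_adjoin_le_adjoin F _ (Polynomial.aeval_mem_adjoin_singleton F θ)
  obtain ⟨d, γ, hd, hγ⟩ := bden b fun t : ι × ι => b t.1 * b t.2
  let t : ι → F[X] := fun k => if k = i0 then 1 else d
  let t' : ι → F[X] := fun k => if k = i0 then d else 1
  have ht : ∀ k, aeval θ (t k) ≠ 0 := fun k => by simp only [t]; split_ifs <;> simp [hd]
  have htt : ∀ k, aeval θ (t' k) * aeval θ (t k) = aeval θ d := fun k => by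
    simp only [t, t']; split_ifs <;> simp
  let ωM : ι → M := fun k => (⟨aeval θ (t k), hmem _⟩ : K) • b k
  have hω : ∀ k, (ωM k : L) = aeval θ (t k) * b k := fun k => rfl
  have hG : ∀ P : ι → F[X], ∃ N, aeval θ d * ∑ k, aeval θ (P k) * (b k : L) ∈
      Sp F θ (fun k => (ωM k : L)) 0 N := fun P => by
    obtain ⟨N, hN⟩ := sp_ex (θ := θ) (ω := fun k => (ωM k : L)) fun k => P k * t' k
    refine ⟨N, ?_⟩
    convert hN using 1
    rw [mul_sum]
    exact sum_congr rfl fun k _ => by rw [hω, map_mul, ← htt k]; ring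
  have hind : Ind F θ fun k => (ωM k : L) := by
    intro P hP k
    have := Fintype.linearIndependent_iff.1 b.linearIndependent
      (fun k => ⟨aeval θ (P k * t k), hmem _⟩) (Subtype.ext (by
        rw [AddSubmonoidClass.coe_finsetSum, ZeroMemClass.coe_zero, ← hP]
        exact sum_congr rfl fun k _ => by beta_reduce; rw [hω, ← mul_assoc, ← map_mul]; rfl)) k
    have h2 : aeval θ (P k * t k) = 0 := congrArg Subtype.val this
    rw [map_mul] at h2
    exact tr _ ((mul_eq_zero.1 h2).resolve_right (ht k))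
  have h1 : (ωM i0 : L) = 1 := by simp [hω, t, hb0]
  have hgen : ∀ k, (ωM k : L) ∈ Sp F θ (fun k => (ωM k : L)) 0 0 := fun k =>
    sp_gen0 (ω := fun k => (ωM k : L)) (w := 0) k
  refine ⟨ι, inferInstance, fun k => ωM k, i0, h1, hind, fun k l => ?_, ?_, ?_⟩
  · beta_reduce
    by_cases hk : k = i0
    · exact ⟨0, by rw [hk, h1, one_mul]; exact hgen l⟩
    by_cases hl : l = i0
    · exact ⟨0, by rw [hl, h1, mul_one]; exact hgen k⟩
    obtain ⟨N, hN⟩ := hG (γ (k, l))
    refine ⟨N, ?_⟩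
    convert hN using 1
    rw [← hγ, hω, hω]
    simp only [t, if_neg hk, if_neg hl, IntermediateField.coe_mul]
    ring
  · obtain ⟨d', P, hd', h⟩ := bden b fun x : S =>
      (⟨x, IntermediateField.subset_adjoin K _ x.2⟩ : M)
    refine ⟨d * d', fun h0 => ?_, fun x hx => ?_⟩
    · exact mul_ne_zero hd hd' (by rw [← map_mul, h0, map_zero])
    · obtain ⟨N, hN⟩ := hG (P ⟨x, hx⟩)
      exact ⟨N, by rw [map_mul, mul_assoc]; rwa [← h] at hN⟩
  · have hli : LinearIndependent K fun k => ωM k ^ q := by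
      rw [Fintype.linearIndependent_iff]
      intro g hg k
      obtain ⟨d', P, hd', h⟩ := den g
      have h2 := fi ι _ hind P (by
        have := congrArg (fun z : M => aeval θ d' * (z : L)) hg
        simp only [AddSubmonoidClass.coe_finsetSum, ZeroMemClass.coe_zero, mul_zero,
          mul_sum] at this
        rw [← this]
        exact sum_congr rfl fun k _ => by rw [← h, mul_assoc]; rfl) k
      have h3 := h k
      rw [h2, map_zero] at h3
      exact Subtype.ext ((mul_eq_zero.1 h3).resolve_left hd')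
    have : Nonempty ι := ⟨i0⟩
    obtain ⟨δ, P, hδ, h⟩ := bden (basisOfLinearIndependentOfCardEqFinrank hli
      (Module.finrank_eq_card_basis b).symm) ωM
    exact ⟨δ, P, fun h0 => hδ (by simp [h0]), fun k => by simpa using h k⟩

end LatL

open LatL in
theorem lat : LatStmt := by
  classical
  intro F L _ _ _ v θ q e C hq fr root he hθ hF car hC S hS
  have hs : ∀ k z, C (k ^ q * z) = k * C z := fun k z => by
    simpa [iterU] using (car 1).semi k z
  have tr : ∀ P : F[X], aeval θ P = 0 → P = 0 := fun P h => by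
    by_contra hP
    have := (v_aeval he hθ hF P).2 hP
    simp [h] at this
  have cp : ∀ R : F[X], ∃ R' : F[X], C (aeval θ R) = aeval θ R' := fun R =>
    (car_poly (by omega) hs root hC (m := R.natDegree) R (by nlinarith)).imp fun _ h => h.2
  obtain ⟨ι, _, ω, i0, h1, hi, hm, ⟨d, hd, hdS⟩, δ, P, hδ, hP⟩ := exω (q := q) tr (by
    intro ι _ ω hi a ha k
    have : ∀ n, C (aeval θ (a k) * θ ^ n) = 0 := fun n => by
      choose R hR using fun l => cp (a l * X ^ n)
      have h0 := congrArg (fun z => C (z * θ ^ n)) ha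
      simp only [zero_mul, map_zero, sum_mul, map_sum] at h0
      have := hi R (by
        rw [← h0]
        refine sum_congr rfl fun l _ => ?_
        rw [← hR, mul_right_comm, mul_comm _ (ω l ^ q), hs, mul_comm]; simp) k
      simpa [this] using hR k
    refine tr _ ?_
    rw [(car 1).recon (aeval θ (a k))]
    refine sum_eq_zero fun n _ => ?_
    simp [iterU, this, show q ≠ 0 by omega]) S hS
  choose N1 hN1 using hm
  choose! N2 hN2 using hdS
  choose N3 hN3 using fun k => ex_v_le v (ω k)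
  obtain ⟨c1, hc1⟩ := Finite.exists_le fun t : ι × ι => max (N1 t.1 t.2) (P t.1 t.2).natDegree
  obtain ⟨c2, hc2⟩ := Finite.exists_le fun x : S => N2 x
  obtain ⟨c3, hc3⟩ := Finite.exists_le N3
  obtain ⟨c0, hc0⟩ : ∃ c0, c0 = c1 + c2 + c3 + δ.natDegree := ⟨_, rfl⟩
  let w : ι → ℕ := fun k => if k = i0 then 0 else c0
  have hw : ∀ k, w k ≤ c0 := fun k => by simp only [w]; split_ifs <;> omega
  have hw0 : w i0 = 0 := by simp [w]
  have HW : ∀ N, Sp F θ ω w N ≤ Sp F θ ω 0 N := fun N => sp_le fun n k h => by simp; omega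
  have WH : ∀ {N N'}, N + c0 ≤ N' → Sp F θ ω 0 N ≤ Sp F θ ω w N' := fun h =>
    sp_le fun n k h' => by have := hw k; simp at h'; omega
  have Wm : ∀ {N N'}, N ≤ N' → Sp F θ ω 0 N ≤ Sp F θ ω 0 N' := fun h =>
    sp_le fun n k h' => by omega
  have hω : ∀ k, v (ω k) ≤ exp (c0 : ℤ) := fun k => v_mono (hN3 k) (by have := hc3 k; omega)
  have one : (1 : L) ∈ Sp F θ ω w 0 := by
    have := sp_gen0 (F := F) (θ := θ) (ω := ω) (w := w) i0
    rwa [h1, hw0] at this
  have mul : ∀ {N N' x y}, x ∈ Sp F θ ω w N → y ∈ Sp F θ ω w N' →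
      x * y ∈ Sp F θ ω w (N + N') := by
    intro N N' x y hx hy
    refine sp_ind (p := fun x => x * y ∈ Sp F θ ω w (N + N')) hx (fun n k h => ?_) (by simp)
      (fun x y h1 h2 => by rw [add_mul]; exact add_mem h1 h2)
      fun c x h => by rw [smul_mul_assoc]; exact Submodule.smul_mem _ _ h
    refine sp_ind (p := fun y => θ ^ n * ω k * y ∈ Sp F θ ω w (N + N')) hy (fun n' l h' => ?_)
      (by simp) (fun x y h1 h2 => by rw [mul_add]; exact add_mem h1 h2)
      fun c x h => by rw [mul_smul_comm]; exact Submodule.smul_mem _ _ h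
    rw [mul_mul_mul_comm, ← pow_add]
    by_cases hk : k = i0
    · rw [hk, h1, one_mul]; exact sp_gen (by omega)
    by_cases hl : l = i0
    · rw [hl, h1, mul_one]; exact sp_gen (by omega)
    have a1 : N1 k l ≤ c1 := (le_max_left _ _).trans (hc1 (k, l))
    simp only [w, if_neg hk, if_neg hl] at h h'
    exact sp_le (fun _ _ _ => by omega)
      (sp_th (WH (N' := c0 + c0) (by omega) (hN1 k l)) (n + n'))
  obtain ⟨c, hc⟩ : ∃ c, c = Fintype.card ι * e * (c0 + 1) + 2 * c0 + e := ⟨_, rfl⟩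
  have hD : 1 ≤ Fintype.card ι := Fintype.card_pos_iff.2 ⟨i0⟩
  have stab : ∀ E N x, aeval θ δ * x ∈ Sp F θ ω 0 (N * q ^ E + c0) →
      aeval θ δ * iterU C E x ∈ Sp F θ ω 0 (N + c0) := by
    intro E
    induction E with
    | zero => intro N x h; simpa [iterU] using h
    | succ E ih =>
      intro N x h
      refine ih N (C x) ?_
      obtain ⟨Q, hQ, hx⟩ := sp_co h
      obtain ⟨r, rfl⟩ : ∃ r, q = r + 2 := ⟨q - 2, by omega⟩
      have e1 : aeval θ δ ^ (r + 2) * x =
          ∑ l, ω l ^ (r + 2) * aeval θ (δ ^ r * ∑ k, Q k * P k l) := by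
        calc _ = aeval θ δ ^ r * (aeval θ δ * (aeval θ δ * x)) := by ring
          _ = aeval θ δ ^ r * ∑ k, aeval θ (Q k) * (aeval θ δ * ω k) := by
            rw [hx, mul_sum univ _ (aeval θ δ)]
            congr 1
            exact sum_congr rfl fun k _ => by ring
          _ = _ := by
            simp_rw [hP, map_mul, map_sum, map_mul, map_pow, mul_sum]
            rw [sum_comm]
            exact sum_congr rfl fun l _ => sum_congr rfl fun k _ => by ring
      choose R hR hR' using fun l => car_poly (by omega) hs root hC (m := N * (r + 2) ^ E + c0)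
        (δ ^ r * ∑ k, Q k * P k l) (by
          have a1 : (∑ k, Q k * P k l).natDegree ≤ N * (r + 2) ^ (E + 1) + c0 + c0 :=
            natDegree_sum_le_of_forall_le _ _ fun k _ => natDegree_mul_le.trans (by
              have := hQ k
              have : (P k l).natDegree ≤ c1 := (le_max_right _ _).trans (hc1 (k, l))
              omega)
          have a2 : (δ ^ r).natDegree ≤ r * c0 :=
            natDegree_pow_le.trans (Nat.mul_le_mul_left _ (by omega))
          refine natDegree_mul_le.trans_lt ?_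
          rw [pow_succ] at a1
          nlinarith)
      rw [← hs, e1, map_sum]
      simp_rw [hs, hR', mul_comm (ω _)]
      exact sp_of hR
  refine ⟨c, Fintype.card ι, aeval θ δ, Sp F θ ω w,
    { hq := hq, fr := fr, root := root, he := he, hec := by omega, hD := hD, vth := hθ
      car := car, ind := ?_, mono := fun h => sp_le fun n k h' => by omega, mul := mul
      one := one, th := by simpa using sp_th one 1, up := ?_, low := ?_, div := ?_
      fin := fun N => ?_, dimlo := fun N => ?_, dimhi := fun N => ?_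
      del0 := fun h => hδ (tr _ h), del := ?_, stab := fun E N x hx => ?_ },
    d, hd, fun x hx => WH ?_ (hN2 x hx)⟩
  · intro z hz r hr
    have h0 := congrArg (fun y => C (θ ^ (q - 1 - r) * y)) hz
    simp only [mul_zero, map_zero, mul_sum, map_sum] at h0
    rw [sum_eq_single r] at h0
    · rwa [← mul_assoc, ← pow_add, mul_comm, hs, hC _ (by omega), if_pos (by omega),
        mul_one] at h0
    · intro s hs' hne
      have := mem_range.1 hs'
      rw [← mul_assoc, ← pow_add, mul_comm, hs]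
      rcases lt_or_gt_of_ne hne with h | h
      · rw [hC _ (by omega), if_neg (by omega), mul_zero]
      · rw [show q - 1 - r + s = q + (s - 1 - r) by omega, pow_add, hs, hC _ (by omega),
          if_neg (by omega), mul_zero, mul_zero]
    · intro h; exact absurd (mem_range.2 hr) h
  · intro N x hx
    refine sp_ind (p := fun x => v x ≤ exp ((e * N : ℕ) : ℤ)) hx (fun n k h => ?_) (by simp)
      (fun x y h1 h2 => Valuation.map_add_le _ h1 h2) fun c x h => by
        rw [Algebra.smul_def, map_mul]; exact (mul_le_of_le_one_left' (hF c)).trans h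
    by_cases hk : k = i0
    · rw [hk, h1, mul_one, v_pow_eq hθ, exp_le_exp]
      push_cast
      nlinarith [show (n : ℤ) ≤ N by omega]
    · simp only [w, if_neg hk] at h
      refine v_mono (v_mul_le (v_pow_eq hθ n).le (hω k)) ?_
      push_cast
      nlinarith [show (n : ℤ) + c0 ≤ N by omega, show (1 : ℤ) ≤ e by omega]
  · intro N x hx hx0
    refine le_trans (exp_le_exp.2 ?_) (low he hθ hF hi h1 hω hx0 (a := N + c0) fun k =>
      HW _ (mul hx (sp_le (fun _ _ h => h.trans (hw k)) (sp_gen0 k))))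
    rw [neg_le_neg_iff, Nat.cast_le, hc]
    nlinarith [Nat.zero_le (Fintype.card ι * e * c0 * N), Nat.zero_le (c0 * N),
      Nat.zero_le (e * N), Nat.zero_le (Fintype.card ι * e)]
  · intro N N' x y a hx hy h hN
    obtain ⟨A, hA, rfl⟩ := sp_co hx
    obtain ⟨B, hB, rfl⟩ := sp_co hy
    have := hi (fun k => A k - a * B k) (by
      simp only [map_sub, map_mul, sub_mul, sum_sub_distrib, h, mul_sum, mul_assoc, sub_self])
    refine sum_eq_zero fun k _ => ?_
    have h2 := sub_eq_zero.1 (this k)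
    by_cases hb : B k = 0
    · simp [h2, hb]
    · have h3 := hA k
      rw [h2, natDegree_mul (by rintro rfl; simp at hN) hb] at h3
      omega
  · have := (sp_dim (F := F) (θ := θ) (ω := ω) N).1
    exact Submodule.finiteDimensional_of_le (HW N)
  · have := (sp_dim (F := F) (θ := θ) (ω := ω) (N + c)).1
    have := Submodule.finiteDimensional_of_le (HW (N + c))
    rw [← (sp_dim N).2.2 hi]
    exact Submodule.finrank_mono (WH (by omega))
  · have := (sp_dim (F := F) (θ := θ) (ω := ω) N).1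
    exact (Submodule.finrank_mono (HW N)).trans ((sp_dim N).2.1.trans
      (Nat.mul_le_mul_left _ (by omega)))
  · simpa using sp_poly one (show δ.natDegree ≤ c by omega)
  · exact WH (by omega) (stab E N x (sp_poly (HW _ hx) (by omega)))
  · have := hc2 ⟨x, hx⟩
    simp only at this
    omega

end Pool.Agent.Drin
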