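import Pool.Agent.Lib.MP_0c15f2_nt.DF.IntAlg
import Pool.Agent.Lib.MP_0c15f2_nt.DF.Lat

/-! The non-degeneracy condition for the multiplier of an algebraic number. -/

namespace Pool.Agent.Drin

open Finset WithZero Polynomial

theorem span_cong {F R : Type} [Field F] [CommRing R] [Algebra F R] (t t' A u w : R) (n : ℕ)
    (g : ℕ → F[X]) (e : F[X])
    (h : ∑ b ∈ range (n + 1), aeval t' (g b) * A ^ b * aeval t' e ^ (n - b) = 0) :
    ∃ y o : R, y * (w * A - u * aeval t' e) + o * (t' - t) =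
      aeval t e ^ n * ∑ b ∈ range (n + 1), aeval t (g b) * u ^ b * w ^ (n - b) := by
  rw [← Ideal.mem_span_pair, ← Ideal.Quotient.eq_zero_iff_mem, ← Ideal.Quotient.mkₐ_eq_mk F]
  set π := Ideal.Quotient.mkₐ F (Ideal.span {w * A - u * aeval t' e, t' - t})
  have h1 : π t' = π t := by
    rw [← sub_eq_zero, ← map_sub]
    exact Ideal.Quotient.eq_zero_iff_mem.2 (Ideal.subset_span (by simp))
  have h2 : ∀ P : F[X], π (aeval t' P) = π (aeval t P) := fun P => by
    rw [← aeval_algHom_apply, ← aeval_algHom_apply, h1]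
  have h3 : π w * π A = π u * π (aeval t e) := by
    rw [← h2, ← sub_eq_zero, ← map_mul, ← map_mul, ← map_sub]
    exact Ideal.Quotient.eq_zero_iff_mem.2 (Ideal.subset_span (by simp))
  have h4 := congrArg (fun z => π w ^ n * π z) h
  simp only [map_sum, map_mul, map_pow, map_zero, mul_zero, h2, mul_sum] at h4 ⊢
  rw [← h4]
  refine sum_congr rfl fun b hb => ?_
  obtain ⟨k, rfl⟩ : ∃ k, n = b + k := ⟨n - b, by have := mem_range.1 hb; omega⟩
  rw [Nat.add_sub_cancel_left]
  have h5 := congrArg (· ^ b) h3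
  simp only [mul_pow] at h5
  linear_combination (-(π (aeval t (g b)) * π w ^ k * π (aeval t e) ^ k)) * h5

variable {F L : Type} [Field F] [Field L] [Algebra F L] {q c e D : ℕ} {v : Valuation L ℤᵐ⁰}
  {θ δ : L} {U : ℕ → L →+ L} {H : ℕ → Submodule F L}

theorem Ctx.twist (h : Ctx q c e D v θ δ U H) (i : ℕ) : ∃ φ : F →+* F, (∀ a, φ a = a ^ q ^ i) ∧
    ∀ P : F[X], aeval θ P ^ q ^ i = aeval (θ ^ q ^ i) (P.map φ) := by
  obtain ⟨φ, hφ⟩ := exists_fr (L := F) h.q0
    (fun x y => (algebraMap F L).injective (by simp only [map_add, map_pow, h.fr])) i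
  refine ⟨φ, hφ, fun P => ?_⟩
  induction P using Polynomial.induction_on' with
  | add P R hP hR => rw [map_add, h.fr_add, hP, hR, Polynomial.map_add, map_add]
  | monomial n a =>
    rw [Polynomial.map_monomial, aeval_monomial, aeval_monomial, hφ, map_pow, mul_pow, ← pow_mul,
      ← pow_mul, mul_comm n]

theorem Ctx.dec (h : Ctx q c e D v θ δ U H) (m : ℕ) (P : F[X]) (hP : P.natDegree ≤ m) :
    ∃ R : ℕ → F[X], (∀ r, (R r).natDegree ≤ m / q) ∧
      aeval θ P = ∑ r ∈ range q, θ ^ r * aeval θ (R r) ^ q := by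
  rw [aeval_eq_sum_range]
  refine Finset.sum_induction _ (fun x => ∃ R : ℕ → F[X], (∀ r, (R r).natDegree ≤ m / q) ∧
      x = ∑ r ∈ range q, θ ^ r * aeval θ (R r) ^ q) ?_ ⟨0, by simp, by simp [h.q0]⟩ ?_
  · rintro _ _ ⟨R, h1, rfl⟩ ⟨R', h2, rfl⟩
    refine ⟨R + R', fun r => (natDegree_add_le _ _).trans (max_le (h1 r) (h2 r)), ?_⟩
    rw [← sum_add_distrib]
    exact sum_congr rfl fun r _ => by rw [Pi.add_apply, map_add, h.fr, mul_add]
  · intro k hk
    have hk' : k ≤ m := by have := mem_range.1 hk; omega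
    obtain ⟨b, hb⟩ := h.root (P.coeff k)
    refine ⟨fun r => if r = k % q then monomial (k / q) b else 0, fun r => ?_, ?_⟩
    · beta_reduce
      split_ifs
      · exact (natDegree_monomial_le _).trans (Nat.div_le_div_right hk')
      · simp
    · beta_reduce
      rw [sum_eq_single (k % q)]
      · rw [if_pos rfl, aeval_monomial, mul_pow, ← map_pow, hb, ← pow_mul, mul_left_comm,
          ← pow_add, Nat.mod_add_div', Algebra.smul_def]
      · intro r _ hr
        rw [if_neg hr, map_zero, zero_pow h.q0, mul_zero]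
      · intro hn
        exact absurd (mem_range.2 (Nat.mod_lt _ (Nat.pos_of_ne_zero h.q0))) hn

theorem Ctx.cong (h : Ctx q c e D v θ δ U H) (α : L) (d : F[X]) (hd : d ≠ 0)
    (ha : Int H (aeval θ d * α)) (n m : ℕ) (f : ℕ → F[X]) (hf : ∀ b, (f b).natDegree ≤ m)
    (hr : ∑ b ∈ range (n + 1), aeval θ (f b) * α ^ b = 0) :
    ∃ C : ℕ, ∀ i (φ : F →+* F), (∀ P : F[X], aeval θ P ^ q ^ i = aeval (θ ^ q ^ i) (P.map φ)) →
      ∑ b ∈ range (n + 1), aeval θ ((f b).map φ) * (α ^ q) ^ b ≠ 0 →
      ∃ y' B o, Int H y' ∧ B ∈ H C ∧ B ≠ 0 ∧ Int H o ∧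
        y' * (aeval θ d ^ q * (aeval θ d * α) ^ q ^ i - (aeval θ d * α) ^ q * aeval θ d ^ q ^ i) -
          B = (θ ^ q ^ i - θ) * o := by
  let O : Subalgebra F L :=
    { h.O with
      algebraMap_mem' := fun a => ⟨0, by
        rw [Algebra.algebraMap_eq_smul_one]; exact Submodule.smul_mem _ _ h.one⟩ }
  obtain ⟨N, hN⟩ := ha
  refine ⟨n * d.natDegree + (m + n * (q * N) + n * (q * d.natDegree)), fun i φ hφ hne => ?_⟩
  let t : O := ⟨θ, h.int_th⟩
  let a : O := ⟨aeval θ d * α, N, hN⟩
  have hc : ∀ (x : O) (P : F[X]), ((aeval x P : O) : L) = aeval (x : L) P := fun x P =>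
    aeval_subalgebra_coe P O x
  have key : ∀ (z : L) (x : ℕ → L), ∑ b ∈ range (n + 1), x b * (z * α ^ q) ^ b * z ^ (n - b) =
      z ^ n * ∑ b ∈ range (n + 1), x b * (α ^ q) ^ b := by
    intro z x
    rw [mul_sum]
    refine sum_congr rfl fun b hb => ?_
    obtain ⟨k, rfl⟩ : ∃ k, n = b + k := ⟨n - b, by have := mem_range.1 hb; omega⟩
    rw [Nat.add_sub_cancel_left]; ring
  obtain ⟨y, o, hy⟩ := span_cong t (t ^ q ^ i) (a ^ q ^ i) (a ^ q) (aeval t d ^ q) n
    (fun b => (f b).map φ) (d.map φ) (by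
      apply Subtype.ext
      have h1 := congrArg (fun z => (aeval θ d ^ n * z) ^ q ^ i) hr
      simp only [mul_zero, zero_pow (h.qpos i).ne', mul_sum, h.fr_sum] at h1
      push_cast [hc]
      rw [← h1]
      refine sum_congr rfl fun b hb => ?_
      obtain ⟨k, rfl⟩ : ∃ k, n = b + k := ⟨n - b, by have := mem_range.1 hb; omega⟩
      rw [Nat.add_sub_cancel_left, ← hφ, ← hφ]
      show _ * ((aeval θ d * α) ^ q ^ i) ^ b * _ = _
      ring)
  have hy' := congrArg (fun z : O => (z : L)) hy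
  push_cast [hc] at hy'
  rw [← hφ] at hy'
  simp only [t, a] at hy'
  refine ⟨y, aeval θ (d.map φ) ^ n * ∑ b ∈ range (n + 1), aeval θ ((f b).map φ) *
    ((aeval θ d * α) ^ q) ^ b * (aeval θ d ^ q) ^ (n - b), -o, y.2, ?_, ?_, h.int_neg o.2,
    by rw [← hy']; ring⟩
  · refine h.mul (h.le (h.pow (h.aeval_mem _) n) (by rw [natDegree_map]))
      (sum_mem fun b hb => ?_)
    have hb' : b ≤ n := by have := mem_range.1 hb; omega
    refine h.mul (h.mul (h.le (h.aeval_mem _) (by rw [natDegree_map]; exact hf b))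
      (h.le (h.pow (h.pow hN q) b) (Nat.mul_le_mul_right _ hb')))
      (h.le (h.pow (h.pow (h.aeval_mem d) q) _) (Nat.mul_le_mul_right _ (Nat.sub_le _ _)))
  · refine mul_ne_zero (pow_ne_zero _ (h.aeval_ne (Polynomial.map_ne_zero hd))) ?_
    rw [mul_pow, key]
    exact mul_ne_zero (pow_ne_zero _ (pow_ne_zero _ (h.aeval_ne hd))) hne

theorem good : GoodStmt := by
  classical
  intro F L _ _ _ _ q c e D v θ δ U H h α d hd ha halg hα
  choose φ hφ hφ' using h.twist
  by_cases hF : ∃ a, algebraMap F L a = α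
  · obtain ⟨a, rfl⟩ := hF
    obtain ⟨C₀, hC⟩ := h.cong _ d hd ha 1 0 (fun b => if b = 0 then -C a else 1)
      (fun b => by split_ifs <;> simp) (by simp [sum_range_succ])
    refine ⟨C₀, fun i => algebraMap F L a ^ q ^ i ≠ algebraMap F L a ^ q,
      fun i hi => hC i (φ i) (hφ' i) ?_, fun i hi => ?_⟩
    · simpa [sum_range_succ, hφ, neg_add_eq_zero] using hi
    · generalize algebraMap F L a = α at hi hα
      have inj : ∀ x y : L, x ^ q = y ^ q → x = y := fun x y hxy => by
        have := h.fr_sub 1 x y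
        rw [pow_one, hxy, sub_self] at this
        exact sub_eq_zero.1 (pow_eq_zero_iff h.q0 |>.1 this)
      rw [not_not] at hi
      constructor
      · intro h1
        rw [pow_succ, pow_mul, hi] at h1
        exact hα (by rw [sq, pow_mul, h1, inj _ _ h1])
      · intro h1
        rw [pow_add, pow_mul, hi, ← pow_mul, mul_comm, pow_mul] at h1
        exact hα (inj _ _ h1)
  · obtain ⟨P, hP0, hP⟩ := halg
    set n := P.natDegree
    obtain ⟨d', f, hd', hf⟩ := LatL.den (F := F) (θ := θ) fun b : Fin (n + 1) => P.coeff b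
    have hex : ∃ m, ∃ f : ℕ → F[X], (∀ b, (f b).natDegree ≤ m) ∧ (∃ b ≤ n, f b ≠ 0) ∧
        ∑ b ∈ range (n + 1), aeval θ (f b) * α ^ b = 0 := by
      obtain ⟨m, hm⟩ := Finite.exists_le fun b => (f b).natDegree
      refine ⟨m, fun b => if hb : b < n + 1 then f ⟨b, hb⟩ else 0, fun b => ?_,
        ⟨n, le_rfl, ?_⟩, ?_⟩
      · beta_reduce
        split_ifs
        · exact hm _
        · simp
      · beta_reduce
        rw [dif_pos n.lt_succ_self]
        intro h0
        have := hf ⟨n, n.lt_succ_self⟩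
        rw [h0, map_zero] at this
        exact mul_ne_zero hd' (by simpa [n] using hP0) this
      · rw [aeval_eq_sum_range] at hP
        rw [← mul_zero (aeval θ d'), ← hP, mul_sum]
        refine sum_congr rfl fun b hb => ?_
        beta_reduce
        rw [dif_pos (mem_range.1 hb), ← hf, mul_assoc]
        rfl
    obtain ⟨f, hf1, ⟨b₀, hb₀, hf2⟩, hf3⟩ := Nat.find_spec hex
    have hm : 0 < Nat.find hex := by
      by_contra h0
      have h1 : ∀ b, f b = C ((f b).coeff 0) := fun b =>
        eq_C_of_natDegree_le_zero ((hf1 b).trans (by omega))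
      have h2 : IsAlgebraic F α := by
        refine ⟨∑ b ∈ range (n + 1), monomial b ((f b).coeff 0), fun h3 => hf2 ?_, ?_⟩
        · have := congrArg (coeff · b₀) h3
          simp only [finsetSum_coeff, coeff_monomial, sum_ite_eq', mem_range, coeff_zero] at this
          rw [if_pos (by omega)] at this
          rw [h1 b₀, this, C_0]
        · rw [map_sum, ← hf3]
          refine sum_congr rfl fun b _ => ?_
          rw [aeval_monomial]
          conv_rhs => rw [h1 b, aeval_C]
      exact hF (minpoly.mem_range_of_degree_eq_one F α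
        (IsAlgClosed.degree_eq_one_of_irreducible F (minpoly.irreducible h2.isIntegral)))
    obtain ⟨C₀, hC⟩ := h.cong α d hd ha n _ f hf1 hf3
    refine ⟨C₀, fun _ => True, fun i _ => hC i (φ i) (hφ' i) fun h0 => ?_, fun i hi =>
      absurd trivial hi⟩
    choose R hR hR' using fun b => h.dec (Nat.find hex) ((f b).map (φ i))
      (by rw [natDegree_map]; exact hf1 b)
    have h1 := h.ind (fun r => ∑ b ∈ range (n + 1), aeval θ (R b r) * α ^ b) (by
      have h2 := fun r => h.fr_sum 1 (range (n + 1)) fun b => aeval θ (R b r) * α ^ b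
      simp only [pow_one] at h2
      simp only [h2, mul_sum]
      rw [sum_comm, ← h0]
      refine sum_congr rfl fun b _ => ?_
      rw [hR', sum_mul]
      exact sum_congr rfl fun r _ => by ring)
    obtain ⟨r, hr, hr'⟩ : ∃ r < q, R b₀ r ≠ 0 := by
      by_contra h2
      push Not at h2
      refine h.aeval_ne (Polynomial.map_ne_zero (f := φ i) hf2) ?_
      rw [hR']
      exact sum_eq_zero fun r hr => by
        rw [h2 r (mem_range.1 hr), map_zero, zero_pow h.q0, mul_zero]
    exact Nat.find_min hex (Nat.div_lt_self hm (by have := h.hq; omega))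
      ⟨fun b => R b r, fun b => hR b r, ⟨b₀, hb₀, hr'⟩, h1 r hr⟩

end Pool.Agent.Drin
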