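import Pool.Agent.Lib.MP_0c15f2_nt.DF.Newton
import Pool.Agent.Lib.MP_0c15f2_nt.DF.Even
import Pool.Agent.Lib.MP_0c15f2_nt.DF.Good
import Pool.Agent.Lib.MP_0c15f2_nt.DF.Car
import Pool.Agent.Lib.MP_0c15f2_nt.DF.Sieg

/-! Scaling of the module and the two uses of the core. -/

namespace Pool.Agent.Drin

open Polynomial Finset WithZero

/-- The statement of the core block. -/
def CoreStmt : Prop :=
  ∀ (F L : Type) [Field F] [Field L] [Algebra F L] (q c e D : ℕ)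
    (v : Valuation L ℤᵐ⁰) (θ δ : L) (U : ℕ → L →+ L) (H : ℕ → Submodule F L),
    Ctx q c e D v θ δ U H → ∀ (g Δ b₁ b₂ A₁ A₂ w₀ w₁ η x ξ d₁ : L) (r : ℕ),
    Int H g → Int H Δ → Δ ≠ 0 → Int H b₁ → Int H b₂ → Int H A₁ → Int H A₂ → A₂ ≠ 0 → w₁ ≠ 0 →
    w₁ = w₀ ^ q ^ r + η → d₁ ≠ 0 → Int H d₁ → Int H (d₁ * η) → Int H (d₁ * ξ) →
    Lim v (fun i => be q θ g Δ (i + 1) * yy q b₁ b₂ A₁ A₂ (i + 2) *
      if i + 1 < r then w₀ ^ q ^ (i + 1) else w₁ ^ q ^ (i + 1 - r))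
      (ξ - gam q θ g Δ 0 * x ^ q) → Rel q θ g Δ b₁ b₂ A₁ A₂ H

/-- The last step of the non-degenerate case. -/
def RelZeroStmt : Prop :=
  ∀ (F L : Type) [Field F] [Field L] [Algebra F L] (q c e D : ℕ)
    (v : Valuation L ℤᵐ⁰) (θ δ : L) (U : ℕ → L →+ L) (H : ℕ → Submodule F L),
    Ctx q c e D v θ δ U H → ∀ (g Δ b₁ b₂ A₁ A₂ : L),
    Int H g → Int H Δ → Δ ≠ 0 → Int H b₁ → Int H b₂ → Int H A₁ → Int H A₂ →
    Rel q θ g Δ b₁ b₂ A₁ A₂ H → Good q θ H (yy q b₁ b₂ A₁ A₂) → False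

variable {F L : Type} [Field F] [Field L] [Algebra F L]

theorem vv_scale {q : ℕ} (hq : 0 < q) (θ g Δ d : L) (i : ℕ) :
    (vv q θ (g * d ^ (q - 1)) (Δ * d ^ (q ^ 2 - 1)) i).1 * d = (vv q θ g Δ i).1 * d ^ q ^ i ∧
    (vv q θ (g * d ^ (q - 1)) (Δ * d ^ (q ^ 2 - 1)) i).2 * d ^ q = (vv q θ g Δ i).2 * d ^ q ^ i := by
  induction i with
  | zero => simp [vv]
  | succ i ih =>
    have h1 := congrArg (· ^ q) ih.1
    have h2 := congrArg (· ^ q) ih.2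
    simp only [mul_pow, ← pow_mul, ← pow_succ] at h1 h2
    have e1 : d ^ (q - 1) * d = d ^ q := by rw [← pow_succ, Nat.sub_add_cancel hq]
    have e2 : d ^ (q ^ 2 - 1) * d = d ^ (q * q) := by
      rw [← pow_succ, Nat.sub_add_cancel (pow_pos hq 2), sq]
    refine ⟨?_, h1⟩
    simp only [vv]
    rw [div_mul_eq_mul_div, div_mul_eq_mul_div]
    congr 1
    linear_combination g * h1 + Δ * h2 +
      g * (vv q θ (g * d ^ (q - 1)) (Δ * d ^ (q ^ 2 - 1)) i).1 ^ q * e1 +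
      Δ * (vv q θ (g * d ^ (q - 1)) (Δ * d ^ (q ^ 2 - 1)) i).2 ^ q * e2

theorem be_scale {q : ℕ} (hq : 0 < q) (θ g Δ d : L) (i : ℕ) :
    be q θ (g * d ^ (q - 1)) (Δ * d ^ (q ^ 2 - 1)) i * d ^ q = be q θ g Δ i * d ^ q ^ (i + 1) := by
  have h1 := congrArg (· ^ q) (vv_scale hq θ g Δ d i).1
  simp only [mul_pow, ← pow_mul, ← pow_succ] at h1
  rw [be, be, div_mul_eq_mul_div, div_mul_eq_mul_div, h1]

theorem pair_scale {q : ℕ} (hq : 0 < q) (θ g Δ : L) {d : L} (hd : d ≠ 0) (s t : L[X]) (i : ℕ)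
    (h : pair q θ (g * d ^ (q - 1)) (Δ * d ^ (q ^ 2 - 1)) s t i = 0) :
    pair q θ g Δ (C (d ^ (q * q)) * s) (C (d ^ q) * t) i = 0 := by
  have h1 := congrArg (· ^ q) (vv_scale hq θ g Δ d i).1
  have h2 := congrArg (· ^ q) (vv_scale hq θ g Δ d i).2
  simp only [mul_pow, ← pow_mul, ← pow_succ] at h1 h2
  simp only [pair, eval_mul, eval_C] at h ⊢
  apply mul_left_cancel₀ (pow_ne_zero (q ^ (i + 1)) hd)
  linear_combination d ^ q * d ^ (q * q) * h - d ^ (q * q) * s.eval (θ ^ q ^ (i + 1)) * h1 -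
    d ^ q * t.eval (θ ^ q ^ (i + 1)) * h2

theorem pair_map (f : L →+* L) (q : ℕ) (θ g Δ : L) (s t : L[X]) (i : ℕ) :
    pair q (f θ) (f g) (f Δ) (s.map f) (t.map f) i = f (pair q θ g Δ s t i) := by
  rw [pair, ← map_pow, eval_map_hom', eval_map_hom', ← (vv_map _ _ _ _ _ _).1,
    ← (vv_map _ _ _ _ _ _).2]
  simp only [pair, map_add, map_mul, map_pow]

theorem be_map (f : L →+* L) (q : ℕ) (θ g Δ : L) (i : ℕ) :
    be q (f θ) (f g) (f Δ) i = f (be q θ g Δ i) := by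
  rw [be, be, ← (vv_map _ _ _ _ _ _).1]
  simp only [map_div₀, map_pow, map_sub]

theorem vv_alg (q : ℕ) {θ g Δ : L} (hg : IsAlgebraic (IntermediateField.adjoin F {θ}) g)
    (hΔ : IsAlgebraic (IntermediateField.adjoin F {θ}) Δ) (i : ℕ) :
    IsAlgebraic (IntermediateField.adjoin F {θ}) (vv q θ g Δ i).1 ∧
      IsAlgebraic (IntermediateField.adjoin F {θ}) (be q θ g Δ i) := by
  obtain ⟨M, _, _, ⟨θ', hθ⟩, hm, ha⟩ := exists_closure (F := F) θ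
  obtain ⟨g', rfl⟩ := hm g hg
  obtain ⟨Δ', rfl⟩ := hm Δ hΔ
  simp only [← ha]
  subst hθ
  rw [be, ← (vv_map _ _ _ _ _ _).1, ← map_pow, ← map_pow, ← map_sub, ← map_div₀]
  exact ⟨isAlgebraic_algebraMap _, isAlgebraic_algebraMap _⟩

variable {q c e D : ℕ} {v : Valuation L ℤᵐ⁰} {θ δ : L} {U : ℕ → L →+ L} {H : ℕ → Submodule F L}

theorem Ctx.int_scale (h : Ctx q c e D v θ δ U H) {d x : L} (hd : Int H d) (hx : Int H (d * x))
    {n : ℕ} (hn : 1 ≤ n) : Int H (x * d ^ n) := by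
  obtain ⟨m, rfl⟩ : ∃ m, n = m + 1 := ⟨n - 1, by omega⟩
  rw [show x * d ^ (m + 1) = d * x * d ^ m by ring]
  exact h.int_mul hx (h.int_pow hd m)

theorem Ctx.core_scale (h : Ctx q c e D v θ δ U H) (hc : CoreStmt)
    {g Δ b₁ b₂ A₁ A₂ w₀ w₁ η x ξ d : L} {r : ℕ} (m n : ℕ) (y : ℕ → L) (hd0 : d ≠ 0) (hd : Int H d)
    (hg : Int H (d * g)) (hΔ : Int H (d * Δ)) (hη : Int H (d * η)) (hξ : Int H (d * ξ))
    (h0 : Δ ≠ 0) (hb1 : Int H b₁) (hb2 : Int H b₂) (hA1 : Int H A₁) (hA2 : Int H A₂) (hA : A₂ ≠ 0)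
    (hw : w₁ ≠ 0) (hw1 : w₁ = w₀ ^ q ^ r + η)
    (hy : ∀ i, yy q b₁ b₂ A₁ A₂ i * (d ^ m) ^ q = y i * (d ^ n) ^ q ^ i * d ^ q)
    (hl : Lim v (fun i => be q θ g Δ (i + 1) * y (i + 2) *
      if i + 1 < r then w₀ ^ q ^ (i + 1) else w₁ ^ q ^ (i + 1 - r))
      (ξ - gam q θ g Δ 0 * x ^ q)) :
    Rel q θ (g * d ^ (q - 1)) (Δ * d ^ (q ^ 2 - 1)) b₁ b₂ A₁ A₂ H := by
  have hq := h.hq
  have hq2 : 1 ≤ q ^ 2 - 1 := by have : 9 ≤ q ^ 2 := by nlinarith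
                                 omega
  obtain ⟨z, hz⟩ : ∃ z, z = (d ^ (n + 1)) ^ q := ⟨_, rfl⟩
  have hz0 : z ≠ 0 := hz ▸ pow_ne_zero _ (pow_ne_zero _ hd0)
  have hzi : Int H z := hz ▸ h.int_pow (h.int_pow hd _) _
  have hm0 : d ^ m ≠ 0 := pow_ne_zero _ hd0
  refine hc F L q c e D v θ δ U H h _ _ b₁ b₂ A₁ A₂ (w₀ / z) (w₁ / z ^ q ^ r) (η / z ^ q ^ r)
    (x / d ^ m) (ξ / (d ^ m) ^ q) (d * z ^ q ^ r * (d ^ m) ^ q) r
    (h.int_scale hd hg (by omega)) (h.int_scale hd hΔ hq2) (mul_ne_zero h0 (pow_ne_zero _ hd0))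
    hb1 hb2 hA1 hA2 hA (div_ne_zero hw (pow_ne_zero _ hz0)) (by rw [hw1, div_pow, add_div])
    (mul_ne_zero (mul_ne_zero hd0 (pow_ne_zero _ hz0)) (pow_ne_zero _ hm0))
    (h.int_mul (h.int_mul hd (h.int_pow hzi _)) (h.int_pow (h.int_pow hd _) _)) ?_ ?_ ?_
  · rw [show d * z ^ q ^ r * (d ^ m) ^ q * (η / z ^ q ^ r) = d * η * (d ^ m) ^ q by field_simp]
    exact h.int_mul hη (h.int_pow (h.int_pow hd _) _)
  · rw [show d * z ^ q ^ r * (d ^ m) ^ q * (ξ / (d ^ m) ^ q) = d * ξ * z ^ q ^ r by field_simp]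
    exact h.int_mul hξ (h.int_pow hzi _)
  · convert hl.mul ((d ^ m) ^ q)⁻¹ using 1
    · funext i
      have e1 := be_scale (show 0 < q by omega) θ g Δ d (i + 1)
      have e2 := hy (i + 2)
      have e3 : z ^ q ^ (i + 1) = (d ^ n) ^ q ^ (i + 2) * d ^ q ^ (i + 1 + 1) := by
        rw [hz, ← pow_mul _ q, ← pow_succ', ← mul_pow, ← pow_succ]
      have e4 : (if i + 1 < r then (w₀ / z) ^ q ^ (i + 1)
          else (w₁ / z ^ q ^ r) ^ q ^ (i + 1 - r)) =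
          (if i + 1 < r then w₀ ^ q ^ (i + 1) else w₁ ^ q ^ (i + 1 - r)) / z ^ q ^ (i + 1) := by
        split_ifs with hi
        · rw [div_pow]
        · rw [div_pow, ← pow_mul z, ← pow_add, Nat.add_sub_cancel' (not_lt.1 hi)]
      rw [e4, e3]
      generalize (if i + 1 < r then w₀ ^ q ^ (i + 1) else w₁ ^ q ^ (i + 1 - r)) = W
      rw [eq_div_of_mul_eq (pow_ne_zero q hd0) e1, eq_div_of_mul_eq (pow_ne_zero q hm0) e2]
      field_simp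
    · simp only [gam, rho, div_pow]
      field_simp

end Pool.Agent.Drin
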