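import Pool.Agent.Lib.MP_0c15f2_nt.DF.FinA

/-! The two uses of the core over Laurent series, when `t` is not a `p`-th power. -/

namespace Pool.Agent.Drin

open Polynomial Finset WithZero IntermediateField

/-- Every finite set of algebraic elements lies, up to a denominator, in a height filtration. -/
def HasCtx (F : Type) {L : Type} [Field F] [Field L] [Algebra F L] (q e : ℕ)
    (v : Valuation L ℤᵐ⁰) (t : L) : Prop :=
  ∀ S : Finset L, (∀ x ∈ S, IsAlgebraic (adjoin F {t}) x) →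
    ∃ (c D : ℕ) (δ : L) (U : ℕ → L →+ L) (H : ℕ → Submodule F L), Ctx q c e D v t δ U H ∧
      ∃ d : F[X], d ≠ 0 ∧ ∀ x ∈ S, Int H (aeval t d * x)

theorem ctx_of {F : Type} [Field F] [IsAlgClosed F] {p ν e : ℕ} [Fact p.Prime] [CharP F p]
    {t : LaurentSeries F} (hq : 3 ≤ p ^ ν) (ht : ∀ x, x ^ p ≠ t) (he : 1 ≤ e)
    (hv : Valued.v t = exp (e : ℤ)) : HasCtx F (p ^ ν) e Valued.v t := by
  intro S hS
  have := charL (F := F) p
  obtain ⟨C, hC, hC'⟩ := car F p ν t ht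
  have fr : ∀ x y : LaurentSeries F, (x + y) ^ p ^ ν = x ^ p ^ ν + y ^ p ^ ν :=
    fun x y => add_pow_char_pow x y p ν
  obtain ⟨c, D, δ, H, h, d, hd, hd'⟩ := lat F (LaurentSeries F) Valued.v t (p ^ ν) e C hq fr
    (fun a => IsAlgClosed.exists_pow_nat_eq a (by omega)) he hv
    (fun a => by
      rw [← exp_zero]
      refine lv_le_iff.2 fun n hn => ?_
      rw [LaurentSeries.algebraMap_apply, HahnSeries.C_apply,
        HahnSeries.coeff_single_of_ne (by omega)])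
    (iter _ _ t _ C (by omega) fr hC) hC' S hS
  exact ⟨c, D, δ, _, H, h, d, hd, fun x hx => ⟨c, hd' x hx⟩⟩

variable {F L : Type} [Field F] [IsAlgClosed F] [Field L] [Algebra F L] {q e : ℕ}
  {v : Valuation L ℤᵐ⁰} {t : L}

omit [IsAlgClosed F] in
theorem caseB (hc : CoreStmt) (hz : RelZeroStmt) (hx : HasCtx F q e v t)
    {g Δ w₀ w₁ η x ξ : L} {r : ℕ}
    (hg : IsAlgebraic (adjoin F {t}) g) (hΔ : IsAlgebraic (adjoin F {t}) Δ)
    (hη : IsAlgebraic (adjoin F {t}) η) (hξ : IsAlgebraic (adjoin F {t}) ξ) (h0 : Δ ≠ 0)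
    (hw : w₁ ≠ 0) (hw1 : w₁ = w₀ ^ q ^ r + η)
    (hl : Lim v (fun i => be q t g Δ (i + 1) *
      if i + 1 < r then w₀ ^ q ^ (i + 1) else w₁ ^ q ^ (i + 1 - r))
      (ξ - gam q t g Δ 0 * x ^ q)) : False := by
  classical
  obtain ⟨c, D, δ, U, H, h, d, hd, hS⟩ := hx {g, Δ, η, ξ} (by simp [*])
  have hq := h.hq
  have hy : ∀ i, yy q (0 : L) 1 0 1 i = 1 := fun i => by simp [yy, h.q0]
  have di : Int H (aeval t d) := h.int_of (h.aeval_mem d)
  have hq2 : 1 ≤ q ^ 2 - 1 := by have : 9 ≤ q ^ 2 := by nlinarith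
                                 omega
  refine hz F _ q c e D _ t δ U H h _ _ 0 1 0 1 (h.int_scale di (hS g (by simp)) (by omega))
    (h.int_scale di (hS Δ (by simp)) hq2) (mul_ne_zero h0 (pow_ne_zero _ (h.aeval_ne hd)))
    h.int_zero h.int_one h.int_zero h.int_one
    (h.core_scale hc 1 0 (fun _ => 1) (h.aeval_ne hd) di (hS g (by simp)) (hS Δ (by simp))
      (hS η (by simp)) (hS ξ (by simp)) h0 h.int_zero h.int_one h.int_zero h.int_one one_ne_zero
      hw hw1 (fun i => by simp [hy]) (by simpa using hl))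
    ⟨0, fun _ => True, fun i _ => ⟨1, 1, 0, h.int_one, h.one, one_ne_zero, h.int_zero,
      by simp [hy]⟩, fun i hi => absurd trivial hi⟩

theorem caseA (hc : CoreStmt) (hz : RelZeroStmt) (hx : HasCtx F q e v t)
    {g Δ α w₀ w₁ η ξ : L} {r : ℕ}
    (hg : IsAlgebraic (adjoin F {t}) g) (hΔ : IsAlgebraic (adjoin F {t}) Δ)
    (hα : IsAlgebraic (adjoin F {t}) α)
    (hη : IsAlgebraic (adjoin F {t}) η) (hξ : IsAlgebraic (adjoin F {t}) ξ) (h0 : Δ ≠ 0)
    (hα1 : α ^ q ≠ α) (hw : w₁ ≠ 0) (hw1 : w₁ = w₀ ^ q ^ r + η)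
    (hl : Lim v (fun i => be q t g Δ (i + 1) * (α ^ q ^ (i + 2) - α ^ q) *
      if i + 1 < r then w₀ ^ q ^ (i + 1) else w₁ ^ q ^ (i + 1 - r)) ξ) :
    α ^ q ^ 2 = α ∧ ∃ (s u : L[X]) (i₀ : ℕ),
      (∀ n, IsAlgebraic (adjoin F {t}) (s.coeff n)) ∧
      (∀ n, IsAlgebraic (adjoin F {t}) (u.coeff n)) ∧ s.eval t ≠ 0 ∧ u.eval t = 0 ∧
      ∀ i, i₀ ≤ i → Odd i → pair q t g Δ s u i = 0 := by
  classical
  obtain ⟨c, D, δ, U, H, h, d, hd, hS⟩ := hx {g, Δ, α, η, ξ} (by simp [*])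
  have hq := h.hq
  have di : Int H (aeval t d) := h.int_of (h.aeval_mem d)
  have ai : Int H (aeval t d * α) := hS α (by simp)
  have d0 := h.aeval_ne hd
  have hq2 : 1 ≤ q ^ 2 - 1 := by have : 9 ≤ q ^ 2 := by nlinarith
                                 omega
  have ng : ∀ x : L, (-x) ^ q = -x ^ q := fun x => by simpa using h.fr_neg 1 x
  have hR := h.core_scale hc (x := 0) 0 1 (fun i => α ^ q ^ i - α ^ q) d0 di (hS g (by simp))
    (hS Δ (by simp)) (hS η (by simp)) (hS ξ (by simp)) h0 di (h.int_neg ai) ai di d0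
    hw hw1 (fun i => by rw [yy, ng]; ring) (by simpa [h.q0] using hl)
  have h2 : α ^ q ^ 2 = α := by
    by_contra h2
    refine hz F _ q c e D _ t δ U H h _ _ _ _ _ _ (h.int_scale di (hS g (by simp)) (by omega))
      (h.int_scale di (hS Δ (by simp)) hq2) (mul_ne_zero h0 (pow_ne_zero _ d0)) di
      (h.int_neg ai) ai di hR ?_
    convert good F _ q c e D _ t δ U H h α d hd ai hα h2 using 2 with i
    rw [yy, ng]; ring
  refine ⟨h2, ?_⟩
  obtain ⟨i₀, κ, s₁, t₁, s₂, t₂, hκ, -, hs₁, ht₁, hs₂, ht₂, e₁, f₁, e₂, f₂, hrel⟩ := hR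
  have ia := intAlg F _ q c e D _ t δ U H h
  have ca : ∀ (n : ℕ) (a b : L[X]), (∀ k, Int H (a.coeff k)) →
      (∀ k, Int H (b.coeff k)) → ∀ k,
      IsAlgebraic (adjoin F {t}) ((C (aeval t d ^ n) * (C α * a + b)).coeff k) := by
    intro n a b ha hb k
    rw [coeff_C_mul, coeff_add, coeff_C_mul]
    exact (ia _ (h.int_pow di n)).mul ((hα.mul (ia _ (ha k))).add (ia _ (hb k)))
  refine ⟨C (aeval t d ^ (q * q)) * (C α * s₁ + s₂), C (aeval t d ^ q) * (C α * t₁ + t₂), i₀,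
    ca _ _ _ hs₁ hs₂, ca _ _ _ ht₁ ht₂, ?_, by simp [f₁, f₂], fun i hi ho =>
      pair_scale (by omega) t g Δ d0 _ _ i ?_⟩
  · rw [eval_mul, eval_C, eval_add, eval_mul, eval_C, e₁, e₂, ng]
    refine mul_ne_zero (pow_ne_zero _ d0) ?_
    rw [show α * (κ * aeval t d ^ q) + κ * -(aeval t d * α) ^ q =
      κ * aeval t d ^ q * (α - α ^ q) by ring]
    exact mul_ne_zero (mul_ne_zero hκ (pow_ne_zero _ d0)) (sub_ne_zero.2 hα1.symm)
  · obtain ⟨m, rfl⟩ := ho
    have h3 : ∀ m, α ^ q ^ (2 * m) = α := fun m => by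
      induction m with
      | zero => simp
      | succ m ih => rw [mul_add, pow_add, pow_mul α, ih, h2]
    have h4 := hrel _ hi
    rw [mul_pow, show 2 * m + 1 + 1 = 2 * (m + 1) by ring, h3] at h4
    apply mul_left_cancel₀ (pow_ne_zero (q ^ (2 * (m + 1))) d0)
    simp only [pair, eval_add, eval_mul, eval_C] at h4 ⊢
    linear_combination h4

end Pool.Agent.Drin
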