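import Pool.Agent.Lib.MP_0c15f2_nt.DF.St

/-! Elements of finite height are algebraic. -/

namespace Pool.Agent.Drin

open Finset WithZero Polynomial

variable {F L : Type} [Field F] [Field L] [Algebra F L] {v : Valuation L ℤᵐ⁰}
  {q c e D : ℕ} {θ δ : L} {U : ℕ → L →+ L} {H : ℕ → Submodule F L}

/-- `θ` is transcendental over the constants. -/
theorem Ctx.aeval_ne (h : Ctx q c e D v θ δ U H) {a : F[X]} (ha : a ≠ 0) : aeval θ a ≠ 0 := by
  intro h0
  have hd : (a * X ^ (c + 1)).natDegree = a.natDegree + (c + 1) := natDegree_mul_X_pow _ ha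
  have hd' : (a * X ^ (c + 1) + 1).natDegree = a.natDegree + (c + 1) := by
    rw [natDegree_add_eq_left_of_natDegree_lt, hd]
    rw [hd, natDegree_one]
    omega
  have := h.div (a * X ^ (c + 1) + 1) h.one h.one (by simp [h0]) (by rw [hd']; omega)
  exact one_ne_zero this

theorem intAlg : IntAlgStmt := by
  intro F L _ _ _ q c e D v θ δ U H h x hx
  obtain ⟨N, hx⟩ := hx
  set A := D * (D * N + c + 1) with hA
  have hm : ∀ p : Fin (A + 1) × Fin (D + 1), θ ^ (p.1 : ℕ) * x ^ (p.2 : ℕ) ∈ H (A + D * N) := by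
    intro p
    refine h.le (h.mul (h.thp _) (h.pow hx _)) ?_
    have h1 := p.1.2
    have h2 : (p.2 : ℕ) * N ≤ D * N := Nat.mul_le_mul_right _ (by have := p.2.2; omega)
    omega
  have := h.fin (A + D * N)
  have hdep : ¬ LinearIndependent F
      (fun p : Fin (A + 1) × Fin (D + 1) => (⟨_, hm p⟩ : H (A + D * N))) := by
    intro hl
    have h1 := hl.fintype_card_le_finrank
    have h2 := h.dimhi (A + D * N)
    simp only [Fintype.card_prod, Fintype.card_fin] at h1
    have h3 : (A + 1) * (D + 1) = D * A + A + D + 1 := by ring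
    have h4 : D * (A + D * N + c + 1) = D * A + A := by rw [hA]; ring
    omega
  obtain ⟨a, ha, p₀, hp₀⟩ := Fintype.not_linearIndependent_iff.1 hdep
  have ha' : ∑ p : Fin (A + 1) × Fin (D + 1), a p • (θ ^ (p.1 : ℕ) * x ^ (p.2 : ℕ)) = 0 := by
    have := congrArg (Submodule.subtype _) ha
    simpa using this
  let K := IntermediateField.adjoin F {θ}
  let t : K := ⟨θ, IntermediateField.mem_adjoin_simple_self F θ⟩
  let r : Fin (D + 1) → F[X] := fun j => ∑ i : Fin (A + 1), monomial (i : ℕ) (a (i, j))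
  have hr : ∀ j, algebraMap K L (aeval t (r j)) = aeval θ (r j) := fun j =>
    (aeval_algebraMap_apply L t (r j)).symm
  refine ⟨∑ j : Fin (D + 1), monomial (j : ℕ) (aeval t (r j)), ?_, ?_⟩
  · intro h0
    have h1 := congrArg (fun P => P.coeff (p₀.2 : ℕ)) h0
    simp only [finsetSum_coeff, coeff_monomial, coeff_zero, Fin.val_inj, sum_ite_eq', mem_univ,
      if_true] at h1
    have h2 : r p₀.2 ≠ 0 := by
      intro h3
      have h4 := congrArg (fun P => P.coeff (p₀.1 : ℕ)) h3
      simp only [r, finsetSum_coeff, coeff_monomial, coeff_zero, Fin.val_inj, sum_ite_eq',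
        mem_univ, if_true] at h4
      exact hp₀ h4
    apply h.aeval_ne h2
    rw [← hr, h1, map_zero]
  · rw [map_sum, ← ha', Fintype.sum_prod_type_right]
    refine sum_congr rfl fun j _ => ?_
    rw [aeval_monomial, hr]
    simp only [r, map_sum, aeval_monomial, sum_mul, Algebra.smul_def, mul_assoc]

end Pool.Agent.Drin
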