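import Pool.Agent.Lib.MP_0c15f2_nt.DF.Seq

/-! Newton telescoping of the quasi-periodic coefficients and heights of the sequences. -/

namespace Pool.Agent.Drin

open Finset WithZero Polynomial

set_option linter.unusedSectionVars false

variable {F L : Type} [Field F] [Field L] [Algebra F L] {v : Valuation L ℤᵐ⁰}

/-- The remainder after `u` telescoping steps. -/
def SS (q : ℕ) (θ g Δ : L) (u j : ℕ) : L :=
  ((rho q θ g Δ u).1 * (vv q θ g Δ j).1 ^ q ^ (u + 1) +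
    (rho q θ g Δ u).2 * (vv q θ g Δ j).2 ^ q ^ (u + 1)) /
      (ell q θ 0 u * (θ ^ q ^ (j + u + 1) - θ))

theorem ell_succ (q : ℕ) (θ : L) {a u : ℕ} (h : a ≤ u) :
    ell q θ a (u + 1) = ell q θ a u * (θ - θ ^ q ^ (u + 1)) := by
  rw [ell, ell, prod_Ico_succ_top h]

theorem ell_mul (q : ℕ) (θ : L) {a u : ℕ} (h : a ≤ u) :
    ell q θ 0 a * ell q θ a u = ell q θ 0 u := by
  rw [ell, ell, ell, prod_Ico_consecutive _ (Nat.zero_le a) h]

namespace Pre

variable {q e : ℕ} {θ : L} (h : Pre q e v θ) (g Δ : L)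
include h

theorem br1_ne' (i : ℕ) : θ - θ ^ q ^ (i + 1) ≠ 0 := fun h0 =>
  h.br1_ne i (by rw [← neg_sub, h0, neg_zero])

theorem ell_ne (a u : ℕ) : ell q θ a u ≠ 0 := prod_ne_zero_iff.2 fun s _ => h.br1_ne' s

theorem SS_left (j : ℕ) : SS q θ g Δ 0 j = be q θ g Δ j := by
  simp [SS, be, rho, ell]

theorem SS_right (u : ℕ) : SS q θ g Δ u 0 = gam q θ g Δ u := by
  have h1 := h.ell_ne 0 u
  have h2 := h.br1_ne u
  have h3 := h.br1_ne' u
  simp only [SS, gam, vv, one_pow, zero_pow (h.qpos (u + 1)).ne', ell_succ q θ (Nat.zero_le u),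
    zero_add]
  field_simp
  ring

theorem SS_step (u j : ℕ) : SS q θ g Δ u (j + 1) =
    gam q θ g Δ u * (vv q θ g Δ (j + 1)).1 ^ q ^ (u + 1) + SS q θ g Δ (u + 1) j := by
  have h1 := h.ell_ne 0 u
  have h2 := h.br1_ne (j + u + 1)
  have h3 := h.br1_ne' u
  have h4 := h.vv_rec g Δ j (u + 1)
  simp only [SS, gam, rho, ell_succ q θ (Nat.zero_le u), h.vv_rec2]
  rw [show j + 1 + (u + 1) = j + u + 1 + 1 by ring] at h4
  rw [show j + 1 + u + 1 = j + u + 1 + 1 by ring, show j + (u + 1) + 1 = j + u + 1 + 1 by ring]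
  field_simp
  linear_combination (rho q θ g Δ u).1 * h4

theorem newton (u : ℕ) : ∀ j, be q θ g Δ (j + u) =
    ∑ s ∈ range u, gam q θ g Δ s * (vv q θ g Δ (j + u - s)).1 ^ q ^ (s + 1) + SS q θ g Δ u j := by
  induction u with
  | zero => intro j; simp [h.SS_left]
  | succ u ih =>
    intro j
    have := ih (j + 1)
    rw [show j + 1 + u = j + (u + 1) by ring, h.SS_step] at this
    rw [this, sum_range_succ, show j + (u + 1) - u = j + 1 by omega, add_assoc]

theorem ell_gam {s E : ℕ} (hs : s < E) :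
    ell q θ 0 E * gam q θ g Δ s = -(rho q θ g Δ s).1 * ell q θ (s + 1) E := by
  have h1 := h.ell_ne 0 (s + 1)
  rw [gam, ← ell_mul q θ (show s + 1 ≤ E from hs)]
  field_simp

theorem v_DD (j : ℕ) : v (DD q θ j) = exp ((e * (j * q ^ j) : ℕ) : ℤ) := by
  induction j with
  | zero => simp [DD]
  | succ j ih =>
    rw [DD, v_mul_eq (h.v_br1 j) (v_pow_eq ih q)]
    congr 1
    push_cast
    ring

end Pre

namespace Ctx

variable {q c e D : ℕ} {θ δ : L} {U : ℕ → L →+ L} {H : ℕ → Submodule F L}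
  (h : Ctx q c e D v θ δ U H) {g Δ : L}
include h

theorem ell_ht (a u : ℕ) : ell q θ a u ∈ H (2 * q ^ u) := by
  induction u with
  | zero => simpa [ell] using h.le h.one (Nat.zero_le _)
  | succ u ih =>
    rcases le_or_gt a u with ha | ha
    · rw [ell_succ q θ ha, ← neg_sub, mul_neg]
      refine neg_mem (h.le (h.mul ih (h.br1 _)) ?_)
      have := h.hq
      rw [pow_succ]
      nlinarith [h.qpos u]
    · rw [ell, Ico_eq_empty (by omega), prod_empty]
      exact h.le h.one (Nat.zero_le _)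

theorem rho_ht (hg : g ∈ H c) (hΔ : Δ ∈ H c) (u : ℕ) :
    (rho q θ g Δ u).1 ∈ H (2 * (c + 1) * q ^ u) ∧ (rho q θ g Δ u).2 ∈ H (2 * (c + 1) * q ^ u) := by
  induction u with
  | zero => exact ⟨h.le h.one (Nat.zero_le _), zero_mem _⟩
  | succ u ih =>
    have hq := h.hq
    have hp := h.qpos u
    have h1 : 2 * (c + 1) * q ^ u + q ^ (u + 1) * (c + 1) ≤ 2 * (c + 1) * q ^ (u + 1) := by
      rw [pow_succ]
      nlinarith [Nat.mul_le_mul_left ((c + 1) * q ^ u) hq]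
    have h2 : θ - θ ^ q ^ (u + 1) ∈ H (q ^ (u + 1)) := by
      rw [← neg_sub]; exact neg_mem (h.br1 _)
    simp only [rho]
    rw [mul_add (q ^ (u + 1))] at h1
    exact ⟨add_mem (h.le (h.mul ih.1 (h.pow hg _)) (by omega)) (h.le (h.mul ih.2 h2) (by omega)),
      h.le (h.mul ih.1 (h.pow hΔ _)) (by omega)⟩

theorem nn_ht (hg : g ∈ H c) (hΔ : Δ ∈ H c) (j : ℕ) :
    DD q θ j * (vv q θ g Δ j).1 ∈ H (q ^ j * (j / 2 + c) - c) ∧
      DD q θ j * (vv q θ g Δ j).2 ∈ H (q ^ j * ((j + 1) / 2 + c) - c) := by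
  induction j with
  | zero => simpa [DD, vv] using h.one
  | succ j ih =>
    have hq := h.hq
    have hp := h.qpos j
    have key : ∀ A, c ≤ A → q * (q ^ j * A - c) + 2 * c ≤ q ^ (j + 1) * A := by
      intro A hA
      have : c ≤ q ^ j * A := hA.trans (Nat.le_mul_of_pos_left _ hp)
      obtain ⟨T, hT⟩ := Nat.exists_eq_add_of_le this
      rw [pow_succ', mul_assoc, hT, Nat.add_sub_cancel_left]
      nlinarith
    have k1 := key (j / 2 + c) (by omega)
    have k2 := key ((j + 1) / 2 + c) (by omega)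
    have k3 : q ^ (j + 1) * (j / 2 + c) ≤ q ^ (j + 1) * ((j + 1) / 2 + c) :=
      Nat.mul_le_mul_left _ (by omega)
    constructor
    · have e1 : DD q θ (j + 1) * (vv q θ g Δ (j + 1)).1 =
          g * (DD q θ j * (vv q θ g Δ j).1) ^ q + Δ * (DD q θ j * (vv q θ g Δ j).2) ^ q := by
        rw [DD, mul_pow, mul_pow]
        linear_combination DD q θ j ^ q * h.pre.vv_rec0 g Δ j
      rw [e1]
      exact add_mem (h.le (h.mul hg (h.pow ih.1 q)) (by omega))
        (h.le (h.mul hΔ (h.pow ih.2 q)) (by omega))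
    · have e1 : DD q θ (j + 1) * (vv q θ g Δ (j + 1)).2 =
          (θ ^ q ^ (j + 1) - θ) * (DD q θ j * (vv q θ g Δ j).1) ^ q := by
        rw [DD, vv, mul_pow]; ring
      rw [e1, show (j + 1 + 1) / 2 + c = (j / 2 + c) + 1 by omega, mul_add _ _ 1]
      exact h.le (h.mul (h.br1 _) (h.pow ih.1 q)) (by omega)

theorem nn_ht' (hg : g ∈ H c) (hΔ : Δ ∈ H c) (j : ℕ) :
    (DD q θ j * (vv q θ g Δ j).1) ^ q ∈ H (q ^ (j + 1) * ((j + 1) / 2 + c)) ∧
      (DD q θ j * (vv q θ g Δ j).2) ^ q ∈ H (q ^ (j + 1) * ((j + 1) / 2 + c)) := by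
  obtain ⟨h1, h2⟩ := h.nn_ht hg hΔ j
  refine ⟨h.le (h.pow h1 q) ?_, h.le (h.pow h2 q) ?_⟩
  · rw [pow_succ', mul_assoc]
    exact Nat.mul_le_mul_left _ ((Nat.sub_le _ _).trans (Nat.mul_le_mul_left _ (by omega)))
  · rw [pow_succ', mul_assoc]
    exact Nat.mul_le_mul_left _ (Nat.sub_le _ _)

end Ctx

end Pool.Agent.Drin
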