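import Pool.Agent.Lib.MP_0c15f2_nt.DF.Term
import Pool.Agent.Lib.MP_0c15f2_nt.DF.Sieg

/-! Choice of the killing operator. -/

namespace Pool.Agent.Drin

open Finset WithZero Polynomial

set_option linter.unusedSectionVars false

variable {F L : Type} [Field F] [Field L] [Algebra F L] {v : Valuation L ℤᵐ⁰}

theorem geo {q : ℕ} (hq : 3 ≤ q) (n : ℕ) : ∀ a, 2 * ∑ s ∈ Ico a (a + n), q ^ (a + n - s) ≤ 3 * q ^ n := by
  induction n with
  | zero => simp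
  | succ n ih =>
    intro a
    have := ih (a + 1)
    rw [sum_eq_sum_Ico_succ_bot (by omega), show a + (n + 1) = a + 1 + n by ring,
      show a + 1 + n - a = n + 1 by omega, pow_succ]
    nlinarith [Nat.mul_le_mul_left (q ^ n) hq]

theorem geo' {q : ℕ} (hq : 3 ≤ q) {a E : ℕ} (ha : a ≤ E) :
    2 * ∑ s ∈ Ico a E, q ^ (E - s) ≤ 3 * q ^ (E - a) := by
  obtain ⟨n, rfl⟩ := Nat.exists_eq_add_of_le ha
  simpa using geo hq n a

theorem geo'' {q : ℕ} (hq : 3 ≤ q) {a E : ℕ} (ha : a < E) :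
    2 * ∑ s ∈ Ico a E, q ^ (E - (s + 1)) ≤ 3 * q ^ (E - (a + 1)) := by
  have h1 := geo' hq ha.le
  have h2 : ∑ s ∈ Ico a E, q ^ (E - s) = q * ∑ s ∈ Ico a E, q ^ (E - (s + 1)) := by
    rw [mul_sum]
    exact sum_congr rfl fun s hs => by
      have := (mem_Ico.1 hs).2
      rw [← pow_succ']; congr 1; omega
  rw [h2, show E - a = E - (a + 1) + 1 by omega, pow_succ'] at h1
  refine Nat.le_of_mul_le_mul_left (c := q) ?_ (by omega)
  linarith

theorem count {q T ε E m : ℕ} (hq : 3 ≤ q) (hE : ε + 2 ≤ E) (hT : 108 * (T + 1) ≤ q ^ (ε + 1))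
    (hm : 144 * m ≤ q ^ E) :
    18 * (∑ s ∈ range E, q ^ (E - max s 1) + (∑ s ∈ Ico 2 E, q ^ (E - (s + 1)) +
      ((∑ s ∈ Ico (ε + 1) E, q ^ (E - max s 1)) * (T + 1) +
        ((∑ s ∈ Ico ε E, q ^ (E - (s + 1))) * (T + 1) + 4 * m)))) ≤ 17 * q ^ E := by
  have a1 : ∑ s ∈ range E, q ^ (E - max s 1) =
      q ^ (E - 1) + (q ^ (E - 1) + ∑ s ∈ Ico 2 E, q ^ (E - s)) := by
    rw [range_eq_Ico, sum_eq_sum_Ico_succ_bot (by omega), sum_eq_sum_Ico_succ_bot (by omega)]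
    simp only [zero_add, max_self, zero_le_one, max_eq_right]
    congr 2
    exact sum_congr rfl fun s hs => by rw [max_eq_left (by have := (mem_Ico.1 hs).1; omega)]
  have a2 : ∑ s ∈ Ico (ε + 1) E, q ^ (E - max s 1) = ∑ s ∈ Ico (ε + 1) E, q ^ (E - s) :=
    sum_congr rfl fun s hs => by rw [max_eq_left (by have := (mem_Ico.1 hs).1; omega)]
  have b1 := geo' hq (show 2 ≤ E by omega)
  have b3 := geo' hq (show ε + 1 ≤ E by omega)
  have b4 := geo'' hq (show ε < E by omega)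
  have b2 : 3 * ∑ s ∈ Ico 2 E, q ^ (E - (s + 1)) ≤ ∑ s ∈ Ico 2 E, q ^ (E - s) := by
    rw [mul_sum]
    exact sum_le_sum fun s hs => by
      have := (mem_Ico.1 hs).2
      rw [show E - s = E - (s + 1) + 1 by omega, pow_succ']
      exact Nat.mul_le_mul_right _ hq
  have c1 : 3 * q ^ (E - 1) ≤ q ^ E := by
    conv_rhs => rw [show E = E - 1 + 1 by omega, pow_succ']
    exact Nat.mul_le_mul_right _ hq
  have c2 : 3 * q ^ (E - 2) ≤ q ^ (E - 1) := by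
    rw [show E - 1 = E - 2 + 1 by omega, pow_succ']
    exact Nat.mul_le_mul_right _ hq
  have c3 : 108 * (T + 1) * q ^ (E - (ε + 1)) ≤ q ^ E := by
    conv_rhs => rw [show E = ε + 1 + (E - (ε + 1)) by omega, pow_add]
    exact Nat.mul_le_mul_right _ hT
  have d3 := Nat.mul_le_mul_right (T + 1) b3
  have d4 := Nat.mul_le_mul_right (T + 1) b4
  rw [a1, a2]
  nlinarith

namespace Ctx

variable {q c e D : ℕ} {θ δ : L} {U : ℕ → L →+ L} {H : ℕ → Submodule F L}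
  (h : Ctx q c e D v θ δ U H) {g Δ b₁ b₂ A₁ A₂ : L}
include h

theorem yy_ht (hb1 : b₁ ∈ H c) (hb2 : b₂ ∈ H c) (hA1 : A₁ ∈ H c) (hA2 : A₂ ∈ H c) (i : ℕ) :
    yy q b₁ b₂ A₁ A₂ (i + 1) ∈ H (2 * c * q ^ (i + 1)) := by
  have : q * c ≤ q ^ (i + 1) * c := Nat.mul_le_mul_right _ (by simpa using h.qle (Nat.le_add_left 1 i))
  exact add_mem (h.le (h.mul (h.pow hb1 _) (h.pow hA1 _)) (by linarith))
    (h.le (h.mul (h.pow hb2 _) (h.pow hA2 _)) (by linarith))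

theorem lg_ht (hg : g ∈ H c) (hΔ : Δ ∈ H c) {s E : ℕ} (hs : s < E) :
    ell q θ 0 E * gam q θ g Δ s ∈ H ((2 * c + 4) * q ^ E) := by
  rw [h.pre.ell_gam g Δ hs]
  have : 2 * (c + 1) * q ^ s ≤ 2 * (c + 1) * q ^ E := Nat.mul_le_mul_left _ (h.qle hs.le)
  exact h.le (h.mul (neg_mem (h.rho_ht hg hΔ s).1) (h.ell_ht _ _)) (by linarith)

theorem bq_ht {b : L} (hb : b ∈ H c) {E : ℕ} (hE : 1 ≤ E) : b ^ q ∈ H (c * q ^ E) :=
  h.le (h.pow hb q) (by rw [mul_comm]; exact Nat.mul_le_mul_left _ (by simpa using h.qle hE))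

theorem pick (hg : g ∈ H c) (hΔ : Δ ∈ H c) (hb1 : b₁ ∈ H c) (hb2 : b₂ ∈ H c) (hA1 : A₁ ∈ H c)
    (hA2 : A₂ ∈ H c) {T ε E m : ℕ} (hε : 2 ≤ ε) (hE : ε + 2 ≤ E)
    (hT : 108 * (T + 1) ≤ q ^ (ε + 1)) (hTm : T * q ^ ε ≤ q ^ E) (hm : 144 * m ≤ q ^ E) :
    ∃ P : L, P ≠ 0 ∧ P ∈ H ((120 * c + 119) * q ^ E) ∧
      (∀ i ≤ T, Kill q θ g Δ b₁ b₂ A₁ A₂ (U E) E (θ ^ (i * q ^ ε) * P)) ∧
      ∀ x ∈ [b₁ ^ q * (rho q θ g Δ E).1, b₂ ^ q * (rho q θ g Δ E).1,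
        b₁ ^ q * (rho q θ g Δ E).2, b₂ ^ q * (rho q θ g Δ E).2],
        ∀ k < m, U E (P * x * θ ^ k) = 0 := by
  set xs := [b₁ ^ q * (rho q θ g Δ E).1, b₂ ^ q * (rho q θ g Δ E).1,
        b₁ ^ q * (rho q θ g Δ E).2, b₂ ^ q * (rho q θ g Δ E).2] with hxs
  have hA : ∀ s < E, famA q θ g Δ b₁ b₂ A₁ A₂ E s ∈ H ((4 * c + 4) * q ^ E) := fun s hs => by
    have h1 : (if s ≤ 1 then 1 else yy q b₁ b₂ A₁ A₂ (s + 1)) ∈ H (2 * c * q ^ E) := by
      split_ifs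
      · exact h.le h.one (Nat.zero_le _)
      · exact h.le (h.yy_ht hb1 hb2 hA1 hA2 s) (Nat.mul_le_mul_left _ (h.qle hs))
    exact h.le (h.mul (h.lg_ht hg hΔ hs) h1) (by linarith)
  have hB : ∀ s < E, famB q θ g Δ b₁ E s ∈ H ((4 * c + 4) * q ^ E) := fun s hs =>
    h.le (h.mul (h.lg_ht hg hΔ hs) (h.bq_ht hb1 (E := E) (by omega))) (by nlinarith)
  have hth : ∀ i < T + 1, θ ^ (i * q ^ ε) ∈ H (q ^ E) := fun i hi =>
    h.le (h.thp _) ((Nat.mul_le_mul_right _ (by omega)).trans hTm)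
  have hx : ∀ x ∈ xs, x ∈ H ((3 * c + 2) * q ^ E) := by
    have r := h.rho_ht hg hΔ E
    have u1 := h.bq_ht hb1 (E := E) (by omega)
    have u2 := h.bq_ht hb2 (E := E) (by omega)
    simp only [hxs, List.mem_cons, List.not_mem_nil, or_false, forall_eq_or_imp, forall_eq]
    exact ⟨h.le (h.mul u1 r.1) (by linarith), h.le (h.mul u2 r.1) (by linarith),
      h.le (h.mul u1 r.2) (by linarith), h.le (h.mul u2 r.2) (by linarith)⟩
  obtain ⟨P, h0, hP, hz⟩ := h.sieg (ι := ℕ ⊕ ℕ ⊕ (ℕ × ℕ) ⊕ (ℕ × ℕ) ⊕ (Fin 4 × ℕ))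
    ((range E).disjSum ((Ico 2 E).disjSum ((Ico (ε + 1) E ×ˢ range (T + 1)).disjSum
      ((Ico ε E ×ˢ range (T + 1)).disjSum (univ ×ˢ range m)))))
    (Sum.elim (famA q θ g Δ b₁ b₂ A₁ A₂ E) (Sum.elim (famB q θ g Δ b₁ E)
      (Sum.elim (fun p => θ ^ (p.2 * q ^ ε) * famA q θ g Δ b₁ b₂ A₁ A₂ E p.1)
      (Sum.elim (fun p => θ ^ (p.2 * q ^ ε) * famB q θ g Δ b₁ E p.1)
        fun p => xs.get p.1 * θ ^ p.2))))
    (Sum.elim (max · 1) (Sum.elim (· + 1) (Sum.elim (max ·.1 1) (Sum.elim (·.1 + 1) fun _ => E))))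
    E (4 * c + 5) (17 * (7 * c + 7))
    (by
      rintro (s | s | ⟨s, i⟩ | ⟨s, i⟩ | ⟨s, i⟩) hi <;> simp at hi ⊢ <;> omega)
    (by
      rintro (s | s | ⟨s, i⟩ | ⟨s, i⟩ | ⟨s, i⟩) hi <;>
        simp only [inl_mem_disjSum, inr_mem_disjSum, mem_range, mem_Ico, mem_product,
          Sum.elim_inl, Sum.elim_inr] at hi ⊢
      · exact h.le (hA s hi) (by nlinarith)
      · exact h.le (hB s hi.2) (by nlinarith)
      · exact h.le (h.mul (hth i hi.2) (hA s hi.1.2)) (by linarith)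
      · exact h.le (h.mul (hth i hi.2) (hB s hi.1.2)) (by linarith)
      · exact h.le (h.mul (hx _ (List.get_mem _ _)) (h.le (h.thp i) (show i ≤ q ^ E by omega)))
          (by nlinarith))
    (by
      have := count h.hq hE hT hm
      simp only [sum_disjSum, Sum.elim_inl, Sum.elim_inr, sum_product, sum_const, card_range,
        smul_eq_mul, Nat.sub_self, pow_zero, mul_one, card_product, card_univ, Fintype.card_fin,
        ← mul_sum]
      nlinarith [Nat.mul_le_mul_right (7 * c + 7) this])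
  refine ⟨P, h0, h.le hP (by linarith), fun i hi => ⟨fun s hs y => ?_, fun s hs h2 y => ?_⟩, ?_⟩
  · rcases le_or_gt (max s 1) ε with h1 | h1
    · obtain ⟨u, hu⟩ := Nat.exists_eq_add_of_le h1
      rw [← hz (.inl s) (by simpa using hs) (θ ^ (i * q ^ u) * y)]
      simp only [Sum.elim_inl, mul_pow, ← pow_mul]
      rw [hu, pow_add]
      congr 1
      ring
    · rw [← hz (.inr (.inr (.inl (s, i)))) (by simp; omega) y]
      simp only [Sum.elim_inl, Sum.elim_inr]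
      congr 1
      ring
  · rcases le_or_gt (s + 1) ε with h1 | h1
    · obtain ⟨u, hu⟩ := Nat.exists_eq_add_of_le h1
      rw [← hz (.inr (.inl s)) (by simp; omega) (θ ^ (i * q ^ u) * y)]
      simp only [Sum.elim_inl, Sum.elim_inr, mul_pow, ← pow_mul]
      rw [hu, pow_add]
      congr 1
      ring
    · rw [← hz (.inr (.inr (.inr (.inl (s, i))))) (by simp; omega) y]
      simp only [Sum.elim_inl, Sum.elim_inr]
      congr 1
      ring
  · intro x hxm k hk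
    obtain ⟨n, rfl⟩ := List.get_of_mem hxm
    have := hz (.inr (.inr (.inr (.inr (n, k))))) (by simpa using hk) 1
    simpa [mul_assoc] using this

end Ctx

end Pool.Agent.Drin
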