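import Pool.Agent.Lib.MP_0c15f2_nt.DF.St
import Pool.Agent.Lib.MP_0370b2_nt.CS.An

/-! The coefficients of the exponential: twisted recurrence, decay, limits. -/

namespace Pool.Agent.Drin

open Finset WithZero Polynomial Filter Topology

set_option linter.unusedSectionVars false

variable {L : Type} [Field L] {v : Valuation L ℤᵐ⁰}

/-- The part of the data that does not involve heights. -/
structure Pre (q e : ℕ) (v : Valuation L ℤᵐ⁰) (θ : L) : Prop where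
  hq : 3 ≤ q
  fr : ∀ x y : L, (x + y) ^ q = x ^ q + y ^ q
  he : 1 ≤ e
  vth : v θ = exp (e : ℤ)

theorem Ctx.pre {F : Type} [Field F] [Algebra F L] {q c e D : ℕ} {θ δ : L} {U : ℕ → L →+ L}
    {H : ℕ → Submodule F L} (h : Ctx q c e D v θ δ U H) : Pre q e v θ :=
  ⟨h.hq, h.fr, h.he, h.vth⟩

namespace Pre

variable {q e : ℕ} {θ : L} (h : Pre q e v θ)
include h

theorem q0 : q ≠ 0 := by have := h.hq; omega

theorem qpos (n : ℕ) : 0 < q ^ n := Nat.pos_of_ne_zero (pow_ne_zero n h.q0)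

theorem qlt {a b : ℕ} (hab : a < b) : q ^ a < q ^ b :=
  Nat.pow_lt_pow_right (by have := h.hq; omega) hab

theorem fr_add (n : ℕ) (x y : L) : (x + y) ^ q ^ n = x ^ q ^ n + y ^ q ^ n := by
  obtain ⟨φ, hφ⟩ := exists_fr h.q0 h.fr n
  rw [← hφ, ← hφ, ← hφ, map_add]

theorem fr_sub (n : ℕ) (x y : L) : (x - y) ^ q ^ n = x ^ q ^ n - y ^ q ^ n := by
  obtain ⟨φ, hφ⟩ := exists_fr h.q0 h.fr n
  rw [← hφ, ← hφ, ← hφ, map_sub]

theorem fr_neg (n : ℕ) (x : L) : (-x) ^ q ^ n = -x ^ q ^ n := by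
  obtain ⟨φ, hφ⟩ := exists_fr h.q0 h.fr n
  rw [← hφ, ← hφ, map_neg]

theorem fr_sum {ι : Type} (n : ℕ) (s : Finset ι) (f : ι → L) :
    (∑ i ∈ s, f i) ^ q ^ n = ∑ i ∈ s, f i ^ q ^ n := by
  obtain ⟨φ, hφ⟩ := exists_fr h.q0 h.fr n
  rw [← hφ, map_sum]
  exact sum_congr rfl fun i _ => hφ _

theorem v_thp (n : ℕ) : v (θ ^ n) = exp ((e * n : ℕ) : ℤ) := by
  rw [v_pow_eq h.vth]; push_cast; rw [mul_comm]

theorem v_br {a b : ℕ} (hab : a < b) : v (θ ^ b - θ ^ a) = exp ((e * b : ℕ) : ℤ) := by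
  rw [Valuation.map_sub_eq_of_lt_left, h.v_thp]
  rw [h.v_thp, h.v_thp, exp_lt_exp]
  have := h.he
  exact_mod_cast Nat.mul_lt_mul_of_pos_left hab (by omega)

theorem br_ne {a b : ℕ} (hab : a < b) : θ ^ b - θ ^ a ≠ 0 := by
  rw [← Valuation.ne_zero_iff v, h.v_br hab]; exact exp_ne_zero

theorem brq_ne {a b : ℕ} (hab : a < b) : θ ^ q ^ b - θ ^ q ^ a ≠ 0 := h.br_ne (h.qlt hab)

theorem v_br1 (i : ℕ) : v (θ ^ q ^ (i + 1) - θ) = exp ((e * q ^ (i + 1) : ℕ) : ℤ) := by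
  have := h.v_br (h.qlt (Nat.succ_pos i))
  simpa using this

theorem br1_ne (i : ℕ) : θ ^ q ^ (i + 1) - θ ≠ 0 := by
  rw [← Valuation.ne_zero_iff v, h.v_br1]; exact exp_ne_zero

theorem br_pow (i u : ℕ) : (θ ^ q ^ i - θ) ^ q ^ u = θ ^ q ^ (i + u) - θ ^ q ^ u := by
  rw [h.fr_sub, ← pow_mul, ← pow_add]

theorem vv_rec0 (g Δ : L) (j : ℕ) : (θ ^ q ^ (j + 1) - θ) * (vv q θ g Δ (j + 1)).1 =
    g * (vv q θ g Δ j).1 ^ q + Δ * (vv q θ g Δ j).2 ^ q := by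
  rw [vv, mul_div_cancel₀ _ (h.br1_ne j)]

theorem vv_rec (g Δ : L) (j u : ℕ) :
    (θ ^ q ^ (j + 1 + u) - θ ^ q ^ u) * (vv q θ g Δ (j + 1)).1 ^ q ^ u =
      g ^ q ^ u * (vv q θ g Δ j).1 ^ q ^ (u + 1) + Δ ^ q ^ u * (vv q θ g Δ j).2 ^ q ^ (u + 1) := by
  rw [← h.br_pow, ← mul_pow, h.vv_rec0, h.fr_add, mul_pow, mul_pow, ← pow_mul, ← pow_mul,
    ← pow_succ']

theorem vv_rec2 (g Δ : L) (j u : ℕ) :
    (vv q θ g Δ (j + 1)).2 ^ q ^ u = (vv q θ g Δ j).1 ^ q ^ (u + 1) := by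
  rw [vv, ← pow_mul, ← pow_succ']

theorem vv_ne (g : L) {Δ : L} (hΔ : Δ ≠ 0) (j : ℕ) :
    (vv q θ g Δ j).1 ≠ 0 ∨ (vv q θ g Δ j).2 ≠ 0 := by
  induction j with
  | zero => left; simp [vv]
  | succ j ih =>
    by_contra hc
    push Not at hc
    have h1 : (vv q θ g Δ j).1 = 0 := by
      have := hc.2
      rw [vv] at this
      exact (pow_eq_zero_iff h.q0).1 this
    have h2 := h.vv_rec0 g Δ j
    rw [hc.1, h1, zero_pow h.q0, mul_zero, mul_zero, zero_add] at h2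
    have h3 := (pow_eq_zero_iff h.q0).1 ((mul_eq_zero.1 h2.symm).resolve_left hΔ)
    rcases ih with ih | ih
    · exact ih h1
    · exact ih h3

theorem vv_bound {g Δ : L} {C : ℕ} (hg : v g ≤ exp (C : ℤ)) (hΔ : v Δ ≤ exp (C : ℤ)) (j : ℕ) :
    v (vv q θ g Δ j).1 ≤ exp ((q : ℤ) ^ j * (C - e * (((j + 1) / 2 : ℕ) : ℤ)) - C) ∧
    v (vv q θ g Δ j).2 ≤ exp ((q : ℤ) ^ j * (C - e * ((j / 2 : ℕ) : ℤ)) - C) := by
  induction j with
  | zero => simp [vv]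
  | succ j ih =>
    have hq : (3 : ℤ) ≤ q := by exact_mod_cast h.hq
    have hC : (0 : ℤ) ≤ C := Int.natCast_nonneg C
    have he : (0 : ℤ) ≤ e := Int.natCast_nonneg e
    have hp : (0 : ℤ) ≤ (q : ℤ) ^ j := by positivity
    have hd : ((j / 2 : ℕ) : ℤ) ≤ (((j + 1) / 2 : ℕ) : ℤ) := by
      exact_mod_cast Nat.div_le_div_right (Nat.le_succ j)
    have h1 : v (vv q θ g Δ j).1 ≤ exp ((q : ℤ) ^ j * (C - e * ((j / 2 : ℕ) : ℤ)) - C) :=
      v_mono ih.1 (by nlinarith [mul_nonneg hp (mul_nonneg he (sub_nonneg.2 hd))])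
    constructor
    · rw [vv]
      refine v_mono (v_div_le (Valuation.map_add_le _ (v_mul_le hg (v_pow_le h1 q))
        (v_mul_le hΔ (v_pow_le ih.2 q))) (h.v_br1 j)) ?_
      have : (j + 1 + 1) / 2 = j / 2 + 1 := by omega
      rw [this]
      push_cast
      rw [pow_succ]
      nlinarith
    · rw [vv]
      refine v_mono (v_pow_le ih.1 q) ?_
      rw [pow_succ]
      nlinarith

theorem vv_decay (g Δ : L) (B N : ℤ) : ∃ I, ∀ i, I ≤ i →
    v (vv q θ g Δ i).1 ≤ exp (N - B * (q : ℤ) ^ i) ∧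
    v (vv q θ g Δ i).2 ≤ exp (N - B * (q : ℤ) ^ i) := by
  obtain ⟨C₁, h1⟩ := ex_v_le v g
  obtain ⟨C₂, h2⟩ := ex_v_le v Δ
  have hg : v g ≤ exp ((C₁ + C₂ : ℕ) : ℤ) := v_mono h1 (by omega)
  have hΔ : v Δ ≤ exp ((C₁ + C₂ : ℕ) : ℤ) := v_mono h2 (by omega)
  refine ⟨2 * (C₁ + C₂ + B.natAbs + N.natAbs), fun i hi => ?_⟩
  have hp : (1 : ℤ) ≤ (q : ℤ) ^ i := by exact_mod_cast h.qpos i
  have he : (1 : ℤ) ≤ e := by exact_mod_cast h.he
  have key : ∀ k : ℕ, C₁ + C₂ + B.natAbs + N.natAbs ≤ k →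
      (q : ℤ) ^ i * (((C₁ + C₂ : ℕ) : ℤ) - e * (k : ℤ)) - ((C₁ + C₂ : ℕ) : ℤ) ≤
        N - B * (q : ℤ) ^ i := by
    intro k hk
    have hk' : ((C₁ + C₂ : ℕ) : ℤ) + |B| + |N| ≤ k := by
      rw [← Int.natCast_natAbs, ← Int.natCast_natAbs]; exact_mod_cast hk
    have h3 := le_abs_self B
    have h4 := neg_abs_le N
    have h5 := abs_nonneg N
    have h6 : (0 : ℤ) ≤ ((C₁ + C₂ : ℕ) : ℤ) := Int.natCast_nonneg _
    have h7 : (k : ℤ) ≤ e * k := by nlinarith [Int.natCast_nonneg k]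
    nlinarith
  exact ⟨v_mono (h.vv_bound hg hΔ i).1 (key _ (by omega)),
    v_mono (h.vv_bound hg hΔ i).2 (key _ (by omega))⟩

theorem lim_pow {t : ℕ → L} {x : L} (ht : Lim v t x) (n : ℕ) :
    Lim v (fun i => t i ^ q ^ n) (x ^ q ^ n) := by
  intro N
  obtain ⟨I₀, hI⟩ := ht (-|N|)
  refine ⟨I₀, fun I hI' => ?_⟩
  rw [← h.fr_sum, ← h.fr_sub]
  refine v_mono (v_pow_le (hI I hI') _) ?_
  have hp : (1 : ℤ) ≤ ((q ^ n : ℕ) : ℤ) := by exact_mod_cast h.qpos n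
  have h4 := neg_abs_le N
  have h5 := abs_nonneg N
  nlinarith

end Pre

theorem eq_zero_of_v {x : L} (h : ∀ N : ℤ, v x ≤ exp N) : x = 0 := by
  by_contra hx
  obtain ⟨d, hd⟩ := ex_v_eq v hx
  have := h (d - 1)
  rw [hd, exp_le_exp] at this
  omega

namespace Lim

variable {t t' : ℕ → L} {x x' : L}

theorem add (h : Lim v t x) (h' : Lim v t' x') : Lim v (fun i => t i + t' i) (x + x') := by
  intro N
  obtain ⟨I₀, hI⟩ := h N
  obtain ⟨I₁, hI'⟩ := h' N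
  refine ⟨I₀ + I₁, fun I hI2 => ?_⟩
  rw [sum_add_distrib, add_sub_add_comm]
  exact Valuation.map_add_le _ (hI I (by omega)) (hI' I (by omega))

theorem mul (a : L) (h : Lim v t x) : Lim v (fun i => a * t i) (a * x) := by
  intro N
  obtain ⟨d, hd⟩ := ex_v_le v a
  obtain ⟨I₀, hI⟩ := h (N - d)
  refine ⟨I₀, fun I hI2 => ?_⟩
  rw [← mul_sum, ← mul_sub]
  exact v_mono (v_mul_le hd (hI I hI2)) (by omega)

theorem sub (h : Lim v t x) (h' : Lim v t' x') : Lim v (fun i => t i - t' i) (x - x') := by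
  have := h.add (h'.mul (-1))
  simpa [sub_eq_add_neg] using this

theorem unique (h : Lim v t x) (h' : Lim v t x') : x = x' := by
  rw [← sub_eq_zero]
  refine eq_zero_of_v (v := v) fun N => ?_
  obtain ⟨I₀, hI⟩ := h.sub h' N
  simpa using hI I₀ le_rfl

theorem shift (h : Lim v t x) (k : ℕ) :
    Lim v (fun i => t (i + k)) (x - ∑ i ∈ range k, t i) := by
  intro N
  obtain ⟨I₀, hI⟩ := h N
  refine ⟨I₀, fun I hI2 => ?_⟩
  have := hI (k + I) (by omega)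
  rw [sum_range_add] at this
  simpa [sub_sub, add_comm] using this

theorem unshift {k : ℕ} (h : Lim v (fun i => t (i + k)) x) :
    Lim v t (∑ i ∈ range k, t i + x) := by
  intro N
  obtain ⟨I₀, hI⟩ := h N
  refine ⟨I₀ + k, fun I hI2 => ?_⟩
  obtain ⟨J, rfl⟩ : ∃ J, I = k + J := ⟨I - k, by omega⟩
  have := hI J (by omega)
  rw [sum_range_add, add_sub_add_left_eq_sub]
  simpa [add_comm] using this

theorem bound (h : Lim v t x) {N : ℤ} (ht : ∀ i, v (t i) ≤ exp N) : v x ≤ exp N := by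
  obtain ⟨I₀, hI⟩ := h N
  have := Valuation.map_add_le v (hI I₀ le_rfl)
    (Valuation.map_sum_le v (s := range I₀) fun i _ => ht i)
  simpa using this

end Lim

theorem lim_tsum {F : Type} [Field F] (t : ℕ → LaurentSeries F)
    (h : ∀ n : ℤ, ∃ I : ℕ, ∀ i, I ≤ i → Valued.v (t i) ≤ exp n) :
    Lim Valued.v t (∑' i, t i) := by
  intro N
  have hs := CarlAn.summable_of_v t h
  have h1 : Tendsto (fun I => ∑' i, t i - ∑ i ∈ range I, t i) atTop (𝓝 0) := by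
    have := (tendsto_const_nhds (x := ∑' i, t i)).sub hs.hasSum.tendsto_sum_nat
    simpa using this
  have h2 := h1.eventually
    ((CarlAn.mem_nhds_zero_iff F {x | Valued.v x ≤ exp N}).2 ⟨N, subset_rfl⟩)
  exact eventually_atTop.1 h2

end Pool.Agent.Drin
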