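import Pool.Agent.Lib.MP_0c15f2_nt.DF.Base

/-! Statements of the core block and of the even block. -/

namespace Pool.Agent.Drin

open Finset WithZero Polynomial

variable {F L : Type} [Field F] [Field L] [Algebra F L]

/-- `s(c_{i+1}) α_i ^ q + t(c_{i+1}) α_{i-1} ^ q ^ 2`. -/
def pair (q : ℕ) (θ g Δ : L) (s t : L[X]) (i : ℕ) : L :=
  s.eval (θ ^ q ^ (i + 1)) * (vv q θ g Δ i).1 ^ q + t.eval (θ ^ q ^ (i + 1)) * (vv q θ g Δ i).2 ^ q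

/-- The polynomial relation produced by the Cartier and Siegel steps. -/
def Rel (q : ℕ) (θ g Δ b₁ b₂ A₁ A₂ : L) (H : ℕ → Submodule F L) : Prop :=
  ∃ (i₀ : ℕ) (κ : L) (s₁ t₁ s₂ t₂ : L[X]), κ ≠ 0 ∧ Int H κ ∧
    (∀ n, Int H (s₁.coeff n)) ∧ (∀ n, Int H (t₁.coeff n)) ∧
    (∀ n, Int H (s₂.coeff n)) ∧ (∀ n, Int H (t₂.coeff n)) ∧
    s₁.eval θ = κ * b₁ ^ q ∧ t₁.eval θ = 0 ∧ s₂.eval θ = κ * b₂ ^ q ∧ t₂.eval θ = 0 ∧
    ∀ i, i₀ ≤ i →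
      A₁ ^ q ^ (i + 1) * pair q θ g Δ s₁ t₁ i + A₂ ^ q ^ (i + 1) * pair q θ g Δ s₂ t₂ i = 0

/-- Block `Even`. -/
def EvenStmt : Prop :=
  ∀ (F : Type) [Field F] [IsAlgClosed F] (p ν : ℕ) [Fact p.Prime] [CharP F p], 3 ≤ p ^ ν →
    ∀ (e : ℕ) (θ g Δ w ξ : LaurentSeries F), 1 ≤ e → Valued.v θ = exp (e : ℤ) →
    IsAlgebraic (IntermediateField.adjoin F {θ}) g →
    IsAlgebraic (IntermediateField.adjoin F {θ}) Δ → g ≠ 0 → Δ ≠ 0 →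
    ∀ (s t : (LaurentSeries F)[X]) (i₀ : ℕ),
    (∀ n, IsAlgebraic (IntermediateField.adjoin F {θ}) (s.coeff n)) →
    (∀ n, IsAlgebraic (IntermediateField.adjoin F {θ}) (t.coeff n)) →
    s.eval θ ≠ 0 → t.eval θ = 0 →
    (∀ i, i₀ ≤ i → Odd i → pair (p ^ ν) θ g Δ s t i = 0) →
    Lim Valued.v (fun i => if Odd i then be (p ^ ν) θ g Δ i * w ^ (p ^ ν) ^ i else 0) ξ →
    IsAlgebraic (IntermediateField.adjoin F {θ}) ξ →
    ∃ η x : LaurentSeries F, IsAlgebraic (IntermediateField.adjoin F {θ}) η ∧ w = η + x ^ p ^ ν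

/-- Elements of finite height are algebraic. -/
def IntAlgStmt : Prop :=
  ∀ (F L : Type) [Field F] [Field L] [Algebra F L] (q c e D : ℕ)
    (v : Valuation L ℤᵐ⁰) (θ δ : L) (U : ℕ → L →+ L) (H : ℕ → Submodule F L),
    Ctx q c e D v θ δ U H → ∀ x, Int H x → IsAlgebraic (IntermediateField.adjoin F {θ}) x

end Pool.Agent.Drin
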