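import Pool.Agent.Lib.MP_0c15f2_nt.DF.Newton

/-! The action of a killing operator on the terms of the series. -/

namespace Pool.Agent.Drin

open Finset WithZero Polynomial

set_option linter.unusedSectionVars false

variable {L : Type} [Field L] {v : Valuation L ℤᵐ⁰}

/-- First family of killed elements. -/
def famA (q : ℕ) (θ g Δ b₁ b₂ A₁ A₂ : L) (E s : ℕ) : L :=
  ell q θ 0 E * gam q θ g Δ s * if s ≤ 1 then 1 else yy q b₁ b₂ A₁ A₂ (s + 1)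

/-- Second family of killed elements. -/
def famB (q : ℕ) (θ g Δ b₁ : L) (E s : ℕ) : L := ell q θ 0 E * gam q θ g Δ s * b₁ ^ q

/-- `z ↦ U (P z)` kills the two families. -/
def Kill (q : ℕ) (θ g Δ b₁ b₂ A₁ A₂ : L) (U : L →+ L) (E : ℕ) (P : L) : Prop :=
  (∀ s < E, ∀ y, U (P * famA q θ g Δ b₁ b₂ A₁ A₂ E s * y ^ q ^ max s 1) = 0) ∧
    ∀ s < E, 2 ≤ s → ∀ y, U (P * famB q θ g Δ b₁ E s * y ^ q ^ (s + 1)) = 0

/-- `∑ U (x θ ^ n) y ^ (Q - 1 - n)`. -/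
def PP (θ : L) (Q : ℕ) (U : L →+ L) (x y : L) : L := ∑ n ∈ range Q, U (x * θ ^ n) * y ^ (Q - 1 - n)

/-- The numerator of the `j`-th surviving term. -/
def GG (q : ℕ) (θ g Δ b₁ b₂ A₁ A₂ : L) (U : L →+ L) (E : ℕ) (P : L) (j : ℕ) : L :=
  (A₁ ^ q ^ (j + 1) * PP θ (q ^ E) U (P * (b₁ ^ q * (rho q θ g Δ E).1)) (θ ^ q ^ (j + 1)) +
    A₂ ^ q ^ (j + 1) * PP θ (q ^ E) U (P * (b₂ ^ q * (rho q θ g Δ E).1)) (θ ^ q ^ (j + 1))) *
      (vv q θ g Δ j).1 ^ q +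
  (A₁ ^ q ^ (j + 1) * PP θ (q ^ E) U (P * (b₁ ^ q * (rho q θ g Δ E).2)) (θ ^ q ^ (j + 1)) +
    A₂ ^ q ^ (j + 1) * PP θ (q ^ E) U (P * (b₂ ^ q * (rho q θ g Δ E).2)) (θ ^ q ^ (j + 1))) *
      (vv q θ g Δ j).2 ^ q

theorem pow_q_add (q : ℕ) (x : L) (a b : ℕ) : x ^ q ^ (a + b) = (x ^ q ^ a) ^ q ^ b := by
  rw [← pow_mul, ← pow_add]

theorem IsCar.shift {θ : L} {Q : ℕ} {U : L →+ L} (hU : IsCar v θ Q U) {y : L}
    (hy : y ^ Q - θ ≠ 0) (n : ℕ) : ∀ x, (∀ k < n, U (x * θ ^ k) = 0) →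
    U (θ ^ n * x / (y ^ Q - θ)) = y ^ n * U (x / (y ^ Q - θ)) := by
  induction n with
  | zero => simp
  | succ n ih =>
    intro x hx
    have e : θ ^ (n + 1) * x / (y ^ Q - θ) = y ^ Q * (θ ^ n * x / (y ^ Q - θ)) - x * θ ^ n := by
      field_simp; ring
    rw [e, map_sub, hU.semi, hx n (by omega), ih x fun k hk => hx k (by omega)]
    ring

namespace Pre

variable {q e : ℕ} {θ : L} (h : Pre q e v θ) {g Δ b₁ b₂ A₁ A₂ : L} {U : L →+ L} {E : ℕ} {P : L}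
include h

theorem U_div (hU : IsCar v θ (q ^ E) U) {y : L} (hy : y ^ q ^ E - θ ≠ 0) (x : L) :
    U (x / (y ^ q ^ E - θ)) = PP θ (q ^ E) U x y / (y ^ q ^ E - θ) := by
  have h1 := (Commute.all θ (y ^ q ^ E)).mul_neg_geom_sum₂ (q ^ E)
  rw [← h.fr_sub] at h1
  have h2 : x / (y ^ q ^ E - θ) = ∑ n ∈ range (q ^ E),
      (y ^ (q ^ E - 1 - n) / (y ^ q ^ E - θ)) ^ q ^ E * (x * θ ^ n) := by
    have h3 : ∀ n, (y ^ (q ^ E - 1 - n) / (y ^ q ^ E - θ)) ^ q ^ E * (x * θ ^ n) =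
        x / (y ^ q ^ E - θ) ^ q ^ E * (θ ^ n * (y ^ q ^ E) ^ (q ^ E - 1 - n)) := fun n => by
      rw [div_pow, ← pow_mul, ← pow_mul, mul_comm (q ^ E - 1 - n)]; ring
    simp only [h3]
    rw [← mul_sum, div_mul_eq_mul_div, div_eq_div_iff hy (pow_ne_zero _ hy), ← h1]
    ring
  rw [h2, map_sum, PP, sum_div]
  exact sum_congr rfl fun n _ => by rw [hU.semi]; ring

theorem yy_pow (i : ℕ) :
    yy q b₁ b₂ A₁ A₂ (i + 1) = (b₁ * A₁ ^ q ^ i + b₂ * A₂ ^ q ^ i) ^ q := by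
  rw [h.fr, yy, mul_pow, mul_pow, ← pow_mul, ← pow_mul, ← pow_succ]

theorem kill_mid (hA : A₂ ≠ 0) (hK : Kill q θ g Δ b₁ b₂ A₁ A₂ U E P) {s i : ℕ} (hs : s < E)
    (hi : s ≤ i) (k : L) : U (P * (ell q θ 0 E * gam q θ g Δ s) *
      (k ^ q ^ (s + 1) * yy q b₁ b₂ A₁ A₂ (i + 1))) = 0 := by
  rcases le_or_gt s 1 with h1 | h1
  · have := hK.1 s hs (k ^ q ^ s * (b₁ * A₁ ^ q ^ i + b₂ * A₂ ^ q ^ i))
    rw [famA, if_pos h1, max_eq_right h1, pow_one, mul_pow, ← h.yy_pow, ← pow_mul,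
      ← pow_succ, mul_one] at this
    exact this
  · obtain ⟨d, rfl⟩ := Nat.exists_eq_add_of_le hi
    have e1 := hK.1 s hs ((k * A₂ ^ q ^ d / A₂) ^ q)
    have e2 := hK.2 s hs h1 (k * A₁ ^ q ^ d - A₁ * (k * A₂ ^ q ^ d / A₂))
    rw [famA, if_neg (by omega), max_eq_left h1.le, ← pow_mul, ← pow_succ'] at e1
    rw [famB, h.fr_sub] at e2
    have e3 := congrArg₂ (· + ·) e1 e2
    simp only [← map_add, add_zero] at e3
    rw [← e3]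
    congr 1
    have hA' := pow_ne_zero (q ^ (s + 1)) hA
    simp only [yy, mul_pow, div_pow, ← pow_q_add, show d + (s + 1) = s + d + 1 by ring]
    field_simp
    ring

theorem term_low (hA : A₂ ≠ 0) (hK : Kill q θ g Δ b₁ b₂ A₁ A₂ U E P) {i : ℕ} (h1 : 1 ≤ i)
    (hi : i < E) (k : L) :
    U (P * (ell q θ 0 E * (be q θ g Δ i * yy q b₁ b₂ A₁ A₂ (i + 1) * k ^ q ^ i))) = 0 := by
  have e1 := h.newton g Δ i 0
  rw [zero_add, h.SS_right] at e1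
  rw [e1, add_mul, add_mul, mul_add, mul_add, map_add, sum_mul, sum_mul, mul_sum, mul_sum,
    map_sum, sum_eq_zero, zero_add]
  · have := hK.1 i hi (if i ≤ 1 then (b₁ * A₁ ^ q ^ i + b₂ * A₂ ^ q ^ i) * k else k)
    rw [← this, famA, max_eq_left h1]
    congr 1
    split_ifs with h2
    · obtain rfl : i = 1 := by omega
      rw [mul_pow, h.yy_pow, pow_one]; ring
    · ring
  · intro s hs
    have hs' := mem_range.1 hs
    obtain ⟨d, rfl⟩ := Nat.exists_eq_add_of_lt hs'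
    rw [← h.kill_mid hA hK (s := s) (i := s + d + 1) (by omega) (by omega)
      ((vv q θ g Δ (s + d + 1 - s)).1 * k ^ q ^ d)]
    congr 1
    rw [mul_pow, ← pow_q_add, show d + (s + 1) = s + d + 1 by ring]
    ring

theorem term_x (hK : Kill q θ g Δ b₁ b₂ A₁ A₂ U E P) (hE : 0 < E) (x : L) :
    U (P * (ell q θ 0 E * (gam q θ g Δ 0 * x ^ q))) = 0 := by
  rw [← hK.1 0 hE x, famA]
  simp [mul_assoc]

theorem term_mid (hA : A₂ ≠ 0) (hK : Kill q θ g Δ b₁ b₂ A₁ A₂ U E P) (j : ℕ) (k : L) :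
    U (P * (ell q θ 0 E * (be q θ g Δ (j + E) * yy q b₁ b₂ A₁ A₂ (j + E + 1) * k ^ q ^ E))) =
      U (P * (ell q θ 0 E * (SS q θ g Δ E j * yy q b₁ b₂ A₁ A₂ (j + E + 1) * k ^ q ^ E))) := by
  rw [h.newton g Δ E j, add_mul, add_mul, mul_add, mul_add, map_add, sum_mul, sum_mul, mul_sum,
    mul_sum, map_sum, sum_eq_zero, zero_add]
  intro s hs
  have hs' := mem_range.1 hs
  obtain ⟨d, hd⟩ := Nat.exists_eq_add_of_lt hs'
  rw [← h.kill_mid hA hK (s := s) (i := j + E) hs' (by omega)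
    ((vv q θ g Δ (j + E - s)).1 * k ^ q ^ d)]
  congr 1
  rw [mul_pow, ← pow_q_add, show d + (s + 1) = E by omega]
  ring

theorem term_high (hU : IsCar v θ (q ^ E) U) (hA : A₂ ≠ 0) {n : ℕ}
    (hK : Kill q θ g Δ b₁ b₂ A₁ A₂ U E (θ ^ n * P))
    (h11 : ∀ k < n, U (P * (b₁ ^ q * (rho q θ g Δ E).1) * θ ^ k) = 0)
    (h21 : ∀ k < n, U (P * (b₂ ^ q * (rho q θ g Δ E).1) * θ ^ k) = 0)
    (h12 : ∀ k < n, U (P * (b₁ ^ q * (rho q θ g Δ E).2) * θ ^ k) = 0)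
    (h22 : ∀ k < n, U (P * (b₂ ^ q * (rho q θ g Δ E).2) * θ ^ k) = 0) (j : ℕ) (k : L) :
    U (θ ^ n * P *
      (ell q θ 0 E * (be q θ g Δ (j + E) * yy q b₁ b₂ A₁ A₂ (j + E + 1) * k ^ q ^ E))) =
      GG q θ g Δ b₁ b₂ A₁ A₂ U E P j * k / (θ ^ q ^ (j + E + 1) - θ) * (θ ^ q ^ (j + 1)) ^ n := by
  have hc : θ ^ q ^ (j + E + 1) = (θ ^ q ^ (j + 1)) ^ q ^ E := by
    rw [← pow_q_add]; congr 2; ring
  have hy : (θ ^ q ^ (j + 1)) ^ q ^ E - θ ≠ 0 := hc ▸ h.br1_ne _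
  have hl := h.ell_ne 0 E
  have key : ∀ x z, (∀ k < n, U (x * θ ^ k) = 0) →
      U (z ^ q ^ E * (θ ^ n * x / ((θ ^ q ^ (j + 1)) ^ q ^ E - θ))) =
        z * ((θ ^ q ^ (j + 1)) ^ n * (PP θ (q ^ E) U x (θ ^ q ^ (j + 1)) /
          ((θ ^ q ^ (j + 1)) ^ q ^ E - θ))) := fun x z hx => by
    rw [hU.semi, hU.shift hy n x hx, h.U_div hU hy]
  have e1 := key _ (A₁ ^ q ^ (j + 1) * (vv q θ g Δ j).1 ^ q * k) h11
  have e2 := key _ (A₂ ^ q ^ (j + 1) * (vv q θ g Δ j).1 ^ q * k) h21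
  have e3 := key _ (A₁ ^ q ^ (j + 1) * (vv q θ g Δ j).2 ^ q * k) h12
  have e4 := key _ (A₂ ^ q ^ (j + 1) * (vv q θ g Δ j).2 ^ q * k) h22
  have e5 := congrArg₂ (· + ·) (congrArg₂ (· + ·) e1 e2) (congrArg₂ (· + ·) e3 e4)
  simp only [← map_add] at e5
  rw [h.term_mid hA hK, hc]
  refine Eq.trans ?_ (e5.trans ?_)
  · congr 1
    simp only [SS, yy, mul_pow, pow_succ' q E, pow_mul,
      show j + E + 1 = (j + 1) + E by ring, pow_q_add q A₁ (j + 1) E, pow_q_add q A₂ (j + 1) E,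
      pow_q_add q θ (j + 1) E]
    field_simp
  · rw [GG]
    ring

end Pre

end Pool.Agent.Drin
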