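import Pool.Agent.Lib.MP_0c15f2_nt.DF.Fin

/-! The theorem in terms of infinite sums. -/

namespace Pool.Agent.Drin

open Finset WithZero Polynomial IntermediateField

set_option linter.unusedSectionVars false

theorem pre_of (F : Type) [Field F] (p ν : ℕ) [Fact p.Prime] [CharP F p] (hq : 3 ≤ p ^ ν)
    {θ : LaurentSeries F} (hθ : θ.order < 0) : ∃ e, Pre (p ^ ν) e Valued.v θ := by
  have := charL (F := F) p
  have h0 : θ ≠ 0 := by rintro rfl; simp at hθ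
  obtain ⟨d, hd⟩ := ex_v_eq Valued.v h0
  have h1 : ¬ d ≤ 0 := fun h1 => HahnSeries.coeff_order_eq_zero.not.2 h0
    (lv_le_iff.1 (v_mono hd.le h1) _ (by simpa using hθ))
  obtain ⟨e, rfl⟩ := Int.eq_ofNat_of_zero_le (show 0 ≤ d by omega)
  exact ⟨e, hq, fun x y => add_pow_char_pow x y p ν, by omega, hd⟩

theorem Pre.lim_exp {F : Type} [Field F] {q e : ℕ} {θ : LaurentSeries F}
    (h : Pre q e Valued.v θ) (g Δ z : LaurentSeries F) :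
    Lim Valued.v (fun i => (vv q θ g Δ i).1 * z ^ q ^ i) (∑' i, (vv q θ g Δ i).1 * z ^ q ^ i) := by
  obtain ⟨d, hd⟩ := ex_v_le Valued.v z
  refine lim_tsum _ fun n => ?_
  obtain ⟨I, hI⟩ := h.vv_decay g Δ d n
  exact ⟨I, fun i hi => v_mono (v_mul_le (hI i hi).1 (v_pow_le hd _)) (by push_cast; linarith)⟩

theorem Pre.lim_quasi {F : Type} [Field F] {q e : ℕ} {θ : LaurentSeries F}
    (h : Pre q e Valued.v θ) (g Δ z : LaurentSeries F) :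
    Lim Valued.v (fun i => be q θ g Δ i * (z ^ q) ^ q ^ i)
      (∑' i, be q θ g Δ i * (z ^ q) ^ q ^ i) := by
  obtain ⟨d, hd⟩ := ex_v_le Valued.v z
  refine lim_tsum _ fun n => ?_
  obtain ⟨I, hI⟩ := h.vv_decay g Δ d (-|n|)
  refine ⟨I, fun i hi => v_mono (v_mul_le (v_div_le (v_pow_le (hI i hi).1 q) (h.v_br1 i))
    (v_pow_le (v_pow_le hd q) _)) ?_⟩
  have h1 : (1 : ℤ) ≤ q := by have := h.hq; omega
  have h2 := neg_abs_le n
  have h3 := abs_nonneg n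
  have h4 : (0 : ℤ) ≤ ((e * q ^ (i + 1) : ℕ) : ℤ) := Int.natCast_nonneg _
  push_cast at h4 ⊢
  nlinarith

theorem top (F : Type) [Field F] [IsAlgClosed F] (p ν : ℕ) [Fact p.Prime] [CharP F p]
    (hq : 3 ≤ p ^ ν) (θ g Δ α z : LaurentSeries F) (hθ : θ.order < 0)
    (hg : IsSeparable (adjoin F {θ}) g) (hΔ : IsSeparable (adjoin F {θ}) Δ)
    (hα : IsSeparable (adjoin F {θ}) α) (h0 : Δ ≠ 0) (hα1 : α ^ p ^ ν ≠ α)
    (hα2 : g = 0 → α ^ (p ^ ν) ^ 2 ≠ α) (hz : z ≠ 0)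
    (hξ : IsAlgebraic (adjoin F {θ}) (∑' i, be (p ^ ν) θ g Δ i * (z ^ p ^ ν) ^ (p ^ ν) ^ i)) :
    (∑' i, (vv (p ^ ν) θ g Δ i).1 * (α * z) ^ (p ^ ν) ^ i) ≠ 0 ∧
      Transcendental (adjoin F {θ})
        (∑' i, be (p ^ ν) θ g Δ i * ((α * z) ^ p ^ ν) ^ (p ^ ν) ^ i) := by
  obtain ⟨e, h⟩ := pre_of F p ν hq hθ
  obtain ⟨h1, h2⟩ := fin F p ν hq θ g Δ α (z ^ p ^ ν) _ hθ hg hΔ hα h0 hα1 hα2
    (pow_ne_zero _ hz) (h.lim_quasi g Δ z) hξ
  refine ⟨fun h3 => h1 ?_, h2 _ (by simpa only [mul_pow] using h.lim_quasi g Δ (α * z))⟩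
  have := h.lim_pow (h.lim_exp g Δ (α * z)) 1
  rw [h3, zero_pow (h.qpos 1).ne'] at this
  convert this using 2 with i
  rw [pow_one, mul_pow (vv _ _ _ _ i).1, ← mul_pow α, pow_right_comm]

end Pool.Agent.Drin
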