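import Pool.Agent.Lib.MP_0c15f2_nt.DF.Seq

/-! The zero lemma: only congruences in the ring of finite height are used. -/

namespace Pool.Agent.Drin

open Finset WithZero Polynomial

set_option linter.unusedSectionVars false

variable {F L : Type} [Field F] [Field L] [Algebra F L] {v : Valuation L ℤᵐ⁰}

/-- Divisibility with a cofactor of finite height. -/
def Dv (H : ℕ → Submodule F L) (P x : L) : Prop := ∃ o, Int H o ∧ x = P * o

/-- `XX Z u = Z M_0(y) ⋯ M_{u-1}(y)`. -/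
def XX (q : ℕ) (θ g Δ y : L) (Z : L × L) : ℕ → L × L
  | 0 => Z
  | u + 1 => ((XX q θ g Δ y Z u).1 * g ^ q ^ u + (XX q θ g Δ y Z u).2 * (y - θ ^ q ^ u),
      (XX q θ g Δ y Z u).1 * Δ ^ q ^ u)

theorem card_good (good : ℕ → Prop) [DecidablePred good]
    (hb : ∀ i, ¬ good i → good (i + 1) ∧ good (i + 2)) (j n : ℕ) (hn : 3 * n ≤ j) :
    2 * n ≤ ((range (3 * n)).filter fun u => good (j - u)).card := by
  induction n with
  | zero => simp
  | succ n ih =>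
    have ih' := ih (by omega)
    rw [card_filter] at ih' ⊢
    rw [show 3 * (n + 1) = 3 * n + 1 + 1 + 1 by ring, sum_range_succ, sum_range_succ,
      sum_range_succ]
    obtain ⟨a, rfl⟩ : ∃ a, j = 3 * n + 2 + a := ⟨j - (3 * n + 2), by omega⟩
    rw [show 3 * n + 2 + a - 3 * n = a + 2 by omega, show 3 * n + 2 + a - (3 * n + 1) = a + 1 by
      omega, show 3 * n + 2 + a - (3 * n + 1 + 1) = a by omega]
    have h0 := hb a
    have h1 := hb (a + 1)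
    by_cases g0 : good a <;> by_cases g1 : good (a + 1) <;> by_cases g2 : good (a + 2) <;>
      simp only [g0, g1, g2, if_true, if_false] <;> first | omega | tauto

namespace Ctx

variable {q c e D : ℕ} {θ δ : L} {U : ℕ → L →+ L} {H : ℕ → Submodule F L}
  (h : Ctx q c e D v θ δ U H)
include h

theorem dv_add {P x y : L} (hx : Dv H P x) (hy : Dv H P y) : Dv H P (x + y) := by
  obtain ⟨a, ha, rfl⟩ := hx
  obtain ⟨b, hb, rfl⟩ := hy
  exact ⟨a + b, h.int_add ha hb, by ring⟩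

theorem dv_sub {P x y : L} (hx : Dv H P x) (hy : Dv H P y) : Dv H P (x - y) := by
  obtain ⟨a, ha, rfl⟩ := hx
  obtain ⟨b, hb, rfl⟩ := hy
  exact ⟨a - b, h.int_sub ha hb, by ring⟩

theorem dv_mul {P x a : L} (hx : Dv H P x) (ha : Int H a) : Dv H P (x * a) := by
  obtain ⟨b, hb, rfl⟩ := hx
  exact ⟨b * a, h.int_mul hb ha, by ring⟩

theorem dv_self {P a : L} (ha : Int H a) : Dv H P (P * a) := ⟨a, ha, rfl⟩

theorem dv_zero (P : L) : Dv H P 0 := ⟨0, h.int_zero, by ring⟩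

theorem dv_sum {ι : Type} {P : L} (s : Finset ι) (f : ι → L) (hf : ∀ i ∈ s, Dv H P (f i)) :
    Dv H P (∑ i ∈ s, f i) :=
  Finset.sum_induction f (Dv H P) (fun _ _ => h.dv_add) (h.dv_zero P) hf

theorem dv_prod {ι : Type} {P : L} (s : Finset ι) (f f' : ι → L) (hf : ∀ i ∈ s, Int H (f i))
    (hf' : ∀ i ∈ s, Int H (f' i)) (hd : ∀ i ∈ s, Dv H P (f i - f' i)) :
    Dv H P (∏ i ∈ s, f i - ∏ i ∈ s, f' i) := by
  classical
  induction s using Finset.induction_on with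
  | empty => simpa using h.dv_zero P
  | insert a s ha ih =>
    have h1 := ih (fun i hi => hf i (mem_insert_of_mem hi))
      (fun i hi => hf' i (mem_insert_of_mem hi)) (fun i hi => hd i (mem_insert_of_mem hi))
    rw [prod_insert ha, prod_insert ha]
    have := h.dv_add (h.dv_mul h1 (hf a (mem_insert_self _ _)))
      (h.dv_mul (hd a (mem_insert_self _ _))
        (h.int_prod s f' fun i hi => hf' i (mem_insert_of_mem hi)))
    convert this using 1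
    ring

theorem int_x (u : ℕ) : Int H (θ ^ u) := ⟨_, h.thp u⟩

theorem dv_all {y z : L} (hy : Int H y) (hz : Int H z) (k : ℕ) (S : Finset ℕ)
    (hS : ∀ u ∈ S, u < k) (hd : ∀ u ∈ S, Dv H (y - θ ^ q ^ u) z) :
    ∃ r, r ≠ 0 ∧ r ∈ H (S.card * (k * q ^ k)) ∧ Dv H (∏ u ∈ S, (y - θ ^ q ^ u)) (r * z) := by
  induction S using Finset.induction_on with
  | empty => exact ⟨1, one_ne_zero, by simpa using h.one, z, hz, by simp⟩
  | insert u S hu ih =>
    obtain ⟨r, hr0, hr, o, ho, hro⟩ := ih (fun s hs => hS s (mem_insert_of_mem hs))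
      (fun s hs => hd s (mem_insert_of_mem hs))
    have huk := hS u (mem_insert_self _ _)
    have hcard : S.card ≤ k := by
      have : S ⊆ range k := fun s hs => mem_range.2 (hS s (mem_insert_of_mem hs))
      simpa using card_le_card this
    have h1 : ∏ s ∈ S, (θ ^ q ^ u - θ ^ q ^ s) ∈ H (S.card * q ^ k) :=
      h.prod_mem S _ _ fun s hs => sub_mem (h.le (h.thp _) (h.qle huk.le))
        (h.le (h.thp _) (h.qle (hS s (mem_insert_of_mem hs)).le))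
    have h2 : ∏ s ∈ S, (θ ^ q ^ u - θ ^ q ^ s) ≠ 0 := by
      refine prod_ne_zero_iff.2 fun s hs => ?_
      rcases lt_trichotomy s u with h3 | h3 | h3
      · exact h.brq_ne h3
      · exact absurd (h3 ▸ hs) hu
      · rw [← neg_sub]; exact neg_ne_zero.2 (h.brq_ne h3)
    have h3 := h.dv_prod (P := y - θ ^ q ^ u) S (fun s => y - θ ^ q ^ s)
      (fun s => θ ^ q ^ u - θ ^ q ^ s) (fun s _ => h.int_sub hy (h.int_x _))
      (fun s _ => h.int_sub (h.int_x _) (h.int_x _)) (fun s _ => ⟨1, h.int_one, by ring⟩)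
    have h4 := h.dv_sub (h.dv_mul (hd u (mem_insert_self _ _)) ⟨_, hr⟩) (h.dv_mul h3 ho)
    obtain ⟨o', ho', h5⟩ := h4
    refine ⟨(∏ s ∈ S, (θ ^ q ^ u - θ ^ q ^ s)) * r, mul_ne_zero h2 hr0, ?_, o', ho', ?_⟩
    · refine h.le (h.mul h1 hr) ?_
      rw [card_insert_of_notMem hu, add_mul, one_mul, add_comm]
      exact Nat.add_le_add_left (Nat.mul_le_mul_right _ hcard) _
    · rw [prod_insert hu, mul_assoc, hro]
      have h6 : (∏ s ∈ S, (θ ^ q ^ u - θ ^ q ^ s)) * o = (y - θ ^ q ^ u) * o' := by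
        rw [← h5, mul_comm z r, hro]; ring
      rw [mul_left_comm, h6]; ring

variable {g Δ : L}

theorem XX_orth {Z : L × L} {j : ℕ}
    (hZ : Z.1 * (vv q θ g Δ j).1 + Z.2 * (vv q θ g Δ j).2 = 0) (u : ℕ) : ∀ i, j = i + u →
    (XX q θ g Δ (θ ^ q ^ j) Z u).1 * (vv q θ g Δ i).1 ^ q ^ u +
      (XX q θ g Δ (θ ^ q ^ j) Z u).2 * (vv q θ g Δ i).2 ^ q ^ u = 0 := by
  induction u with
  | zero => rintro i rfl; simpa [XX] using hZ
  | succ u ih =>
    intro i hi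
    have h1 := ih (i + 1) (by omega)
    have h2 := h.pre.vv_rec g Δ i u
    rw [h.pre.vv_rec2] at h1
    rw [show i + 1 + u = j by omega] at h2
    simp only [XX]
    linear_combination (θ ^ q ^ j - θ ^ q ^ u) * h1 - (XX q θ g Δ (θ ^ q ^ j) Z u).1 * h2

theorem XX_ht (hg : g ∈ H c) (hΔ : Δ ∈ H c) {Z : L × L} {N j k : ℕ} (h1 : Z.1 ∈ H N)
    (h2 : Z.2 ∈ H N) (hk : k ≤ j) (u : ℕ) (hu : u ≤ k) :
    (XX q θ g Δ (θ ^ q ^ j) Z u).1 ∈ H (N + (u + 1) / 2 * q ^ j + u * (q ^ k * c)) ∧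
    (XX q θ g Δ (θ ^ q ^ j) Z u).2 ∈ H (N + u / 2 * q ^ j + u * (q ^ k * c)) := by
  induction u with
  | zero => simpa [XX] using ⟨h1, h2⟩
  | succ u ih =>
    obtain ⟨i1, i2⟩ := ih (by omega)
    have hq : q ^ u * c ≤ q ^ k * c := Nat.mul_le_mul_right _ (h.qle (by omega))
    have hd : (u + 1) / 2 * q ^ j ≤ (u / 2 + 1) * q ^ j := Nat.mul_le_mul_right _ (by omega)
    simp only [XX]
    rw [show (u + 1 + 1) / 2 = u / 2 + 1 by omega]
    refine ⟨add_mem (h.le (h.mul i1 (h.pow hg _)) ?_)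
      (h.le (h.mul i2 (h.br (h.qle (by omega)))) ?_), h.le (h.mul i1 (h.pow hΔ _)) ?_⟩
    · rw [add_mul u 1]; omega
    · rw [add_mul u 1, add_mul _ 1]; omega
    · rw [add_mul u 1]; omega

theorem XX_zero (hΔ : Δ ≠ 0) {Z : L × L} {j : ℕ} (u : ℕ) (hu : u ≤ j)
    (h1 : (XX q θ g Δ (θ ^ q ^ j) Z u).1 = 0) (h2 : (XX q θ g Δ (θ ^ q ^ j) Z u).2 = 0) :
    Z.2 = 0 := by
  induction u with
  | zero => exact h2
  | succ u ih =>
    simp only [XX] at h1 h2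
    have h3 := (mul_eq_zero.1 h2).resolve_right (pow_ne_zero _ hΔ)
    rw [h3, zero_mul, zero_add] at h1
    exact ih (by omega) h3 ((mul_eq_zero.1 h1).resolve_right (h.brq_ne (by omega)))

theorem XX_dv (hg : g ∈ H c) (hΔ : Δ ∈ H c) {Z : L × L} {y B : L} (hy : Int H y) (hB : Int H B)
    {u : ℕ} (h2 : Int H (XX q θ g Δ y Z u).2)
    (h1 : Dv H (y - θ ^ q ^ u) (B * (XX q θ g Δ y Z u).1)) (k : ℕ) (hk : u + 1 ≤ k) :
    Dv H (y - θ ^ q ^ u) (B * (XX q θ g Δ y Z k).1) ∧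
      Dv H (y - θ ^ q ^ u) (B * (XX q θ g Δ y Z k).2) := by
  induction k, hk using Nat.le_induction with
  | base =>
    simp only [XX]
    refine ⟨?_, ?_⟩
    · have := h.dv_add (h.dv_mul h1 ⟨_, h.pow hg (q ^ u)⟩)
        (h.dv_self (P := y - θ ^ q ^ u) (h.int_mul hB h2))
      convert this using 1; ring
    · have := h.dv_mul h1 ⟨_, h.pow hΔ (q ^ u)⟩
      convert this using 1; ring
  | succ k _ ih =>
    simp only [XX]
    refine ⟨?_, ?_⟩
    · have := h.dv_add (h.dv_mul ih.1 ⟨_, h.pow hg (q ^ k)⟩)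
        (h.dv_mul ih.2 (h.int_sub hy (h.int_x (q ^ k))))
      convert this using 1; ring
    · have := h.dv_mul ih.1 ⟨_, h.pow hΔ (q ^ k)⟩
      convert this using 1; ring

theorem div_prod {N j : ℕ} {x : L} (S : Finset ℕ) (hS : ∀ u ∈ S, u < j) (hx : x ∈ H N)
    (hd : Dv H (∏ u ∈ S, (θ ^ q ^ j - θ ^ q ^ u)) x) (hN : N + c < S.card * q ^ j) : x = 0 := by
  obtain ⟨o, ⟨N', ho⟩, hxo⟩ := hd
  have hdeg : ∀ u ∈ S, (X ^ q ^ j - X ^ q ^ u : F[X]).natDegree = q ^ j := fun u hu => by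
    rw [natDegree_sub_eq_left_of_natDegree_lt] <;> simp [h.qlt (hS u hu)]
  refine h.div (∏ u ∈ S, (X ^ q ^ j - X ^ q ^ u)) hx ho (by simpa [map_prod] using hxo) ?_
  rw [natDegree_prod _ _ fun u hu h0 => by
    have := hdeg u hu
    rw [h0, natDegree_zero] at this
    exact (h.qpos j).ne this, sum_congr rfl hdeg]
  simpa using hN

end Ctx

theorem zero : ZeroStmt := by
  intro F L _ _ _ q c e D v θ δ U H h g Δ hg hΔ hΔ0 y ⟨C₀, good, hgood, hbad⟩ C i₀ κ hκ0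
    ⟨Nκ, hκ⟩ hZ
  classical
  have key : ∀ i, i₀ ≤ i → good i → ∃ Z₁ Z₂ B y', Z₁ ∈ H (C * q ^ i) ∧ Z₂ ∈ H (C * q ^ i) ∧
      B ∈ H (Nκ + C₀) ∧ B ≠ 0 ∧ Int H y' ∧
      Z₁ * (vv q θ g Δ i).1 + Z₂ * (vv q θ g Δ i).2 = 0 ∧ Dv H (θ ^ q ^ i - θ) Z₁ ∧
      Dv H (θ ^ q ^ i - θ) (y' * Z₂ - B) := by
    intro i hi hgi
    obtain ⟨Z₁, Z₂, o₁, o₂, a1, a2, a3, a4, a5, a6, a7⟩ := hZ i hi
    obtain ⟨y', B, o, b1, b2, b3, b4, b5⟩ := hgood i hgi
    refine ⟨Z₁, Z₂, κ * B, y', a1, a2, h.mul hκ b2, mul_ne_zero hκ0 b3, b1, a5, ⟨o₁, a3, a6⟩,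
      κ * o + y' * o₂, h.int_add (h.int_mul ⟨_, hκ⟩ b4) (h.int_mul b1 a4), ?_⟩
    linear_combination y' * a7 + κ * b5
  choose! Z₁ Z₂ B y' k1 k2 k3 k4 k5 k6 k7 k8 using key
  set k := 3 * (2 * (C + 1)) with hk
  set K := k * (k * q ^ k) + (k * (q ^ k * (Nκ + C₀)) + k * (q ^ k * c)) + (Nκ + C₀) + c with hK
  obtain ⟨j, hj, hgj⟩ : ∃ j, i₀ + k + K + 1 ≤ j ∧ good j := by
    by_cases h0 : good (i₀ + k + K + 1)
    · exact ⟨_, le_rfl, h0⟩
    · exact ⟨_, Nat.le_succ _, (hbad _ h0).1⟩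
  have hqj : K < q ^ j := lt_trans (by omega) (Nat.lt_pow_self (n := j) (by have := h.hq; omega))
  have hj0 : i₀ ≤ j := by omega
  set S := (range k).filter fun u => good (j - u) with hS
  have hSc : 2 * (2 * (C + 1)) ≤ S.card := card_good good hbad j _ (by omega)
  have hSk : ∀ u ∈ S, u < k := fun u hu => mem_range.1 (mem_filter.1 hu).1
  have hSc' : S.card ≤ k := by simpa using card_le_card (filter_subset _ (range k))
  set Z : L × L := (Z₁ j, Z₂ j) with hZ'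
  have hht := fun u hu => h.XX_ht hg hΔ (Z := Z) (k1 j hj0 hgj) (k2 j hj0 hgj)
    (show k ≤ j by omega) u hu
  set BB := ∏ u ∈ S, B (j - u) ^ q ^ u with hBB
  have hB : ∀ u ∈ S, B (j - u) ^ q ^ u ∈ H (q ^ k * (Nκ + C₀)) := fun u hu =>
    h.le (h.pow (k3 _ (by have := hSk u hu; omega) (mem_filter.1 hu).2) _)
      (Nat.mul_le_mul_right _ (h.qle (hSk u hu).le))
  have hBB1 : BB ∈ H (k * (q ^ k * (Nκ + C₀))) :=
    h.le (h.prod_mem S _ _ hB) (Nat.mul_le_mul_right _ hSc')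
  have hBB0 : BB ≠ 0 := prod_ne_zero_iff.2 fun u hu =>
    pow_ne_zero _ (k4 _ (by have := hSk u hu; omega) (mem_filter.1 hu).2)
  have hdv : ∀ u ∈ S, Dv H (θ ^ q ^ j - θ ^ q ^ u) (BB * (XX q θ g Δ (θ ^ q ^ j) Z k).1) ∧
      Dv H (θ ^ q ^ j - θ ^ q ^ u) (BB * (XX q θ g Δ (θ ^ q ^ j) Z k).2) := by
    intro u hu
    have huk := hSk u hu
    have hgu := (mem_filter.1 hu).2
    have hi : i₀ ≤ j - u := by omega
    have e1 := h.XX_orth (Z := Z) (k6 j hj0 hgj) u (j - u) (by omega)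
    have e2 := congrArg (· ^ q ^ u) (k6 _ hi hgu)
    simp only [h.fr_add, mul_pow, zero_pow (h.qpos u).ne'] at e2
    have e3 : (XX q θ g Δ (θ ^ q ^ j) Z u).1 * Z₂ (j - u) ^ q ^ u =
        (XX q θ g Δ (θ ^ q ^ j) Z u).2 * Z₁ (j - u) ^ q ^ u := by
      rcases h.pre.vv_ne g hΔ0 (j - u) with h0 | h0
      · refine mul_right_cancel₀ (pow_ne_zero (q ^ u) h0) ?_
        linear_combination Z₂ (j - u) ^ q ^ u * e1 - (XX q θ g Δ (θ ^ q ^ j) Z u).2 * e2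
      · refine mul_right_cancel₀ (pow_ne_zero (q ^ u) h0) ?_
        linear_combination (XX q θ g Δ (θ ^ q ^ j) Z u).1 * e2 - Z₁ (j - u) ^ q ^ u * e1
    obtain ⟨o₁, ho₁, f1⟩ := k7 _ hi hgu
    obtain ⟨o₂, ho₂, f2⟩ := k8 _ hi hgu
    have f3 := congrArg (· ^ q ^ u) f1
    have f4 := congrArg (· ^ q ^ u) f2
    simp only [h.fr_sub, mul_pow, ← pow_mul, ← pow_add, show j - u + u = j by omega] at f3 f4
    have hX1 : Int H (XX q θ g Δ (θ ^ q ^ j) Z u).1 := ⟨_, (hht u huk.le).1⟩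
    have hX2 : Int H (XX q θ g Δ (θ ^ q ^ j) Z u).2 := ⟨_, (hht u huk.le).2⟩
    have f5 : Dv H (θ ^ q ^ j - θ ^ q ^ u)
        (B (j - u) ^ q ^ u * (XX q θ g Δ (θ ^ q ^ j) Z u).1) := by
      refine ⟨y' (j - u) ^ q ^ u * (XX q θ g Δ (θ ^ q ^ j) Z u).2 * o₁ ^ q ^ u -
        (XX q θ g Δ (θ ^ q ^ j) Z u).1 * o₂ ^ q ^ u, h.int_sub (h.int_mul (h.int_mul
        (h.int_pow (k5 _ hi hgu) _) hX2) (h.int_pow ho₁ _)) (h.int_mul hX1 (h.int_pow ho₂ _)), ?_⟩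
      linear_combination (-(XX q θ g Δ (θ ^ q ^ j) Z u).1) * f4 + y' (j - u) ^ q ^ u * e3 +
        y' (j - u) ^ q ^ u * (XX q θ g Δ (θ ^ q ^ j) Z u).2 * f3
    have f6 := h.XX_dv hg hΔ (h.int_x _) ⟨_, hB u hu⟩ hX2 f5 k huk
    have f7 : Int H (∏ s ∈ S.erase u, B (j - s) ^ q ^ s) :=
      h.int_prod _ _ fun s hs => ⟨_, hB s (mem_of_mem_erase hs)⟩
    rw [hBB, ← mul_prod_erase S _ hu]
    exact ⟨by convert h.dv_mul f6.1 f7 using 1; ring, by convert h.dv_mul f6.2 f7 using 1; ring⟩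
  have hz : ∀ x, x ∈ H (C * q ^ j + (k + 1) / 2 * q ^ j + k * (q ^ k * c)) →
      (∀ u ∈ S, Dv H (θ ^ q ^ j - θ ^ q ^ u) (BB * x)) → x = 0 := by
    intro x hx hd
    obtain ⟨r, hr0, hr, hrd⟩ := h.dv_all (h.int_x (q ^ j)) ⟨_, h.mul hBB1 hx⟩ k S hSk hd
    have := h.div_prod S (fun u hu => by have := hSk u hu; omega) (h.mul hr (h.mul hBB1 hx)) hrd
      (by
        have a1 : S.card * (k * q ^ k) ≤ k * (k * q ^ k) := Nat.mul_le_mul_right _ hSc'
        have a2 : 2 * (2 * (C + 1)) * q ^ j ≤ S.card * q ^ j := Nat.mul_le_mul_right _ hSc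
        rw [show (k + 1) / 2 = 3 * (C + 1) by omega]
        nlinarith)
    exact (mul_eq_zero.1 ((mul_eq_zero.1 this).resolve_left hr0)).resolve_left hBB0
  have hz2 : Z.2 = 0 := h.XX_zero hΔ0 k (by omega)
    (hz _ (hht k le_rfl).1 fun u hu => (hdv u hu).1)
    (hz _ (h.le (hht k le_rfl).2 (by
      have : k / 2 * q ^ j ≤ (k + 1) / 2 * q ^ j := Nat.mul_le_mul_right _ (by omega)
      omega)) fun u hu => (hdv u hu).2)
  have h8 := k8 j hj0 hgj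
  rw [show Z₂ j = 0 from hz2, mul_zero, zero_sub] at h8
  refine k4 j hj0 hgj (neg_eq_zero.1 (h.div_prod (j := j) {0} (by simp; omega)
    (neg_mem (k3 j hj0 hgj)) (by simpa using h8) (by simp; omega)))

end Pool.Agent.Drin
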